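import Mathlib
import Pool.Agent.Helper24K9.EL.Mo
import Pool.Agent.W218.HF.Second

set_option autoImplicit false

/-! Sixth moments of `n / φ(n)` on the values of quadratic polynomials at primes. -/

open Finset

namespace Pool.Agent.Helper24K9.EP

open Pool.Agent.Erdos456 Pool.Agent.Erdos456.Mert Pool.Agent.W218.HF Pool.Agent.Helper24K9.EL

/-- the part of `n / φ(n)` from the primes above `X` is bounded when `n ≤ exp (A X)` -/
lemma GG_le_small' {m X : ℕ} (A : ℝ) (hA : 0 ≤ A) (hm : 0 < m) (hX : 1 ≤ X) (hmX : (m : ℝ) ≤ Real.exp (A * X)) :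
    GG m ≤ Real.exp (3 / 2 * A) * ∏ p ∈ (PP X).filter (fun p => p ∣ m), (1 - (p : ℝ)⁻¹)⁻¹ := by
  classical
  have hXr : (1 : ℝ) ≤ X := by exact_mod_cast hX
  rw [GG_eq_prod hm]
  have hsplit := Finset.prod_filter_mul_prod_filter_not m.primeFactors (fun p => X < p)
    (fun p : ℕ => (1 - (p : ℝ)⁻¹)⁻¹)
  rw [← hsplit]
  have hP : m.primeFactors.filter (fun p => ¬ X < p) = (PP X).filter (fun p => p ∣ m) := by
    ext p
    simp only [mem_filter, Nat.mem_primeFactors, PP, mem_Icc, not_lt]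
    constructor
    · rintro ⟨⟨h1, h2, _⟩, h3⟩
      exact ⟨⟨⟨h1.one_le, h3⟩, h1⟩, h2⟩
    · rintro ⟨⟨⟨_, h2⟩, h3⟩, h4⟩
      exact ⟨⟨h3, h4, hm.ne'⟩, h2⟩
  rw [hP]
  apply mul_le_mul_of_nonneg_right _ (prod_nonneg fun p hp => by
    rw [mem_filter, PP, mem_filter] at hp
    exact zero_le_one.trans (factor_ge_one hp.1.2))
  set Q := m.primeFactors.filter (fun p => X < p) with hQ
  -- number of large primes
  have h2Q : (2 : ℝ) ^ Q.card ≤ Real.exp (A * X) := by
    have h1 : ∏ p ∈ Q, p ∣ m := (Finset.prod_dvd_prod_of_subset _ _ _ (filter_subset _ _)).trans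
      (Nat.prod_primeFactors_dvd m)
    have h2 : ∏ p ∈ Q, p ≤ m := Nat.le_of_dvd hm h1
    have h3 : 2 ^ Q.card ≤ ∏ p ∈ Q, p := by
      rw [← Finset.prod_const]
      apply Finset.prod_le_prod'
      intro p hp
      rw [hQ, mem_filter, Nat.mem_primeFactors] at hp
      exact hp.1.1.two_le
    have h4 : ((2 ^ Q.card : ℕ) : ℝ) ≤ m := by exact_mod_cast h3.trans h2
    push_cast at h4
    exact h4.trans hmX
  have hcard : (Q.card : ℝ) ≤ 3 / 2 * A * X := by
    have h1 := Real.log_le_log (by positivity) h2Q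
    rw [Real.log_pow, Real.log_exp] at h1
    have h2 := Real.log_two_gt_d9
    have h3 : (Q.card : ℝ) * (2 / 3) ≤ Q.card * Real.log 2 :=
      mul_le_mul_of_nonneg_left (by linarith) (by positivity)
    linarith
  have hfac : ∀ p ∈ Q, (1 - (p : ℝ)⁻¹)⁻¹ ≤ Real.exp (1 / X) := by
    intro p hp
    rw [hQ, mem_filter, Nat.mem_primeFactors] at hp
    have hp1 : (X : ℝ) + 1 ≤ p := by exact_mod_cast hp.2
    have hp0 : (0 : ℝ) < p := by linarith
    have h1 : (1 - (p : ℝ)⁻¹)⁻¹ = 1 + 1 / ((p : ℝ) - 1) := by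
      have : (p : ℝ) - 1 ≠ 0 := by
        have : (0 : ℝ) < (p : ℝ) - 1 := by linarith
        exact this.ne'
      have h2 : 1 - (p : ℝ)⁻¹ = ((p : ℝ) - 1) / p := by field_simp
      rw [h2, inv_div]
      field_simp
      ring
    rw [h1]
    have h2 : 1 / ((p : ℝ) - 1) ≤ 1 / X := one_div_le_one_div_of_le (by linarith) (by linarith)
    have h3 := Real.add_one_le_exp (1 / (X : ℝ))
    linarith
  calc ∏ p ∈ Q, (1 - (p : ℝ)⁻¹)⁻¹ ≤ ∏ p ∈ Q, Real.exp (1 / X) := by
        apply prod_le_prod _ hfac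
        intro p hp
        rw [hQ, mem_filter, Nat.mem_primeFactors] at hp
        exact zero_le_one.trans (factor_ge_one hp.1.1)
    _ = Real.exp (Q.card * (1 / X)) := by
        rw [prod_const, ← Real.exp_nat_mul]
    _ ≤ Real.exp (3 / 2 * A) := by
        apply Real.exp_le_exp.2
        rw [mul_one_div, div_le_iff₀ (by linarith)]
        linarith

/-- the primes `≤ X` in a residue class, to a small modulus -/
lemma prime_class {X P : ℕ} (hP : 1 ≤ P) (hX : 60 ≤ X) (hPX : (P : ℝ) ^ 2 ≤ X) (T : Finset ℕ)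
    (hT : T ⊆ (Icc 1 X).filter Nat.Prime) (h : ∀ s ∈ T, ∀ t ∈ T, s % P = t % P) :
    (T.card : ℝ) ≤ 80 * GG P * (X / (P * Real.log X)) + 1 := by
  classical
  have hXr : (60 : ℝ) ≤ X := by exact_mod_cast hX
  have hX0 : (0:ℝ) < X := by linarith
  have hP0 : (0:ℝ) < P := by exact_mod_cast hP
  have hlX : 0 < Real.log X := Real.log_pos (by linarith)
  rcases T.eq_empty_or_nonempty with rfl | ⟨s, hs⟩
  · rw [card_empty]
    have := GG_nonneg P
    push_cast
    positivity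
  set r := s % P with hr
  set N := X / P with hN
  have hrP : r < P := Nat.mod_lt _ hP
  -- injection into `Icc 1 N` and one more
  have h1 : T.card ≤ ((Icc 1 N).filter (fun n => (P * n + r).Prime)).card + 1 := by
    have h2 : T ⊆ insert r (((Icc 1 N).filter (fun n => (P * n + r).Prime)).image (fun n => P * n + r)) := by
      intro t ht
      have h3 := mem_filter.1 (hT ht)
      have h4 := mem_Icc.1 h3.1
      have h5 : t % P = r := h t ht s hs
      have h6 := Nat.div_add_mod t P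
      rw [h5] at h6
      rw [mem_insert, mem_image]
      by_cases h7 : t / P = 0
      · left
        rw [h7, mul_zero, zero_add] at h6
        exact h6.symm
      · right
        refine ⟨t / P, ?_, h6⟩
        rw [mem_filter, mem_Icc, h6]
        exact ⟨⟨Nat.one_le_iff_ne_zero.2 h7, Nat.div_le_div_right h4.2⟩, h3.2⟩
    have h3 := (card_le_card h2).trans (card_insert_le _ _)
    exact h3.trans (Nat.add_le_add_right card_image_le _)
  -- sizes
  have hN2 : (X : ℝ) < P * (N + 1) := by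
    have := Nat.lt_mul_div_succ X hP
    exact_mod_cast this
  have hNX : (P : ℝ) * N ≤ X := by
    exact_mod_cast Nat.mul_div_le X P
  have hPs : (P : ℝ) ≤ √X := Real.le_sqrt_of_sq_le hPX
  have hsX : √(X:ℝ) * √X = X := Real.mul_self_sqrt hX0.le
  have hs7 : (7:ℝ) ≤ √X := Real.le_sqrt_of_sq_le (by linarith)
  have hNs : √(X : ℝ) < N + 1 := by
    by_contra hcon
    push Not at hcon
    have h2 : (P : ℝ) * (N + 1) ≤ √X * √X := by
      apply mul_le_mul hPs hcon (by positivity) (by positivity)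
    linarith
  have hN6 : (6 : ℝ) < N := by linarith
  have hN2' : 2 ≤ N := by
    have : 6 < N := by exact_mod_cast hN6
    omega
  -- `N ≥ X^(1/4)`
  have hlN : Real.log X / 4 ≤ Real.log N := by
    have h2 : Real.log X ≤ Real.log ((N : ℝ) ^ 4) := by
      apply Real.log_le_log hX0
      have h3 : √(X:ℝ) ≤ N ^ 2 := by nlinarith
      calc (X : ℝ) = √X * √X := hsX.symm
        _ ≤ N ^ 2 * N ^ 2 := mul_le_mul h3 h3 (by positivity) (by positivity)
        _ = _ := by ring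
    rw [Real.log_pow] at h2
    push_cast at h2
    linarith
  have hlN0 : 0 < Real.log N := by linarith
  have h2 := one_form (t := P) (e := r) (N := N) hP hN2'
  have h3 : (N : ℝ) / Real.log N ≤ 4 * (X / (P * Real.log X)) := by
    rw [div_le_iff₀ hlN0]
    calc (N : ℝ) = (P * N) / P := by field_simp
      _ ≤ X / P := by gcongr
      _ = 4 * (X / (P * Real.log X)) * (Real.log X / 4) := by field_simp
      _ ≤ _ := by
          apply mul_le_mul_of_nonneg_left hlN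
          positivity
  have hG := GG_nonneg P
  have h4 : (T.card : ℝ) ≤ (((Icc 1 N).filter (fun n => (P * n + r).Prime)).card : ℝ) + 1 := by exact_mod_cast h1
  calc (T.card : ℝ) ≤ (((Icc 1 N).filter (fun n => (P * n + r).Prime)).card : ℝ) + 1 := h4
    _ ≤ 20 * GG P * (N / Real.log N) + 1 := by linarith
    _ ≤ 20 * GG P * (4 * (X / (P * Real.log X))) + 1 := by gcongr
    _ = _ := by ring

lemma GG_prod_le (S : Finset ℕ) (hS : ∀ p ∈ S, p.Prime) : GG (∏ p ∈ S, p) ≤ ∏ _p ∈ S, (2 : ℝ) := by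
  have h0 : 0 < ∏ p ∈ S, p := prod_pos fun p hp => (hS p hp).pos
  rw [GG_eq_prod h0]
  have h1 : (∏ p ∈ S, p).primeFactors = S := Nat.primeFactors_prod hS
  rw [h1]
  apply prod_le_prod
  · intro p hp
    exact zero_le_one.trans (factor_ge_one (hS p hp))
  · intro p hp
    have h2 : (2 : ℝ) ≤ p := by exact_mod_cast (hS p hp).two_le
    have h3 : (p : ℝ)⁻¹ ≤ 1 / 2 := by
      rw [one_div]
      exact inv_anti₀ (by norm_num) h2
    rw [inv_le_comm₀ (by linarith) (by norm_num)]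
    linarith

/-- the number of primes `t ≤ X` where `α t² + β t + γ` is divisible by all primes of `S` -/
lemma count_dvdP {X : ℕ} {α β γ : ℤ} (S : Finset ℕ) (hS : ∀ p ∈ S, p.Prime) (hX : 60 ≤ X)
    (hSX : ((∏ p ∈ S, p : ℕ) : ℝ) ^ 2 ≤ X)
    (hg : ∀ p ∈ S, ¬ ((p : ℤ) ∣ α ∧ (p : ℤ) ∣ β ∧ (p : ℤ) ∣ γ)) :
    (((((Icc 1 X).filter Nat.Prime).filter (fun t : ℕ => ∀ p ∈ S, p ∣ (α * (t : ℤ) ^ 2 + β * t + γ).natAbs)).card : ℕ) : ℝ) ≤
      80 * (X / Real.log X) * ∏ p ∈ S, (4 / (p : ℝ)) + ∏ _p ∈ S, (2 : ℝ) := by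
  set P := ∏ p ∈ S, p with hP
  have hP0 : 0 < P := prod_pos fun p hp => (hS p hp).pos
  have hP0r : (0:ℝ) < P := by exact_mod_cast hP0
  have hXr : (60 : ℝ) ≤ X := by exact_mod_cast hX
  have hlX : 0 < Real.log X := Real.log_pos (by linarith)
  set A := ((Icc 1 X).filter Nat.Prime).filter (fun t : ℕ => ∀ p ∈ S, p ∣ (α * (t : ℤ) ^ 2 + β * t + γ).natAbs) with hA
  set R := (range P).filter (fun r => ∀ p ∈ S, (p : ℤ) ∣ α * ((r % p : ℕ) : ℤ) ^ 2 + β * ((r % p : ℕ) : ℤ) + γ) with hR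
  have hRc : (R.card : ℝ) ≤ ∏ _p ∈ S, (2 : ℝ) := by
    have h1 := Pool.Agent.H373R2.BH.crt_count S hS (fun p r => (p : ℤ) ∣ α * (r : ℤ) ^ 2 + β * (r : ℤ) + γ)
    rw [← hP] at h1
    have h2 : R.card ≤ ∏ _p ∈ S, 2 := by
      rw [hR, h1]
      exact prod_le_prod' fun p hp => two_roots (hS p hp) α β γ (hg p hp)
    calc (R.card : ℝ) ≤ ((∏ _p ∈ S, 2 : ℕ) : ℝ) := by exact_mod_cast h2
      _ = _ := by push_cast; rfl
  have hmod : ∀ (p t : ℕ), (p : ℤ) ∣ (α * (t : ℤ) ^ 2 + β * t + γ) →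
      (p : ℤ) ∣ α * ((t % p : ℕ) : ℤ) ^ 2 + β * ((t % p : ℕ) : ℤ) + γ := by
    intro p t h
    have h1 : (p : ℤ) ∣ (t : ℤ) - ((t % p : ℕ) : ℤ) := by
      refine ⟨((t / p : ℕ) : ℤ), ?_⟩
      have := Nat.div_add_mod t p
      have h2 : ((p * (t / p) + t % p : ℕ) : ℤ) = t := by exact_mod_cast this
      push_cast at h2 ⊢
      linarith
    have h2 := dvd_sub h (h1.mul_right (α * ((t : ℤ) + ((t % p : ℕ) : ℤ)) + β))
    have e : α * (t : ℤ) ^ 2 + β * t + γ - ((t : ℤ) - ((t % p : ℕ) : ℤ)) * (α * ((t : ℤ) + ((t % p : ℕ) : ℤ)) + β) =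
      α * ((t % p : ℕ) : ℤ) ^ 2 + β * ((t % p : ℕ) : ℤ) + γ := by ring
    rwa [e] at h2
  have hmaps : ∀ t ∈ A, t % P ∈ R := by
    intro t ht
    rw [hA, mem_filter] at ht
    rw [hR, mem_filter, mem_range]
    refine ⟨Nat.mod_lt _ hP0, fun p hp => ?_⟩
    rw [Nat.mod_mod_of_dvd _ (dvd_prod_of_mem (fun p => p) hp)]
    exact hmod p t (Int.natCast_dvd.2 (ht.2 p hp))
  have h1 : (A.card : ℝ) = ∑ r ∈ R, (((A.filter (fun t => t % P = r)).card : ℕ) : ℝ) := by
    have := Finset.card_eq_sum_card_fiberwise (f := fun t => t % P) (s := A) (t := R) hmaps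
    exact_mod_cast this
  have h2 : ∀ r ∈ R, (((A.filter (fun t => t % P = r)).card : ℕ) : ℝ) ≤
      80 * (∏ _p ∈ S, (2 : ℝ)) * (X / (P * Real.log X)) + 1 := by
    intro r _
    have h3 := prime_class hP0 hX hSX (A.filter (fun t => t % P = r))
      ((filter_subset _ _).trans (filter_subset _ _)) (by
        intro s hs t ht
        rw [mem_filter] at hs ht
        rw [hs.2, ht.2])
    refine h3.trans ?_
    have := GG_prod_le S hS
    rw [← hP] at this
    gcongr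
  have h3 : (A.card : ℝ) ≤ R.card * (80 * (∏ _p ∈ S, (2 : ℝ)) * (X / (P * Real.log X)) + 1) := by
    rw [h1]
    refine (sum_le_sum h2).trans (le_of_eq ?_)
    rw [sum_const, nsmul_eq_mul]
  have hXP : 0 ≤ 80 * (∏ _p ∈ S, (2 : ℝ)) * (X / (P * Real.log X)) + 1 := by positivity
  have e : (∏ _p ∈ S, (2 : ℝ)) * (80 * (∏ _p ∈ S, (2 : ℝ)) * (X / (P * Real.log X)) + 1) =
      80 * (X / Real.log X) * ∏ p ∈ S, (4 / (p : ℝ)) + ∏ _p ∈ S, (2 : ℝ) := by
    rw [prod_div_distrib]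
    have e1 : (∏ _p ∈ S, (4 : ℝ)) = (∏ _p ∈ S, (2 : ℝ)) * ∏ _p ∈ S, (2 : ℝ) := by
      rw [← prod_mul_distrib]
      apply prod_congr rfl
      intro p _; norm_num
    have e2 : (∏ p ∈ S, (p : ℝ)) = P := by rw [hP]; push_cast; rfl
    rw [e1, e2]
    field_simp
  rw [← e]
  exact h3.trans (mul_le_mul_of_nonneg_right hRc hXP)

/-- the sixth moment on the values of a quadratic polynomial at primes, uniformly in the polynomial -/
theorem momP : ∃ C : ℝ, 0 < C ∧ ∀ (X : ℕ) (α β γ : ℤ), 60 ≤ X → (α ≠ 0 ∨ β ≠ 0 ∨ γ ≠ 0) →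
    (∀ t ∈ Icc 1 X, (((α * (t : ℤ) ^ 2 + β * t + γ).natAbs : ℕ) : ℝ) ≤ (X : ℝ) ^ 4) →
    ∑ t ∈ (Icc 1 X).filter Nat.Prime, (GG (α * (t : ℤ) ^ 2 + β * t + γ).natAbs) ^ 6 ≤
      C * (GG (Int.gcd α (Int.gcd β γ))) ^ 6 * (X / Real.log X) := by
  obtain ⟨C₁, hC₁, hM⟩ := prod_mertens' 252 (by norm_num)
  refine ⟨Real.exp 48 ^ 6 * (80 * Real.exp 1008 + C₁), by positivity, ?_⟩
  intro X α β γ hX hne hbd4
  set g := Int.gcd α (Int.gcd β γ) with hg
  have hg0 : 0 < g := by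
    rw [hg, Int.gcd_pos_iff]
    rcases hne with h | h | h
    · exact Or.inl h
    · right
      have := Int.gcd_pos_iff.2 (Or.inl h : β ≠ 0 ∨ γ ≠ 0)
      exact_mod_cast this.ne'
    · right
      have := Int.gcd_pos_iff.2 (Or.inr h : β ≠ 0 ∨ γ ≠ 0)
      exact_mod_cast this.ne'
  have hXr : (60 : ℝ) ≤ X := by exact_mod_cast hX
  have hX0 : (0:ℝ) < X := by linarith
  have hlX4 : 4 ≤ Real.log X := by
    rw [Real.le_log_iff_exp_le hX0]
    have h1 := Real.exp_one_lt_d9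
    have h2 : Real.exp 4 = Real.exp 1 ^ 4 := by rw [← Real.exp_nat_mul]; norm_num
    rw [h2]
    calc Real.exp 1 ^ 4 ≤ 2.7182818286 ^ 4 := pow_le_pow_left₀ (Real.exp_pos 1).le h1.le 4
      _ ≤ 60 := by norm_num
      _ ≤ X := hXr
  have hlX0 : 0 < Real.log X := by linarith
  set Y : ℕ := ⌊Real.log X / 4⌋₊ with hY
  have hY1 : 1 ≤ Y := by
    rw [hY]
    apply Nat.le_floor
    push_cast
    linarith
  have hYr1 : (1:ℝ) ≤ Y := by exact_mod_cast hY1
  have hYle : (Y : ℝ) ≤ Real.log X / 4 := Nat.floor_le (by positivity)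
  have hYge : Real.log X / 8 ≤ Y := by
    have h1 := Nat.lt_floor_add_one (Real.log X / 4)
    rw [← hY] at h1
    linarith
  set W : Finset ℕ := (PP Y).filter (fun p => ¬ p ∣ g) with hW
  have hWp : ∀ p ∈ W, p.Prime := fun p hp => by
    rw [hW, mem_filter, PP, mem_filter] at hp; exact hp.1.2
  have hWY : W ⊆ (range (Y + 1)).filter Nat.Prime := by
    intro p hp
    rw [hW, mem_filter, PP, mem_filter, mem_Icc] at hp
    rw [mem_filter, mem_range]
    exact ⟨by omega, hp.1.2⟩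
  have hWprod : ∀ S ⊆ W, ((∏ p ∈ S, p : ℕ) : ℝ) ^ 2 ≤ X := by
    intro S hS
    have h1 : ∏ p ∈ S, p ≤ primorial Y := by
      unfold primorial
      apply Finset.prod_le_prod_of_subset_of_one_le' (hS.trans hWY)
      intro p hp _
      exact (mem_filter.1 hp).2.one_le
    have h2 := h1.trans (primorial_le_four_pow Y)
    have h3 : ((∏ p ∈ S, p : ℕ) : ℝ) ≤ 4 ^ Y := by exact_mod_cast h2
    have h4 : (4:ℝ) ^ Y ≤ Real.exp (2 * Y) := by
      have h5 : (4:ℝ) ≤ Real.exp 2 := by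
        have h6 : Real.exp 2 = Real.exp 1 ^ 2 := by rw [← Real.exp_nat_mul]; norm_num
        rw [h6]
        have h7 := Real.exp_one_gt_d9
        nlinarith
      calc (4:ℝ) ^ Y ≤ Real.exp 2 ^ Y := pow_le_pow_left₀ (by norm_num) h5 Y
        _ = Real.exp (2 * Y) := by rw [← Real.exp_nat_mul]; congr 1; ring
    calc ((∏ p ∈ S, p : ℕ) : ℝ) ^ 2 ≤ Real.exp (2 * Y) ^ 2 := pow_le_pow_left₀ (by positivity) (h3.trans h4) 2
      _ = Real.exp (4 * Y) := by rw [← Real.exp_nat_mul]; congr 1; push_cast; ring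
      _ ≤ Real.exp (Real.log X) := by
          apply Real.exp_le_exp.2
          linarith
      _ = X := Real.exp_log hX0
  set w : Finset ℕ → ℝ := fun S => ∏ p ∈ S, (126 / (p : ℝ)) with hw
  have hw0 : ∀ S, 0 ≤ w S := fun S => prod_nonneg fun p _ => by positivity
  -- size
  have hbd : ∀ t ∈ Icc 1 X, (((α * (t : ℤ) ^ 2 + β * t + γ).natAbs : ℕ) : ℝ) ≤ Real.exp (32 * Y) := by
    intro t ht
    refine (hbd4 t ht).trans ?_
    calc (X : ℝ) ^ 4 = Real.exp (Real.log X) ^ 4 := by rw [Real.exp_log hX0]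
      _ = Real.exp (4 * Real.log X) := by rw [← Real.exp_nat_mul]; norm_num
      _ ≤ _ := by
          apply Real.exp_le_exp.2
          linarith
  -- pointwise bound
  have hpt : ∀ t ∈ (Icc 1 X).filter Nat.Prime, (GG (α * (t : ℤ) ^ 2 + β * t + γ).natAbs) ^ 6 ≤ Real.exp 48 ^ 6 * (GG g ^ 6 *
      ∑ S ∈ W.powerset, if (∀ p ∈ S, p ∣ (α * (t : ℤ) ^ 2 + β * t + γ).natAbs) then w S else 0) := by
    intro t ht
    set m := (α * (t : ℤ) ^ 2 + β * t + γ).natAbs with hm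
    have hR0 : 0 ≤ ∑ S ∈ W.powerset, (if (∀ p ∈ S, p ∣ m) then w S else 0) :=
      sum_nonneg fun S _ => by split_ifs; exacts [hw0 S, le_rfl]
    rcases Nat.eq_zero_or_pos m with h0 | h0
    · rw [h0] at hR0 ⊢
      rw [GG_zero]
      have := GG_nonneg g
      have : (0 : ℝ) ^ 6 = 0 := by norm_num
      rw [this]
      positivity
    have h1 := GG_le_small' 32 (by norm_num) h0 hY1 (hbd t (mem_filter.1 ht).1)
    have e48 : (3 / 2 * 32 : ℝ) = 48 := by norm_num
    rw [e48] at h1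
    set F := (PP Y).filter (fun p => p ∣ m) with hF
    have hFp : ∀ p ∈ F, p.Prime := fun p hp => by
      rw [hF, mem_filter, PP, mem_filter] at hp; exact hp.1.2
    have hsp := Finset.prod_filter_mul_prod_filter_not F (fun p => p ∣ g)
      (fun p : ℕ => (1 - (p : ℝ)⁻¹)⁻¹)
    have h2 : ∏ p ∈ F.filter (fun p => p ∣ g), (1 - (p : ℝ)⁻¹)⁻¹ ≤ GG g := by
      rw [GG_eq_prod hg0]
      apply Finset.prod_le_prod_of_subset_of_one_le
      · intro p hp
        rw [mem_filter] at hp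
        rw [Nat.mem_primeFactors]
        exact ⟨hFp p hp.1, hp.2, hg0.ne'⟩
      · intro p hp
        rw [mem_filter] at hp
        exact zero_le_one.trans (factor_ge_one (hFp p hp.1))
      · intro p hp _
        exact factor_ge_one (Nat.prime_of_mem_primeFactors hp)
    set V := F.filter (fun p => ¬ p ∣ g) with hV
    have hV0 : 0 ≤ ∏ p ∈ V, (1 - (p : ℝ)⁻¹)⁻¹ := prod_nonneg fun p hp => by
      rw [hV, mem_filter] at hp
      exact zero_le_one.trans (factor_ge_one (hFp p hp.1))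
    have h3 : GG m ≤ Real.exp 48 * (GG g * ∏ p ∈ V, (1 - (p : ℝ)⁻¹)⁻¹) := by
      refine h1.trans ?_
      rw [← hsp]
      gcongr
    have h4 : (∏ p ∈ V, (1 - (p : ℝ)⁻¹)⁻¹) ^ 6 ≤ ∏ p ∈ V, (1 + 126 / (p : ℝ)) := by
      rw [← prod_pow]
      apply prod_le_prod
      · intro p hp
        have : 0 ≤ (1 - (p : ℝ)⁻¹)⁻¹ := by
          rw [hV, mem_filter] at hp
          exact zero_le_one.trans (factor_ge_one (hFp p hp.1))
        positivity
      · intro p hp
        rw [hV, mem_filter] at hp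
        exact six_factor (hFp p hp.1)
    have h5 : ∏ p ∈ V, (1 + 126 / (p : ℝ)) =
        ∑ S ∈ W.powerset, if (∀ p ∈ S, p ∣ m) then w S else 0 := by
      rw [prod_one_add, ← sum_filter]
      apply sum_congr _ fun _ _ => rfl
      ext S
      simp only [mem_powerset, mem_filter, subset_iff, hV, hW, hF]
      constructor
      · intro h
        exact ⟨fun p hp => ⟨(h hp).1.1, (h hp).2⟩, fun p hp => (h hp).1.2⟩
      · rintro ⟨h, h'⟩ p hp
        exact ⟨⟨(h hp).1, h' p hp⟩, (h hp).2⟩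
    rw [← h5]
    calc GG m ^ 6 ≤ (Real.exp 48 * (GG g * ∏ p ∈ V, (1 - (p : ℝ)⁻¹)⁻¹)) ^ 6 :=
          pow_le_pow_left₀ (GG_nonneg m) h3 6
      _ = Real.exp 48 ^ 6 * (GG g ^ 6 * (∏ p ∈ V, (1 - (p : ℝ)⁻¹)⁻¹) ^ 6) := by ring
      _ ≤ _ := by
          have := GG_nonneg g
          gcongr
  refine (sum_le_sum hpt).trans ?_
  rw [← mul_sum, ← mul_sum, sum_comm]
  have hin : ∀ S ∈ W.powerset, ∑ t ∈ (Icc 1 X).filter Nat.Prime,
      (if (∀ p ∈ S, p ∣ (α * (t : ℤ) ^ 2 + β * t + γ).natAbs) then w S else 0) ≤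
      80 * (X / Real.log X) * ∏ p ∈ S, (504 / (p : ℝ) ^ 2) + ∏ p ∈ S, (252 / (p : ℝ)) := by
    intro S hS
    rw [mem_powerset] at hS
    rw [← sum_filter, sum_const, nsmul_eq_mul]
    have h1 := count_dvdP (X := X) (α := α) (β := β) (γ := γ) S (fun p hp => hWp p (hS hp)) hX
      (hWprod S hS) (fun p hp => by
      have h2 := hS hp
      rw [hW, mem_filter] at h2
      rintro ⟨h3, h4, h5⟩
      apply h2.2
      have h6 : (p : ℤ) ∣ (Int.gcd β γ : ℤ) := Int.dvd_coe_gcd h4 h5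
      have h7 : (p : ℤ) ∣ (Int.gcd α (Int.gcd β γ) : ℤ) := Int.dvd_coe_gcd h3 h6
      exact_mod_cast h7)
    have h2 := mul_le_mul_of_nonneg_right h1 (hw0 S)
    refine h2.trans (le_of_eq ?_)
    have e : (∏ p ∈ S, (4 / (p : ℝ))) * w S = ∏ p ∈ S, (504 / (p : ℝ) ^ 2) := by
      rw [hw, ← prod_mul_distrib]
      apply prod_congr rfl
      intro p _
      ring
    have e' : (∏ _p ∈ S, (2 : ℝ)) * w S = ∏ p ∈ S, (252 / (p : ℝ)) := by
      rw [hw, ← prod_mul_distrib]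
      apply prod_congr rfl
      intro p _
      ring
    rw [add_mul, mul_assoc, e, e']
  have hsum := sum_le_sum hin
  rw [sum_add_distrib, ← mul_sum] at hsum
  have e1 : ∑ S ∈ W.powerset, ∏ p ∈ S, (504 / (p : ℝ) ^ 2) = ∏ p ∈ W, (1 + 504 / (p : ℝ) ^ 2) :=
    (prod_one_add _).symm
  have e2 : ∑ S ∈ W.powerset, ∏ p ∈ S, (252 / (p : ℝ)) = ∏ p ∈ W, (1 + 252 / (p : ℝ)) := (prod_one_add _).symm
  rw [e1, e2] at hsum
  have h1 : ∏ p ∈ W, (1 + 504 / (p : ℝ) ^ 2) ≤ Real.exp 1008 := by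
    refine (prod_exp_le W _ fun p _ => by positivity).trans (Real.exp_le_exp.2 ?_)
    have h3 := sum_inv_sq_PP Y
    have h4 : ∑ p ∈ PP Y, 504 / (p : ℝ) ^ 2 = 4 * ∑ p ∈ PP Y, 126 / (p : ℝ) ^ 2 := by
      rw [mul_sum]; apply sum_congr rfl; intro p _; ring
    have h5 : ∑ p ∈ W, 504 / (p : ℝ) ^ 2 ≤ ∑ p ∈ PP Y, 504 / (p : ℝ) ^ 2 :=
      sum_le_sum_of_subset_of_nonneg (filter_subset _ _) fun p _ _ => by positivity
    linarith
  have h2 : ∏ p ∈ W, (1 + 252 / (p : ℝ)) ≤ C₁ * Y := by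
    have h3 := hM Y hY1
    push_cast at h3
    refine le_trans ?_ h3
    apply Finset.prod_le_prod_of_subset_of_one_le (filter_subset _ _)
    · intro p _; positivity
    · intro p _ _
      have : (0 : ℝ) ≤ 252 / (p : ℝ) := by positivity
      linarith
  have hYX : (Y : ℝ) ≤ X / Real.log X := by
    rw [le_div_iff₀ hlX0]
    have h3 : Real.log X ≤ 2 * √X := by
      have h4 := Real.add_one_le_exp (Real.log X / 2)
      have h5 : Real.exp (Real.log X / 2) = √X := by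
        rw [← Real.log_sqrt hX0.le, Real.exp_log (Real.sqrt_pos.2 hX0)]
      rw [h5] at h4
      linarith
    have h6 : √(X:ℝ) * √X = X := Real.mul_self_sqrt hX0.le
    have h7 : 0 ≤ √(X:ℝ) := Real.sqrt_nonneg _
    nlinarith
  have hGg := GG_nonneg g
  calc Real.exp 48 ^ 6 * (GG g ^ 6 * ∑ S ∈ W.powerset, ∑ t ∈ (Icc 1 X).filter Nat.Prime,
        (if (∀ p ∈ S, p ∣ (α * (t : ℤ) ^ 2 + β * t + γ).natAbs) then w S else 0))
      ≤ Real.exp 48 ^ 6 * (GG g ^ 6 * (80 * (X / Real.log X) * Real.exp 1008 + C₁ * (X / Real.log X))) := by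
        apply mul_le_mul_of_nonneg_left _ (by positivity)
        apply mul_le_mul_of_nonneg_left _ (by positivity)
        refine hsum.trans ?_
        have h3 : 80 * (X / Real.log X) * ∏ p ∈ W, (1 + 504 / (p : ℝ) ^ 2) ≤ 80 * (X / Real.log X) * Real.exp 1008 :=
          mul_le_mul_of_nonneg_left h1 (by positivity)
        have h4 : C₁ * (Y:ℝ) ≤ C₁ * (X / Real.log X) := mul_le_mul_of_nonneg_left hYX hC₁.le
        linarith
    _ = _ := by ring

end Pool.Agent.Helper24K9.EP
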