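import Mathlib
import Pool.Agent.Helper24K9.EM.Se
import Pool.Agent.Helper24K9.EP.Mo

set_option autoImplicit false

/-! Second moment along a line of coefficients, for general sets of arguments. -/

open Finset

namespace Pool.Agent.Helper24K9.EM

open Pool.Agent.Erdos456 Pool.Agent.Erdos456.Mert Pool.Agent.W218.HF Pool.Agent.Helper24K9.EL

namespace Ln

variable (l : Ln)

/-- the moments of the set `T` of arguments are bounded by `Λ` -/
structure Mom (T : Finset ℕ) (Λ : ℝ) : Prop where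
  one : 1 ≤ Λ
  g : ∑ t ∈ T, GG (l.g t) ^ 6 ≤ Λ * T.card
  u : ∀ s ∈ T, ∑ t ∈ T, GG ((1 * (t : ℤ) - (s : ℤ)).natAbs) ^ 6 ≤ Λ * T.card
  v : ∀ s ∈ T, ∑ t ∈ T, GG ((l.A * s + l.B) * t + (l.B * s + l.C)).natAbs ^ 6 ≤ Λ * T.card

theorem second2 : ∃ (C : ℝ), 0 < C ∧ ∀ (K x q : ℕ) (T : Finset ℕ) (Λ : ℝ), 4 ≤ K →
    Real.log K ≤ Λ * T.card → T ⊆ Icc l.t0 x → (∀ t ∈ T, IsCoprime (l.G t) (l.H t)) → l.Mom T Λ →
    2 * l.S * x ≤ q → 2 * q ≤ K →
    ∑ k ∈ Ioc q K, ((((T.filter (fun t : ℕ => ((k : ℤ) * l.G t + l.H t).toNat.Prime)).card :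
      ℕ)) : ℝ) ^ 2 ≤ C * Λ ^ 2 * ((T.card : ℝ) ^ 2 * (K / Real.log K ^ 2)) := by
  classical
  obtain ⟨C₃, hC₃, hsv⟩ := sieve_two'
  refine ⟨40 + 12 * C₃, by positivity, ?_⟩
  intro K x q T Λ hK hlog hT hTc hMo hqx hqK
  obtain ⟨hΛ1, h6x, hm1, hm2⟩ := hMo
  have hB : 4 ≤ K := by omega
  have hb0 : 2 * q ≤ K := hqK
  set B := K with hBK
  set b0 := q with hbk
  have hBr : (4 : ℝ) ≤ B := by exact_mod_cast hB
  have hlB : 0 < Real.log B := Real.log_pos (by linarith)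
  set c : ℝ := (T.card : ℝ) with hc
  have hΛ0' : 0 < Λ := by linarith
  have hc0 : 0 < c := by
    by_contra hcon
    push Not at hcon
    have : Λ * c ≤ 0 := mul_nonpos_of_nonneg_of_nonpos hΛ0'.le hcon
    linarith
  set N := B - b0 with hN
  have hN2 : 2 ≤ N := by omega
  have hNB : (N : ℝ) ≤ B := by
    have : N ≤ B := by omega
    exact_mod_cast this
  have hNhalf : (B : ℝ) ≤ 2 * N := by
    have : B ≤ 2 * N := by omega
    exact_mod_cast this
  have hN0 : (0 : ℝ) < N := by linarith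
  have hlN : Real.log B / 2 ≤ Real.log N := by
    have h1 : Real.log B ≤ Real.log ((N : ℝ) ^ 2) := by
      apply Real.log_le_log (by linarith)
      nlinarith
    rw [Real.log_pow] at h1
    push_cast at h1
    linarith
  have hlN0 : 0 < Real.log N := by linarith
  have hNl : (N : ℝ) / Real.log N ≤ 2 * (B / Real.log B) := by
    rw [div_le_iff₀ hlN0]
    have : (2 : ℝ) * (B / Real.log B) * Real.log N = (B / Real.log B) * (2 * Real.log N) := by ring
    rw [this]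
    have h2 : (B : ℝ) / Real.log B * (2 * Real.log N) ≥ (B / Real.log B) * Real.log B := by
      apply mul_le_mul_of_nonneg_left _ (by positivity)
      linarith
    rw [div_mul_cancel₀ _ hlB.ne'] at h2
    linarith
  have hNl2 : (N : ℝ) / Real.log N ^ 2 ≤ 4 * (B / Real.log B ^ 2) := by
    rw [div_le_iff₀ (by positivity)]
    have : (4 : ℝ) * (B / Real.log B ^ 2) * Real.log N ^ 2 =
      (B / Real.log B ^ 2) * (2 * Real.log N) ^ 2 := by ring
    rw [this]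
    have h2 : (B : ℝ) / Real.log B ^ 2 * (2 * Real.log N) ^ 2 ≥
        (B / Real.log B ^ 2) * Real.log B ^ 2 := by
      apply mul_le_mul_of_nonneg_left _ (by positivity)
      exact pow_le_pow_left₀ hlB.le (by linarith) 2
    rw [div_mul_cancel₀ _ (by positivity)] at h2
    linarith
  -- the shifts
  set e : ℕ → ℕ := fun t => ((b0 : ℤ) * l.G t + l.H t).toNat with he
  have hecast : ∀ t ∈ T, ((e t : ℕ) : ℤ) = (b0 : ℤ) * l.G t + l.H t := by
    intro t ht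
    have h1 := mem_Icc.1 (hT ht)
    refine Int.toNat_of_nonneg (l.val_nonneg h1.1 (le_trans ?_ hqx))
    exact Nat.mul_le_mul_left _ h1.2
  have hgcast : ∀ t ∈ T, ((l.g t : ℕ) : ℤ) = l.G t := fun t ht => l.g_cast (mem_Icc.1 (hT ht)).1
  have hgpos : ∀ t ∈ T, 1 ≤ l.g t := fun t ht => l.g_pos (mem_Icc.1 (hT ht)).1
  have heq : ∀ t ∈ T, ∀ n : ℕ, (((b0 + n : ℕ) : ℤ) * l.G t + l.H t).toNat = l.g t * n + e t := by
    intro t ht n
    have h1 := hecast t ht
    have h3 := hgcast t ht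
    have h2 : ((b0 + n : ℕ) : ℤ) * l.G t + l.H t = ((l.g t * n + e t : ℕ) : ℤ) := by
      push_cast
      rw [h1, h3]; ring
    rw [h2, Int.toNat_natCast]
  -- rewrite the sum
  have hsum : ∑ b ∈ Ioc b0 B, ((((T.filter (fun t : ℕ =>
      ((b : ℤ) * l.G t + l.H t).toNat.Prime)).card : ℕ)) : ℝ) ^ 2 =
      ∑ t₁ ∈ T, ∑ t₂ ∈ T, ((((Icc 1 N).filter (fun n =>
        (l.g t₁ * n + e t₁).Prime ∧ (l.g t₂ * n + e t₂).Prime)).card : ℕ) : ℝ) := by
    have h1 : Ioc b0 B = (Icc 1 N).image (fun n => b0 + n) := by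
      ext b
      simp only [mem_Ioc, mem_image, mem_Icc]
      constructor
      · intro h; exact ⟨b - b0, by omega, by omega⟩
      · rintro ⟨n, hn, rfl⟩; omega
    rw [h1, sum_image (fun n _ m _ h => by
      have h' : b0 + n = b0 + m := h
      omega)]
    have h2 : ∀ n ∈ Icc 1 N, ((((T.filter (fun t : ℕ =>
        (((b0 + n : ℕ) : ℤ) * l.G t + l.H t).toNat.Prime)).card : ℕ)) : ℝ) ^ 2 =
        ∑ t₁ ∈ T, ∑ t₂ ∈ T, (if (l.g t₁ * n + e t₁).Prime ∧ (l.g t₂ * n + e t₂).Prime then (1 : ℝ) else 0) := by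
      intro n _
      have h3 : T.filter (fun t : ℕ => (((b0 + n : ℕ) : ℤ) * l.G t + l.H t).toNat.Prime) =
          T.filter (fun t => (l.g t * n + e t).Prime) := by
        apply filter_congr
        intro t ht
        rw [heq t ht n]
      rw [h3, card_filter]
      push_cast
      rw [sq, sum_mul_sum]
      apply sum_congr rfl
      intro t₁ _
      apply sum_congr rfl
      intro t₂ _
      by_cases h4 : (l.g t₁ * n + e t₁).Prime <;> by_cases h5 : (l.g t₂ * n + e t₂).Prime <;> simp [h4, h5]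
    rw [sum_congr rfl h2, sum_comm]
    apply sum_congr rfl
    intro t₁ _
    rw [sum_comm]
    apply sum_congr rfl
    intro t₂ _
    rw [card_filter]
    push_cast
    rfl
  rw [hsum]
  -- bound for each pair
  set uu : ℕ → ℕ → ℕ := fun t₁ t₂ => ((((1 : ℕ) : ℤ) * t₂ - (t₁ : ℤ)).natAbs) with huu
  set vv : ℕ → ℕ → ℕ := fun t₁ t₂ => ((l.A * t₁ + l.B) * t₂ + (l.B * t₁ + l.C)).natAbs with hvv
  have hpair : ∀ t₁ ∈ T, ∀ t₂ ∈ T, ((((Icc 1 N).filter (fun n =>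
        (l.g t₁ * n + e t₁).Prime ∧ (l.g t₂ * n + e t₂).Prime)).card : ℕ) : ℝ) ≤
      (if t₁ = t₂ then 40 * GG (l.g t₁) ^ 6 * (B / Real.log B) else 0) +
      C₃ * ((GG (l.g t₁) ^ 6 * GG (l.g t₂) ^ 6) + GG (uu t₁ t₂) ^ 6 +
        GG (vv t₁ t₂) ^ 6) * (4 * (B / Real.log B ^ 2)) := by
    intro t₁ h₁ t₂ h₂
    have hp1 := mem_Icc.1 (hT h₁)
    have hp2 := mem_Icc.1 (hT h₂)
    have hoff0 : 0 ≤ C₃ * ((GG (l.g t₁) ^ 6 * GG (l.g t₂) ^ 6) + GG (uu t₁ t₂) ^ 6 +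
        GG (vv t₁ t₂) ^ 6) * (4 * (B / Real.log B ^ 2)) := by
      have := GG_nonneg (l.g t₁)
      have := GG_nonneg (l.g t₂)
      have := GG_nonneg (uu t₁ t₂)
      have := GG_nonneg (vv t₁ t₂)
      positivity
    by_cases h12 : t₁ = t₂
    · subst h12
      rw [if_pos rfl]
      have h3 := one_form (t := l.g t₁) (e := e t₁) (N := N) (hgpos t₁ h₁) hN2
      have h4 : (((Icc 1 N).filter (fun n =>
        (l.g t₁ * n + e t₁).Prime ∧ (l.g t₁ * n + e t₁).Prime)).card : ℝ) =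
        (((Icc 1 N).filter (fun n => (l.g t₁ * n + e t₁).Prime)).card : ℝ) := by
        simp only [and_self]
      rw [h4]
      have h5 : 20 * GG (l.g t₁) * (N / Real.log N) ≤ 40 * GG (l.g t₁) ^ 6 * (B / Real.log B) := by
        have h6' := GG_le_six (n := l.g t₁) (hgpos t₁ h₁)
        have h7 := GG_nonneg (l.g t₁)
        calc 20 * GG (l.g t₁) * (N / Real.log N) ≤ 20 * GG (l.g t₁) * (2 * (B / Real.log B)) := by gcongr
          _ ≤ 20 * GG (l.g t₁) ^ 6 * (2 * (B / Real.log B)) := by gcongr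
          _ = _ := by ring
      linarith
    · rw [if_neg h12, zero_add]
      have hcop : ∀ t ∈ T, Nat.Coprime (l.g t) (e t) := by
        intro t ht
        have h1 := hecast t ht
        have h3 : IsCoprime ((l.g t : ℕ) : ℤ) ((e t : ℕ) : ℤ) := by
          rw [h1, hgcast t ht]
          have := (hTc t ht).add_mul_left_right (b0 : ℤ)
          have e3 : l.H t + l.G t * (b0 : ℤ) = (b0 : ℤ) * l.G t + l.H t := by ring
          rwa [e3] at this
        exact Nat.isCoprime_iff_coprime.1 h3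
      have hkey : ((l.g t₁ * e t₂ : ℕ) : ℤ) - ((l.g t₂ * e t₁ : ℕ) : ℤ) =
          -((((1 : ℕ) : ℤ) * t₂ - (t₁ : ℤ)) * ((l.A * t₁ + l.B) * t₂ + (l.B * t₁ + l.C))) := by
        have h1 := hecast t₁ h₁
        have h2 := hecast t₂ h₂
        have h3 := hgcast t₁ h₁
        have h4 := hgcast t₂ h₂
        have h5 := l.key t₁ t₂
        push_cast
        rw [h1, h2, h3, h4]
        linear_combination h5
      have hne : l.g t₁ * e t₂ ≠ l.g t₂ * e t₁ := by
        intro h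
        have h3 : l.g t₁ ∣ l.g t₂ := by
          have h4 : l.g t₁ ∣ l.g t₂ * e t₁ := ⟨e t₂, h.symm⟩
          exact (hcop t₁ h₁).dvd_of_dvd_mul_right h4
        have h4 : l.g t₂ ∣ l.g t₁ := by
          have h5 : l.g t₂ ∣ l.g t₁ * e t₂ := ⟨e t₁, h⟩
          exact (hcop t₂ h₂).dvd_of_dvd_mul_right h5
        have h5 := Nat.dvd_antisymm h3 h4
        have h6 : l.G t₁ = l.G t₂ := by
          rw [← hgcast t₁ h₁, ← hgcast t₂ h₂, h5]
        rcases lt_or_gt_of_ne h12 with h7 | h7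
        · have := l.G_lt hp1.1 h7; linarith
        · have := l.G_lt hp2.1 h7; linarith
      have h3 := hsv (l.g t₁) (e t₁) (l.g t₂) (e t₂) N (hgpos t₁ h₁) (hgpos t₂ h₂) (hcop t₁ h₁) (hcop t₂ h₂) hne hN2
      rw [hkey, Int.natAbs_neg, Int.natAbs_mul] at h3
      set u := uu t₁ t₂ with hu
      set v := vv t₁ t₂ with hv
      have h3' : ((((Icc 1 N).filter (fun n =>
        (l.g t₁ * n + e t₁).Prime ∧ (l.g t₂ * n + e t₂).Prime)).card : ℕ) : ℝ) ≤
          C₃ * GG (l.g t₁ * l.g t₂ * (u * v)) ^ 2 * N / Real.log N ^ 2 := h3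
      have h4 : GG (l.g t₁ * l.g t₂ * (u * v)) ≤ GG (l.g t₁) * GG (l.g t₂) * (GG u) * GG v := by
        calc GG (l.g t₁ * l.g t₂ * (u * v)) ≤ GG (l.g t₁ * l.g t₂) * GG (u * v) := GG_mul_le _ _
          _ ≤ (GG (l.g t₁) * GG (l.g t₂)) * (GG u * GG v) := by
              apply mul_le_mul (GG_mul_le _ _) (GG_mul_le _ _) (GG_nonneg _)
              exact mul_nonneg (GG_nonneg _) (GG_nonneg _)
          _ = _ := by ring
      have h5 : GG (l.g t₁ * l.g t₂ * (u * v)) ^ 2 ≤ GG (l.g t₁) ^ 6 * GG (l.g t₂) ^ 6 + GG u ^ 6 + GG v ^ 6 := by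
        have key : ∀ p q r : ℝ, 0 ≤ p → 0 ≤ q → 0 ≤ r → (p * q * r) ^ 2 ≤ p ^ 6 + q ^ 6 + r ^ 6 := by
          intro p q r hp hq hr
          have key : ∀ u v w : ℝ, 0 ≤ u → 0 ≤ v → 0 ≤ w → u * v * w ≤ u ^ 3 + v ^ 3 + w ^ 3 := by
            intro u v w hu hv hw
            set m := max u (max v w) with hm
            have h1 : u ≤ m := le_max_left _ _
            have h2 : v ≤ m := (le_max_left _ _).trans (le_max_right _ _)
            have h3 : w ≤ m := (le_max_right _ _).trans (le_max_right _ _)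
            have hm0 : 0 ≤ m := hu.trans h1
            have h4 : u * v * w ≤ m ^ 3 := by
              calc u * v * w ≤ m * m * m := by gcongr
                _ = m ^ 3 := by ring
            have hu3 : 0 ≤ u ^ 3 := by positivity
            have hv3 : 0 ≤ v ^ 3 := by positivity
            have hw3 : 0 ≤ w ^ 3 := by positivity
            have h5 : m ^ 3 ≤ u ^ 3 + v ^ 3 + w ^ 3 := by
              rcases max_choice u (max v w) with h | h
              · rw [hm, h]; linarith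
              · rcases max_choice v w with h' | h'
                · rw [hm, h, h']; linarith
                · rw [hm, h, h']; linarith
            exact h4.trans h5
          have := key (p ^ 2) (q ^ 2) (r ^ 2) (by positivity) (by positivity) (by positivity)
          calc (p * q * r) ^ 2 = p ^ 2 * q ^ 2 * r ^ 2 := by ring
            _ ≤ (p ^ 2) ^ 3 + (q ^ 2) ^ 3 + (r ^ 2) ^ 3 := this
            _ = _ := by ring
        have h7 := key (GG (l.g t₁) * GG (l.g t₂)) (GG u) (GG v) (mul_nonneg (GG_nonneg _) (GG_nonneg _))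
          (GG_nonneg _) (GG_nonneg _)
        calc GG (l.g t₁ * l.g t₂ * (u * v)) ^ 2 ≤ (GG (l.g t₁) * GG (l.g t₂) * (GG u) * GG v) ^ 2 :=
              pow_le_pow_left₀ (GG_nonneg _) h4 2
          _ ≤ (GG (l.g t₁) * GG (l.g t₂)) ^ 6 + GG u ^ 6 + GG v ^ 6 := h7
          _ = _ := by rw [mul_pow]
      have hG2 : 0 ≤ GG (l.g t₁ * l.g t₂ * (u * v)) ^ 2 := by positivity
      calc _ ≤ C₃ * GG (l.g t₁ * l.g t₂ * (u * v)) ^ 2 * N / Real.log N ^ 2 := h3'
        _ = C₃ * GG (l.g t₁ * l.g t₂ * (u * v)) ^ 2 * (N / Real.log N ^ 2) := by ring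
        _ ≤ C₃ * (GG (l.g t₁) ^ 6 * GG (l.g t₂) ^ 6 + GG u ^ 6 + GG v ^ 6) * (4 * (B / Real.log B ^ 2)) := by
            gcongr
  -- sum up
  have hL : 0 ≤ (4 : ℝ) * (B / Real.log B ^ 2) := by positivity
  have hΛ0 : 0 ≤ Λ := by linarith
  have hΛsq : Λ ≤ Λ ^ 2 := by nlinarith
  have hall : ∑ t₁ ∈ T, ∑ t₂ ∈ T, ((((Icc 1 N).filter (fun n =>
        (l.g t₁ * n + e t₁).Prime ∧ (l.g t₂ * n + e t₂).Prime)).card : ℕ) : ℝ) ≤
      ∑ t₁ ∈ T, (40 * GG (l.g t₁) ^ 6 * (B / Real.log B)) +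
      ∑ t₁ ∈ T, ∑ t₂ ∈ T,
        C₃ * ((GG (l.g t₁) ^ 6 * GG (l.g t₂) ^ 6) + GG (uu t₁ t₂) ^ 6 +
        GG (vv t₁ t₂) ^ 6) * (4 * (B / Real.log B ^ 2)) := by
    have h1 := sum_le_sum fun t₁ h₁ => sum_le_sum fun t₂ h₂ => hpair t₁ h₁ t₂ h₂
    refine h1.trans ?_
    simp only [sum_add_distrib]
    apply add_le_add
    · have h2 : ∀ t₁ ∈ T, ∑ t₂ ∈ T, (if t₁ = t₂ then 40 * GG (l.g t₁) ^ 6 * (B / Real.log B) else 0) =
          40 * GG (l.g t₁) ^ 6 * (B / Real.log B) := by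
        intro t₁ h₁
        rw [sum_ite_eq, if_pos h₁]
      rw [sum_congr rfl h2]
    · exact le_rfl
  have hdiag : ∑ t₁ ∈ T, (40 * GG (l.g t₁) ^ 6 * (B / Real.log B)) ≤
      40 * Λ ^ 2 * (c ^ 2 * (B / Real.log B ^ 2)) := by
    rw [← sum_mul, ← mul_sum]
    have h1 : (B : ℝ) / Real.log B ≤ (Λ * c) * (B / Real.log B ^ 2) := by
      have e1 : (B : ℝ) / Real.log B = Real.log B * (B / Real.log B ^ 2) := by
        field_simp
      rw [e1]
      gcongr
    calc (40 * ∑ t₁ ∈ T, GG (l.g t₁) ^ 6) * (B / Real.log B)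
        ≤ 40 * (Λ * c) * (B / Real.log B) := by gcongr
      _ ≤ 40 * (Λ * c) * ((Λ * c) * (B / Real.log B ^ 2)) := by gcongr
      _ = _ := by ring
  have hoff : ∑ t₁ ∈ T, ∑ t₂ ∈ T,
        C₃ * ((GG (l.g t₁) ^ 6 * GG (l.g t₂) ^ 6) + GG (uu t₁ t₂) ^ 6 +
        GG (vv t₁ t₂) ^ 6) * (4 * (B / Real.log B ^ 2)) ≤
      12 * C₃ * Λ ^ 2 * (c ^ 2 * (B / Real.log B ^ 2)) := by
    have h1 : ∀ t₁ ∈ T, ∑ t₂ ∈ T,
        C₃ * ((GG (l.g t₁) ^ 6 * GG (l.g t₂) ^ 6) + GG (uu t₁ t₂) ^ 6 +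
        GG (vv t₁ t₂) ^ 6) * (4 * (B / Real.log B ^ 2)) ≤
        C₃ * (GG (l.g t₁) ^ 6 * (Λ * c) + Λ * c + Λ * c) * (4 * (B / Real.log B ^ 2)) := by
      intro t₁ h₁
      rw [← sum_mul, ← mul_sum, sum_add_distrib, sum_add_distrib, ← mul_sum]
      have := GG_nonneg (l.g t₁)
      have a1 : ∑ t₂ ∈ T, GG (uu t₁ t₂) ^ 6 ≤ Λ * c := by
        simpa only [huu, Nat.cast_one] using hm1 t₁ h₁
      have a2 : ∑ t₂ ∈ T, GG (vv t₁ t₂) ^ 6 ≤ Λ * c := by
        simpa only [hvv] using hm2 t₁ h₁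
      gcongr
    refine (sum_le_sum h1).trans ?_
    rw [← sum_mul, ← mul_sum, sum_add_distrib, sum_add_distrib, ← sum_mul, sum_const,
      nsmul_eq_mul]
    have h2 : (∑ i ∈ T, GG (l.g i) ^ 6) * (Λ * c) ≤ (Λ * c) * (Λ * c) :=
      mul_le_mul_of_nonneg_right h6x (by positivity)
    have h3 : Λ * c * c ≤ Λ ^ 2 * c * c := by gcongr
    have h4 : (∑ i ∈ T, GG (l.g i) ^ 6) * (Λ * c) + (T.card : ℝ) * (Λ * c) + (T.card : ℝ) * (Λ * c) ≤
        3 * Λ ^ 2 * c ^ 2 := by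
      rw [← hc]
      nlinarith
    calc _ ≤ C₃ * (3 * Λ ^ 2 * c ^ 2) * (4 * (B / Real.log B ^ 2)) := by gcongr
      _ = _ := by ring
  calc _ ≤ 40 * Λ ^ 2 * (c ^ 2 * (B / Real.log B ^ 2)) +
        12 * C₃ * Λ ^ 2 * (c ^ 2 * (B / Real.log B ^ 2)) :=
        hall.trans (add_le_add hdiag hoff)
    _ = _ := by ring

end Ln

end Pool.Agent.Helper24K9.EM
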