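import Mathlib
import Pool.Agent.Helper24K9.EM.Ma
import Pool.Agent.Helper24K9.EP.Se

set_option autoImplicit false

/-! The main theorem along a line of coefficients, for general sets of arguments. -/

open Finset Filter Topology

namespace Pool.Agent.Helper24K9.EM

open Pool.Agent.Erdos456 H343E Pool.Agent.W218.HF Pool.Agent.Helper24K9.EL

namespace Ln

variable (l : Ln)

theorem main2 : ∃ C₂ : ℝ, 0 < C₂ ∧ ∀ κ : ℝ, 0 < κ → κ ≤ 1 → ∀ z : ℕ, ∃ K₀ : ℕ, ∀ K : ℕ, K₀ ≤ K →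
    ∀ (x : ℕ) (T : Finset ℕ) (Λ : ℝ), l.t0 ≤ x → Real.log K ≤ Λ * T.card → T ⊆ Icc l.t0 x →
    (∀ t ∈ T, IsCoprime (l.G t) (l.H t)) → l.Mom T Λ →
    64 * l.S * ((l.g x : ℝ) * Real.log K) ≤ κ * K →
    (1 - κ / 4) * (K / Real.log (K * l.g x)) * (∑ t ∈ T, GG (l.g t)) ≤ ∑ t ∈ T, l.ck K t →
    κ ^ 2 / (C₂ * Λ ^ 2) * K ≤ ((((Icc 1 K).filter (fun k : ℕ =>
      (1 - κ) * (l.unsieved z k T / Wz z) / Real.log (K * l.g x) ≤ l.numP k T ∧
      κ / 8 * T.card / Real.log K ≤ l.numP k T)).card : ℕ) : ℝ) := by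
  classical
  obtain ⟨C₂, hC₂, hsecond⟩ := l.second2
  refine ⟨64 * C₂, by positivity, fun κ hκ0 hκ1 => ?_⟩
  set θ₀ : ℝ := 1 - κ with hθ₀
  have hθ0 : 0 ≤ θ₀ := by rw [hθ₀]; linarith
  have hθ1 : θ₀ < 1 := by rw [hθ₀]; linarith
  have hSpos : (1:ℝ) ≤ l.S := by exact_mod_cast l.S_pos'
  set η₁ : ℝ := κ / 8 with hη₁
  have hη10 : 0 < η₁ := by positivity
  intro z
  refine ⟨max 4 ⌈8 * Pz z / κ⌉₊, ?_⟩
  intro B hB x T Λ ht0x hlog hT hTc hMo hgxM' hF
  have hB4 : 4 ≤ B := (le_max_left _ _).trans hB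
  have hBP : 8 * (Pz z : ℝ) / κ ≤ B :=
    (Nat.le_ceil _).trans (by exact_mod_cast (le_max_right _ _).trans hB)
  have hBr : (4 : ℝ) ≤ B := by exact_mod_cast hB4
  have hB0 : (0 : ℝ) < B := by linarith
  have hBr1 : (1:ℝ) ≤ B := by linarith
  have hlB : 1 ≤ Real.log B := by
    rw [Real.le_log_iff_exp_le hB0]
    have := Real.exp_one_lt_d9
    linarith
  set c : ℝ := (T.card : ℝ) with hc
  have hΛ1 := hMo.one
  have hc0 : 0 < c := by
    by_contra hcon
    push Not at hcon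
    have : Λ * c ≤ 0 := mul_nonpos_of_nonneg_of_nonpos (by linarith) hcon
    linarith
  have hgx1 : 1 ≤ l.g x := l.g_pos ht0x
  have hgx1r : (1:ℝ) ≤ l.g x := by exact_mod_cast hgx1
  have hgx0 : (0:ℝ) < l.g x := by linarith
  have hgxK : (l.g x : ℝ) ≤ B := by
    have h1 : 1 * (l.g x * 1) ≤ 64 * l.S * ((l.g x : ℝ) * Real.log B) := by
      apply mul_le_mul (by linarith) _ (by positivity) (by positivity)
      exact mul_le_mul_of_nonneg_left hlB hgx0.le
    have h2 : κ * (B:ℝ) ≤ 1 * B := mul_le_mul_of_nonneg_right hκ1 hB0.le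
    linarith
  have hx2g : (x : ℝ) ≤ 2 * l.g x := by
    have h1 := l.two_G_ge ht0x
    rw [← l.g_cast ht0x] at h1
    exact_mod_cast h1
  set L : ℝ := Real.log (B * l.g x) with hL
  have hL1 : Real.log B ≤ L := by
    apply Real.log_le_log hB0
    have := mul_le_mul_of_nonneg_left hgx1r hB0.le
    linarith
  have hL2 : L ≤ 2 * Real.log B := by
    rw [hL, Real.log_mul hB0.ne' hgx0.ne']
    have := Real.log_le_log hgx0 hgxK
    linarith
  have hL0 : 0 < L := by linarith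
  set b0 : ℕ := 2 * l.S * x with hb0
  have hgl : (l.g x : ℝ) ≤ l.g x * Real.log B := le_mul_of_one_le_right hgx0.le hlB
  have hb0B : 2 * b0 ≤ B := by
    have h1 : (2 * b0 : ℝ) ≤ B := by
      rw [hb0]; push_cast
      have h2 : κ * (B:ℝ) ≤ 1 * B := mul_le_mul_of_nonneg_right hκ1 hB0.le
      have h3 : (l.S : ℝ) * (x:ℝ) ≤ l.S * (2 * l.g x) := mul_le_mul_of_nonneg_left hx2g (by linarith)
      have h4 : (l.S : ℝ) * (l.g x : ℝ) ≤ l.S * (l.g x * Real.log B) := mul_le_mul_of_nonneg_left hgl (by linarith)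
      have h5 : (0:ℝ) ≤ l.S * (l.g x * Real.log B) := by positivity
      nlinarith
    exact_mod_cast h1
  set m : ℝ := ∑ t ∈ T, GG (l.g t) with hm
  have hTt0 : ∀ t ∈ T, l.t0 ≤ t := fun t ht => (mem_Icc.1 (hT ht)).1
  -- second moment
  have hS := hsecond B x b0 T Λ hB4 hlog hT hTc hMo le_rfl hb0B
  -- double counting
  set N' : ℕ → ℝ := fun b => ((((T.filter (fun t : ℕ =>
    ((b : ℤ) * l.G t + l.H t).toNat.Prime)).card : ℕ)) : ℝ) with hN'
  have hN'0 : ∀ b, 0 ≤ N' b := fun b => Nat.cast_nonneg _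
  have hswap : ∑ t ∈ T, l.ck B t = ∑ b ∈ Ioc 0 B, N' b := by
    simp only [ck, hN', card_filter]
    push_cast
    rw [sum_comm]
  have hsplit : ∑ b ∈ Ioc 0 B, N' b = ∑ b ∈ Ioc 0 b0, N' b + ∑ b ∈ Ioc b0 B, N' b := by
    rw [← sum_union (by
      rw [Finset.disjoint_left]
      intro b h1 h2
      rw [mem_Ioc] at h1 h2
      omega)]
    congr 1
    ext b
    simp only [mem_union, mem_Ioc]
    omega
  have hsmall : ∑ b ∈ Ioc 0 b0, N' b ≤ b0 * T.card := by
    have h1 : ∀ b ∈ Ioc 0 b0, N' b ≤ T.card := fun b _ => by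
      simp only [hN']
      exact_mod_cast card_filter_le _ _
    refine (sum_le_sum h1).trans ?_
    rw [sum_const, Nat.card_Ioc, nsmul_eq_mul, Nat.sub_zero]
  rw [hswap, hsplit] at hF
  have hN'le : ∀ b, N' b ≤ l.numP b T := fun b => le_rfl
  -- sieve average
  have hR : ∑ b ∈ Icc 1 B, (l.unsieved z b T : ℝ) / Wz z ≤ (B + Pz z) * m := by
    have h1 : ∑ b ∈ Icc 1 B, (l.unsieved z b T : ℝ) / Wz z =
        ∑ t ∈ T, ((((Icc 1 B).filter (fun b : ℕ => ∀ p ≤ z, p.Prime →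
          ¬ ((p : ℤ) ∣ (b : ℤ) * l.G t + l.H t))).card : ℕ) : ℝ) / Wz z := by
      rw [← sum_div, ← sum_div]
      congr 1
      simp only [unsieved, card_filter]
      push_cast
      rw [sum_comm]
    rw [h1, hm, mul_sum]
    apply sum_le_sum
    intro t ht
    exact l.sieve_avg' t B z (hTt0 t ht)
  have hmcard2 : (T.card : ℝ) ≤ m := by
    rw [hm, card_eq_sum_ones]
    push_cast
    apply sum_le_sum
    intro t ht
    exact one_le_GG (l.g_pos (hTt0 t ht))
  have hm0 : 0 < m := lt_of_lt_of_le hc0 hmcard2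
  set S := (Icc 1 B).filter (fun b : ℕ =>
      θ₀ * (l.unsieved z b T / Wz z) / L ≤ l.numP b T ∧
      η₁ * c / Real.log B ≤ l.numP b T) with hSdef
  have hWz := Wz_pos z
  -- the bad b
  have hbad : ∑ b ∈ (Ioc b0 B).filter (fun b => b ∉ S), N' b ≤
      θ₀ * ((B + Pz z) * m) / L + B * (2 * η₁ * c / L) := by
    have h1 : ∀ b ∈ (Ioc b0 B).filter (fun b => b ∉ S), N' b ≤
        θ₀ * ((l.unsieved z b T : ℝ) / Wz z) / L + 2 * η₁ * c / L := by
      intro b hb
      rw [mem_filter, mem_Ioc] at hb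
      have hb1 : b ∈ Icc 1 B := mem_Icc.2 ⟨by omega, hb.1.2⟩
      have h2 : ¬ (θ₀ * (l.unsieved z b T / Wz z) / L ≤ l.numP b T ∧
          η₁ * c / Real.log B ≤ l.numP b T) := by
        intro h
        exact hb.2 (by rw [hSdef, mem_filter]; exact ⟨hb1, h⟩)
      have hR0 : 0 ≤ (l.unsieved z b T : ℝ) / Wz z := by positivity
      have h3 : 0 ≤ θ₀ * ((l.unsieved z b T : ℝ) / Wz z) / L := by positivity
      have h4 : 0 ≤ 2 * η₁ * c / L := by positivity
      refine (hN'le b).trans ?_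
      rw [not_and_or, not_le, not_le] at h2
      rcases h2 with h2 | h2
      · linarith
      · have h5 : η₁ * c / Real.log B ≤ 2 * η₁ * c / L := by
          rw [div_le_div_iff₀ (by linarith) hL0]
          calc η₁ * c * L ≤ η₁ * c * (2 * Real.log B) := by gcongr
            _ = _ := by ring
        linarith
    refine (sum_le_sum h1).trans ?_
    rw [sum_add_distrib]
    have hsub : (Ioc b0 B).filter (fun b => b ∉ S) ⊆ Icc 1 B := by
      intro b hb
      rw [mem_filter, mem_Ioc] at hb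
      exact mem_Icc.2 ⟨by omega, hb.1.2⟩
    apply add_le_add
    · calc _ ≤ ∑ b ∈ Icc 1 B, θ₀ * ((l.unsieved z b T : ℝ) / Wz z) / L := by
            apply sum_le_sum_of_subset_of_nonneg hsub
            intro b _ _; positivity
        _ = θ₀ * (∑ b ∈ Icc 1 B, (l.unsieved z b T : ℝ) / Wz z) / L := by
            rw [← sum_div, ← mul_sum]
        _ ≤ _ := by gcongr
    · rw [sum_const, nsmul_eq_mul]
      have h2 : (((Ioc b0 B).filter (fun b => b ∉ S)).card : ℝ) ≤ B := by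
        have := card_le_card hsub
        rw [Nat.card_Icc, Nat.add_sub_cancel] at this
        exact_mod_cast this
      gcongr
  have hPz : (Pz z : ℝ) ≤ κ / 8 * B := by
    rw [div_le_iff₀ hκ0] at hBP
    linarith
  set Q : ℝ := B * m / L with hQ
  have hQ0 : 0 < Q := by positivity
  have hbad2 : θ₀ * ((B + Pz z) * m) / L + B * (2 * η₁ * c / L) ≤ (θ₀ + 3 * κ / 8) * Q := by
    have h1 : θ₀ * ((B + Pz z) * m) / L ≤ (θ₀ + κ / 8) * Q := by
      have h2 : θ₀ * ((B + Pz z) * m) ≤ (θ₀ + κ / 8) * (B * m) := by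
        have h3 : θ₀ * (B + Pz z) ≤ (θ₀ + κ / 8) * B := by
          have h4 : θ₀ * (Pz z : ℝ) ≤ 1 * (κ / 8 * B) :=
            mul_le_mul hθ1.le hPz (by positivity) (by norm_num)
          linarith
        have := mul_le_mul_of_nonneg_right h3 hm0.le
        linarith
      rw [hQ, div_le_iff₀ hL0]
      have e : (θ₀ + κ / 8) * (B * m / L) * L = (θ₀ + κ / 8) * (B * m) := by field_simp
      rw [e]; exact h2
    have h2 : B * (2 * η₁ * c / L) ≤ κ / 4 * Q := by
      rw [hQ, hη₁]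
      have h3 : B * (2 * (κ / 8) * c / L) = κ / 4 * (B * c / L) := by ring
      rw [h3]
      gcongr
    linarith
  have hlow : (b0 : ℝ) * T.card ≤ (κ / 8) * Q := by
    have h0 : (0:ℝ) ≤ b0 := Nat.cast_nonneg _
    have h1 : (b0 : ℝ) * T.card ≤ b0 * m := mul_le_mul_of_nonneg_left hmcard2 h0
    have h2 : (b0 : ℝ) * L ≤ κ / 8 * B := by
      have h3 : (b0 : ℝ) ≤ 4 * l.S * l.g x := by
        rw [hb0]; push_cast
        have : (l.S : ℝ) * (x:ℝ) ≤ l.S * (2 * l.g x) := mul_le_mul_of_nonneg_left hx2g (by linarith)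
        linarith
      calc (b0 : ℝ) * L ≤ (4 * l.S * l.g x) * (2 * Real.log B) := by
            apply mul_le_mul h3 hL2 hL0.le (by positivity)
        _ = (64 * l.S * ((l.g x : ℝ) * Real.log B)) / 8 := by ring
        _ ≤ _ := by linarith
    refine h1.trans ?_
    rw [hQ]
    have h3 : κ / 8 * (B * m / L) = (κ / 8 * B) * m / L := by ring
    rw [h3, le_div_iff₀ hL0]
    calc (b0 : ℝ) * m * L = (b0 * L) * m := by ring
      _ ≤ _ := mul_le_mul_of_nonneg_right h2 hm0.le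
  have hgood : (κ / 4) * Q ≤ ∑ b ∈ (Ioc b0 B).filter (fun b => b ∈ S), N' b := by
    have h1 := sum_filter_add_sum_filter_not (Ioc b0 B) (fun b => b ∈ S) N'
    have h2 : (1 - κ / 4) * (B / L) * m = (1 - κ / 4) * Q := by
      rw [hQ]; ring
    rw [h2] at hF
    have h3 : θ₀ = 1 - κ := hθ₀
    have h4 : (1 - κ / 4) * Q - (θ₀ + 3 * κ / 8) * Q = (3 * κ / 8) * Q := by rw [h3]; ring
    linarith
  -- Cauchy-Schwarz
  have hCS : (∑ b ∈ (Ioc b0 B).filter (fun b => b ∈ S), N' b) ^ 2 ≤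
      (S.card : ℝ) * (C₂ * Λ ^ 2 * (c ^ 2 * (B / Real.log B ^ 2))) := by
    have h1 := sum_mul_sq_le_sq_mul_sq ((Ioc b0 B).filter (fun b => b ∈ S)) (fun _ => (1 : ℝ)) N'
    simp only [one_mul, one_pow, sum_const, nsmul_eq_mul, mul_one] at h1
    refine h1.trans ?_
    apply mul_le_mul
    · have : ((Ioc b0 B).filter (fun b => b ∈ S)).card ≤ S.card := by
        apply card_le_card
        intro b hb
        exact (mem_filter.1 hb).2
      exact_mod_cast this
    · refine le_trans ?_ hS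
      exact sum_le_sum_of_subset_of_nonneg (filter_subset _ _) fun b _ _ => by positivity
    · exact sum_nonneg fun b _ => by positivity
    · positivity
  have hfin : (κ / 4 * Q) ^ 2 ≤ (S.card : ℝ) * (C₂ * Λ ^ 2 * (c ^ 2 * (B / Real.log B ^ 2))) := by
    refine le_trans ?_ hCS
    exact pow_le_pow_left₀ (by positivity) hgood 2
  have hQlow : B * (c) / (2 * Real.log B) ≤ Q := by
    rw [hQ]
    gcongr
  have hfin2 : (κ / 4 * (B * (c) / (2 * Real.log B))) ^ 2 ≤
      (S.card : ℝ) * (C₂ * Λ ^ 2 * (c ^ 2 * (B / Real.log B ^ 2))) := by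
    refine le_trans ?_ hfin
    have : 0 < Real.log B := by linarith
    gcongr
  have hlB0 : 0 < Real.log B := by linarith
  have e1 : (κ / 4 * (B * (c) / (2 * Real.log B))) ^ 2 =
      (1 / 64 * κ ^ 2 * B) * (c ^ 2 * (B / Real.log B ^ 2)) := by
    field_simp
    ring
  rw [e1] at hfin2
  have hpos : 0 < c ^ 2 * (B / Real.log B ^ 2) := by positivity
  have hfin3 : 1 / 64 * κ ^ 2 * B ≤ S.card * (C₂ * Λ ^ 2) := by
    have h1 : (S.card : ℝ) * (C₂ * Λ ^ 2 * (c ^ 2 * (B / Real.log B ^ 2))) =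
        (S.card * (C₂ * Λ ^ 2)) * (c ^ 2 * (B / Real.log B ^ 2)) := by ring
    rw [h1] at hfin2
    exact le_of_mul_le_mul_right hfin2 hpos
  have hfin4 : κ ^ 2 / (64 * C₂ * Λ ^ 2) * B ≤ S.card := by
    have e2 : κ ^ 2 / (64 * C₂ * Λ ^ 2) * B = (1 / 64 * κ ^ 2 * B) / (C₂ * Λ ^ 2) := by
      field_simp
    rw [e2, div_le_iff₀ (by positivity)]
    exact hfin3
  exact hfin4

end Ln

end Pool.Agent.Helper24K9.EM
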