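import Mathlib
import Pool.Agent.Helper24K9.EM.PL
import Pool.Agent.Helper24K9.EP.Ma

set_option autoImplicit false

/-! First moment along a line of coefficients, with a saving of any power of the logarithm. -/

open Finset Filter Topology

namespace Pool.Agent.Helper24K9.EM

open Pool.Agent.Erdos456 H343E Pool.Agent.W218.HF Pool.Agent.Helper24K9.EL

namespace Ln

variable (l : Ln)

/-- eventual inequalities -/
lemma ev_ineqs2 (A : ℕ) (ε η S : ℝ) (hε : 0 < ε) (hη : 0 < η) (hS : 1 ≤ S) (e : ℝ) (he : e = min (1/20) (ε/24)) (X₁ : ℝ) :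
    ∀ᶠ K : ℝ in atTop, 16 ≤ K ∧ X₁ ≤ K ∧ 1 ≤ η * K ∧ 4 * S * K ^ (1/2 : ℝ) ≤ η * K ∧
      (K ^ ((1/2 - ε) * (1 - (1/3 - 5 * e))) ≤ (K / 2) ^ (1/3 - 5 * e)) ∧
      8 * (Real.log K) ^ (A + 3) ≤ K ^ (1/4 : ℝ) ∧ 10 * S * (Real.log K) ^ A * K ^ (1/2 : ℝ) ≤ K ∧ 1 ≤ Real.log K := by
  have hε24 : e ≤ ε / 24 := by rw [he]; exact min_le_right _ _
  have he20 : e ≤ 1 / 20 := by rw [he]; exact min_le_left _ _
  have he0 : 0 < e := by rw [he]; positivity
  have hω : 0 < (1/3 - 5 * e) - (1/2 - ε) * (1 - (1/3 - 5 * e)) := by nlinarith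
  set s : ℝ := 1/3 - 5 * e with hs
  have hs0 : 0 < s := by rw [hs]; linarith
  set ω : ℝ := s - (1/2 - ε) * (1 - s) with hωd
  have hlog : Tendsto Real.log atTop atTop := Real.tendsto_log_atTop
  have t1 : Tendsto (fun K : ℝ => K ^ (1/2 : ℝ)) atTop atTop := tendsto_rpow_atTop (by norm_num)
  have t2 : Tendsto (fun K : ℝ => K ^ ω) atTop atTop := tendsto_rpow_atTop hω
  have oo : ∀ (n : ℕ) (u c : ℝ), 0 < u → 0 < c → ∀ᶠ K : ℝ in atTop, (Real.log K) ^ n ≤ c * K ^ u := by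
    intro n u c hu hc
    have h := (Real.isLittleO_pow_log_id_atTop (n := n)).comp_tendsto (tendsto_rpow_atTop hu)
    have h2 := h.bound (show (0:ℝ) < c * u ^ n by positivity)
    filter_upwards [h2, eventually_ge_atTop (1:ℝ)] with K hK hK1
    have h0 : 0 ≤ Real.log K := Real.log_nonneg hK1
    have hK0 : 0 < K := by linarith
    simp only [Function.comp_apply, id_eq] at hK
    rw [Real.log_rpow hK0, Real.norm_of_nonneg (by positivity), Real.norm_of_nonneg (by positivity), mul_pow] at hK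
    have h3 : u ^ n * Real.log K ^ n ≤ u ^ n * (c * K ^ u) := by linarith
    exact le_of_mul_le_mul_left h3 (by positivity)
  have o1 := oo (A + 3) (1/4) (1/8) (by norm_num) (by norm_num)
  have o2 := oo A (1/2) (1/(10 * S)) (by norm_num) (by positivity)
  filter_upwards [eventually_ge_atTop (16:ℝ), eventually_ge_atTop X₁, eventually_ge_atTop (1/η),
    t1.eventually_ge_atTop (4 * S / η), t2.eventually_ge_atTop (2 ^ s), o1, o2, hlog.eventually_ge_atTop 1]
    with K h1 h2 h3 h4 h5 h6 h7 h8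
  have hK0 : 0 < K := by linarith
  have hsq : K ^ (1/2 : ℝ) * K ^ (1/2 : ℝ) = K := by
    rw [← Real.rpow_add hK0]; norm_num
  have hsq0 : 0 < K ^ (1/2 : ℝ) := by positivity
  refine ⟨h1, h2, ?_, ?_, ?_, ?_, ?_, h8⟩
  · rw [div_le_iff₀ hη] at h3; linarith
  · rw [div_le_iff₀ hη] at h4
    calc 4 * S * K ^ (1/2 : ℝ) ≤ (K ^ (1/2 : ℝ) * η) * K ^ (1/2 : ℝ) := by gcongr
      _ = η * (K ^ (1/2 : ℝ) * K ^ (1/2 : ℝ)) := by ring
      _ = _ := by rw [hsq]
  · rw [Real.div_rpow hK0.le (by norm_num), le_div_iff₀ (by positivity)]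
    have e1 : (1/2 - ε) * (1 - s) = s - ω := by rw [hωd]; ring
    rw [e1, Real.rpow_sub hK0, div_mul_eq_mul_div, div_le_iff₀ (by positivity)]
    gcongr
  · linarith
  · have h9 : 10 * S * (Real.log K) ^ A ≤ K ^ (1/2 : ℝ) := by
      calc 10 * S * (Real.log K) ^ A ≤ 10 * S * ((1/(10 * S)) * K ^ (1/2 : ℝ)) := by gcongr
        _ = _ := by field_simp
    calc 10 * S * (Real.log K) ^ A * K ^ (1/2 : ℝ) ≤ K ^ (1/2 : ℝ) * K ^ (1/2 : ℝ) := by gcongr
      _ = K := hsq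

/-- one block -/
theorem block2 (A : ℕ) (ε : ℝ) (hε : 0 < ε) : ∃ C₀ : ℝ, 0 < C₀ ∧ ∀ η : ℝ, 0 < η → η ≤ 1 / 20 → ∃ K₁ n₁ : ℕ,
    l.t0 ≤ n₁ ∧ ∀ K : ℕ, K₁ ≤ K → ∀ (n' n : ℕ) (T : Finset ℕ), n₁ ≤ n' → n' ≤ n →
    (1 - η) * n - 1 ≤ n' → (l.g n : ℝ) ≤ (K:ℝ) ^ (1 / 2 - ε) → T ⊆ Ioc n' n →
    (∀ t ∈ T, IsCoprime (l.G t) (l.H t)) →
    (1 - 9 * η) * (K / Real.log (K * l.g n)) * (∑ t ∈ T, GG (l.g t)) - C₀ * (n * (K / Real.log K ^ A)) ≤
      ∑ t ∈ T, l.ck K t := by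
  classical
  set e : ℝ := min (1/20) (ε/24) with he
  have hε24 : e ≤ ε / 24 := by rw [he]; exact min_le_right _ _
  have he20 : e ≤ 1 / 20 := by rw [he]; exact min_le_left _ _
  have he0 : 0 < e := by rw [he]; positivity
  obtain ⟨C, hC, hW⟩ := l.weight e he0
  refine ⟨3 * C + 2, by positivity, fun η hη hη2 => ?_⟩
  obtain ⟨X₁, hPR⟩ := primes_low e he0 he20 (A + 1) η hη (by linarith)
  obtain ⟨n₀, hn₀⟩ := l.ratio η hη (by linarith)
  have hS1 : (1:ℝ) ≤ l.S := by exact_mod_cast l.S_pos'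
  obtain ⟨k₁, hk₁⟩ := eventually_atTop.1 (ev_ineqs2 A ε η l.S hε hη hS1 e he X₁)
  refine ⟨⌈k₁⌉₊, max n₀ (max l.t0 8), (le_max_left _ _).trans (le_max_right _ _), ?_⟩
  intro K hK n' n T hn' hnn hlow hgn hT hcop
  have hn0 : n₀ ≤ n := (le_max_left _ _).trans (hn'.trans hnn)
  have ht0 : l.t0 ≤ n' := ((le_max_left _ _).trans (le_max_right _ _)).trans hn'
  have hn8 : 8 ≤ n' := ((le_max_right _ _).trans (le_max_right _ _)).trans hn'
  have ht0n : l.t0 ≤ n := ht0.trans hnn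
  have hKr : k₁ ≤ (K:ℝ) := (Nat.le_ceil _).trans (by exact_mod_cast hK)
  obtain ⟨hK16, hKX, hηK, hSK, hlev, hl5, hl2, hl1⟩ := hk₁ K hKr
  have hK0 : (0:ℝ) < K := by linarith
  have hK1 : (1:ℝ) ≤ K := by linarith
  have hlK0 : 0 < Real.log K := by linarith
  -- sizes of g
  have hgn'pos : 1 ≤ l.g n' := l.g_pos ht0
  have hgnpos : 1 ≤ l.g n := l.g_pos ht0n
  have hgG : ∀ m, l.t0 ≤ m → ((l.g m : ℕ) : ℝ) = (l.G m : ℝ) := fun m hm => by
    have := l.g_cast hm
    exact_mod_cast congrArg (fun z : ℤ => (z : ℝ)) this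
  have hgn'4 : (4:ℝ) ≤ l.g n' := by
    have h1 := l.two_G_ge ht0
    rw [← l.g_cast ht0] at h1
    have h2 : (n' : ℝ) ≤ 2 * l.g n' := by exact_mod_cast h1
    have h3 : (8:ℝ) ≤ n' := by exact_mod_cast hn8
    linarith
  have hgn_le_half : (l.g n : ℝ) ≤ (K:ℝ) ^ (1/2 : ℝ) := by
    refine hgn.trans ?_
    exact Real.rpow_le_rpow_of_exponent_le hK1 (by linarith)
  have hn2g : (n : ℝ) ≤ 2 * l.g n := by
    have h1 := l.two_G_ge ht0n
    rw [← l.g_cast ht0n] at h1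
    exact_mod_cast h1
  have hgnK : (l.g n : ℝ) ≤ K := by
    refine hgn_le_half.trans ?_
    calc (K:ℝ) ^ (1/2 : ℝ) ≤ (K:ℝ) ^ (1:ℝ) := Real.rpow_le_rpow_of_exponent_le hK1 (by norm_num)
      _ = K := Real.rpow_one _
  have hgn0 : (0:ℝ) < l.g n := by exact_mod_cast hgnpos
  have hgn1 : (1:ℝ) ≤ l.g n := by exact_mod_cast hgnpos
  have hgn'0 : (0:ℝ) < l.g n' := by linarith
  have hratio : (1 - 4 * η) * (l.g n : ℝ) ≤ l.g n' := by
    rw [hgG n ht0n, hgG n' ht0]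
    exact hn₀ n hn0 n' hlow hnn
  have hg'g : (l.g n' : ℝ) ≤ l.g n := by exact_mod_cast l.g_le ht0 hnn
  -- X₂
  set X : ℕ := ⌊(1 - η) * K * l.g n'⌋₊ with hX
  have hη1 : 0 < 1 - η := by linarith
  have hXle : (X : ℝ) ≤ (1 - η) * K * l.g n' := Nat.floor_le (by positivity)
  have hXge : (1 - 2 * η) * (K * l.g n') ≤ X := by
    have h1 := Nat.lt_floor_add_one ((1 - η) * K * l.g n')
    rw [← hX] at h1
    have h2 : 1 ≤ η * (K * l.g n') := by
      calc (1:ℝ) ≤ η * K := hηK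
        _ = η * K * 1 := by ring
        _ ≤ η * K * l.g n' := by
            apply mul_le_mul_of_nonneg_left _ (by positivity)
            linarith
        _ = _ := by ring
    linarith
  have hXK : (K:ℝ) ≤ X := by
    refine le_trans ?_ hXge
    have : (1:ℝ) ≤ (1 - 2 * η) * l.g n' := by nlinarith
    calc (K:ℝ) = 1 * K := by ring
      _ ≤ ((1 - 2 * η) * l.g n') * K := mul_le_mul_of_nonneg_right this hK0.le
      _ = _ := by ring
  have hX0 : (0:ℝ) < X := by linarith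
  have hX1 : X₁ ≤ X := by
    have : (X₁ : ℝ) ≤ X := hKX.trans hXK
    exact_mod_cast this
  have hXKg : (X:ℝ) ≤ K * l.g n' := by
    refine hXle.trans ?_
    have : 0 ≤ η * (K * l.g n') := by positivity
    linarith
  have hXup : (X:ℝ) ≤ K * l.g n := hXKg.trans (mul_le_mul_of_nonneg_left hg'g hK0.le)
  have hlX : Real.log K ≤ Real.log X := Real.log_le_log hK0 hXK
  have hlX0 : 0 < Real.log X := by linarith
  set L : ℝ := Real.log (K * l.g n) with hL
  have hlXL : Real.log X ≤ L := Real.log_le_log hX0 hXup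
  have hL2 : L ≤ 2 * Real.log K := by
    rw [hL, Real.log_mul hK0.ne' hgn0.ne']
    have := Real.log_le_log hgn0 hgnK
    linarith
  have hL0 : 0 < L := by linarith
  -- level
  have hmax : (l.g n : ℝ) ≤ (X:ℝ) ^ (1/3 - 5 * e) := by
    set s : ℝ := 1/3 - 5 * e with hs
    have hs0 : 0 < s := by rw [hs]; linarith
    have hs1 : 0 ≤ 1 - s := by rw [hs]; linarith
    have h1 : (K:ℝ) / 2 * l.g n ≤ X := by
      refine le_trans ?_ hXge
      have h2 : (1/2 : ℝ) ≤ (1 - 2 * η) * (1 - 4 * η) := by nlinarith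
      calc (K:ℝ) / 2 * l.g n = (1/2) * (K * l.g n) := by ring
        _ ≤ ((1 - 2 * η) * (1 - 4 * η)) * (K * l.g n) := by gcongr
        _ = (1 - 2 * η) * (K * ((1 - 4 * η) * l.g n)) := by ring
        _ ≤ (1 - 2 * η) * (K * l.g n') := by
            apply mul_le_mul_of_nonneg_left _ (by linarith)
            exact mul_le_mul_of_nonneg_left hratio hK0.le
    calc (l.g n : ℝ) = (l.g n : ℝ) ^ s * (l.g n : ℝ) ^ (1 - s) := by
          rw [← Real.rpow_add hgn0]; simp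
      _ ≤ (l.g n : ℝ) ^ s * ((K:ℝ) ^ (1/2 - ε)) ^ (1 - s) := by
          gcongr
      _ = (l.g n : ℝ) ^ s * (K:ℝ) ^ ((1/2 - ε) * (1 - s)) := by rw [← Real.rpow_mul hK0.le]
      _ ≤ (l.g n : ℝ) ^ s * ((K:ℝ)/2) ^ s := by
          apply mul_le_mul_of_nonneg_left hlev (by positivity)
      _ = ((K:ℝ) / 2 * l.g n) ^ s := by
          rw [mul_comm, Real.mul_rpow (by positivity) hgn0.le]
      _ ≤ (X:ℝ) ^ s := Real.rpow_le_rpow (by positivity) h1 hs0.le
  have hTt0 : ∀ t ∈ T, l.t0 ≤ t := fun t ht => by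
    have := (mem_Ioc.1 (hT ht)).1; omega
  have hlog0 : 0 ≤ Real.log (l.g n) := Real.log_nonneg hgn1
  set W0 : ℝ := C * n * ((1 + 2 * Real.log (l.g n)) / l.g n') with hW0
  have hW00 : 0 ≤ W0 := by rw [hW0]; positivity
  have hmain := hPR X hX1 T (fun t => l.g t) (fun t => (l.H t % l.G t).toNat) W0 hW00 (by
    intro t ht
    have h1 := mem_Ioc.1 (hT ht)
    refine ⟨l.g_pos (hTt0 t ht), ?_, l.res_coprime (hTt0 t ht) (hcop t ht)⟩
    refine le_trans ?_ hmax
    exact_mod_cast l.g_le (hTt0 t ht) h1.2) (fun f hf hex => hW n' n ht0 hnn T hT f hf hex)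
  -- count
  have hcnt : ∑ t ∈ T, piAP X (l.g t) (l.H t % l.G t).toNat ≤ ∑ t ∈ T, l.ck K t + T.card * (5 * l.S * n) := by
    have h1 : ∀ t ∈ T, piAP X (l.g t) (l.H t % l.G t).toNat ≤ l.ck K t + 5 * l.S * n := by
      intro t ht
      have h2 := mem_Ioc.1 (hT ht)
      have htr : (t:ℝ) ≤ n := by exact_mod_cast h2.2
      have h3 : (X : ℤ) ≤ (K : ℤ) * l.G t + l.H t := by
        have h4 := l.abs_H_le_G (hTt0 t ht)
        have h5 := neg_abs_le (l.H t)
        have h6 := l.G_pos (hTt0 t ht)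
        have h7 : l.G n' ≤ l.G t := l.G_le ht0 h2.1.le
        have h4r : |(l.H t : ℝ)| ≤ 2 * l.S * t * l.G t := by exact_mod_cast h4
        have h5r := neg_abs_le (l.H t : ℝ)
        have h6r : (1:ℝ) ≤ l.G t := by exact_mod_cast h6
        have h7r : (l.G n' : ℝ) ≤ l.G t := by exact_mod_cast h7
        have h8 : 2 * (l.S:ℝ) * t ≤ η * K := by
          calc 2 * (l.S:ℝ) * t ≤ 2 * l.S * n := by gcongr
            _ ≤ 2 * l.S * (2 * l.g n) := by gcongr
            _ ≤ 2 * l.S * (2 * (K:ℝ) ^ (1/2 : ℝ)) := by gcongr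
            _ = 4 * l.S * (K:ℝ) ^ (1/2 : ℝ) := by ring
            _ ≤ _ := hSK
        have h9 : (X : ℝ) ≤ (K : ℝ) * l.G t + l.H t := by
          calc (X : ℝ) ≤ (1 - η) * K * l.g n' := hXle
            _ = (1 - η) * K * l.G n' := by rw [hgG n' ht0]
            _ ≤ (1 - η) * K * l.G t := by gcongr
            _ = K * l.G t - (η * K) * l.G t := by ring
            _ ≤ K * l.G t - (2 * l.S * t) * l.G t := by
                have := mul_le_mul_of_nonneg_right h8 (by linarith : (0:ℝ) ≤ l.G t)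
                linarith
            _ ≤ _ := by linarith
        exact_mod_cast h9
      have h10 := l.piAP_le_ck (hTt0 t ht) h3
      have h11 : 5 * (l.S:ℝ) * t ≤ 5 * l.S * n := by gcongr
      linarith
    refine (sum_le_sum h1).trans (le_of_eq ?_)
    rw [sum_add_distrib, sum_const, nsmul_eq_mul]
  have hTcard : (T.card : ℝ) ≤ n := by
    have h1 := card_le_card hT
    rw [Nat.card_Ioc] at h1
    have : T.card ≤ n := by omega
    exact_mod_cast this
  have hn0' : (0:ℝ) ≤ n := Nat.cast_nonneg n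
  -- main term
  have hMT : (1 - 9 * η) * (K / L) * (∑ t ∈ T, GG (l.g t)) ≤
      (1 - 3 * η) * (X / Real.log X) * (∑ t ∈ T, 1 / (Nat.totient (l.g t) : ℝ)) := by
    have h1 : (∑ t ∈ T, GG (l.g t)) / l.g n ≤ ∑ t ∈ T, 1 / (Nat.totient (l.g t) : ℝ) := by
      rw [sum_div]
      apply sum_le_sum
      intro t ht
      have h2 := mem_Ioc.1 (hT ht)
      have h3 : (0:ℝ) < l.g t := by exact_mod_cast l.g_pos (hTt0 t ht)
      have h4 : (l.g t : ℝ) ≤ l.g n := by exact_mod_cast l.g_le (hTt0 t ht) h2.2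
      have h5 : (0:ℝ) < Nat.totient (l.g t) := by
        exact_mod_cast Nat.totient_pos.2 (l.g_pos (hTt0 t ht))
      unfold GG
      rw [div_div, div_le_div_iff₀ (by positivity) h5, one_mul]
      rw [mul_comm (Nat.totient (l.g t) : ℝ)]
      gcongr
    have hsg0 : 0 ≤ ∑ t ∈ T, GG (l.g t) := sum_nonneg fun t _ => GG_nonneg _
    have h2 : (1 - 2 * η) * (K * l.g n') / L ≤ X / Real.log X := by
      apply div_le_div₀ hX0.le hXge hlX0 hlXL
    calc (1 - 9 * η) * (K / L) * (∑ t ∈ T, GG (l.g t))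
        ≤ ((1 - 3 * η) * (1 - 2 * η) * (1 - 4 * η)) * (K / L) * (∑ t ∈ T, GG (l.g t)) := by
          apply mul_le_mul_of_nonneg_right _ hsg0
          apply mul_le_mul_of_nonneg_right _ (by positivity)
          nlinarith [mul_nonneg hη.le hη.le, mul_nonneg (mul_nonneg hη.le hη.le) (show (0:ℝ) ≤ 1 / 20 - η by linarith)]
      _ = (1 - 3 * η) * ((1 - 2 * η) * (K * ((1 - 4 * η) * l.g n)) / L) * ((∑ t ∈ T, GG (l.g t)) / l.g n) := by
          field_simp
      _ ≤ (1 - 3 * η) * ((1 - 2 * η) * (K * l.g n') / L) * ((∑ t ∈ T, GG (l.g t)) / l.g n) := by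
          apply mul_le_mul_of_nonneg_right _ (by positivity)
          apply mul_le_mul_of_nonneg_left _ (by linarith)
          apply div_le_div_of_nonneg_right _ hL0.le
          apply mul_le_mul_of_nonneg_left _ (by linarith)
          exact mul_le_mul_of_nonneg_left hratio hK0.le
      _ ≤ (1 - 3 * η) * (X / Real.log X) * (∑ t ∈ T, 1 / (Nat.totient (l.g t) : ℝ)) := by
          apply mul_le_mul _ h1 (by positivity) (by
            apply mul_nonneg (by linarith) (by positivity))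
          exact mul_le_mul_of_nonneg_left h2 (by linarith)
  -- errors
  have hE1 : W0 * (X / (Real.log X) ^ (A + 1)) ≤ 3 * C * (n * (K / Real.log K ^ A)) := by
    have h1 : (X:ℝ) / (Real.log X) ^ (A + 1) ≤ K * l.g n' / (Real.log K) ^ (A + 1) := by
      gcongr
    have h2 : 1 + 2 * Real.log (l.g n) ≤ 3 * Real.log K := by
      have := Real.log_le_log hgn0 hgnK
      linarith
    calc W0 * (X / (Real.log X) ^ (A + 1)) ≤ W0 * (K * l.g n' / (Real.log K) ^ (A + 1)) := by gcongr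
      _ = C * n * (1 + 2 * Real.log (l.g n)) * (K / (Real.log K) ^ (A + 1)) := by
          rw [hW0]; field_simp
      _ ≤ C * n * (3 * Real.log K) * (K / (Real.log K) ^ (A + 1)) := by gcongr
      _ = _ := by rw [pow_succ]; field_simp
  have hE2 : T.card * (√(X : ℝ) * Real.log X ^ 3) ≤ n * (K / Real.log K ^ A) := by
    have h1 : √(X : ℝ) ≤ (K:ℝ) ^ (3/4 : ℝ) := by
      rw [Real.sqrt_eq_rpow]
      calc (X:ℝ) ^ (1/2 : ℝ) ≤ ((K:ℝ) * (K:ℝ) ^ (1/2 : ℝ)) ^ (1/2 : ℝ) := by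
            apply Real.rpow_le_rpow hX0.le _ (by norm_num)
            exact hXup.trans (mul_le_mul_of_nonneg_left hgn_le_half hK0.le)
        _ = (K:ℝ) ^ (3/4 : ℝ) := by
            rw [← Real.rpow_one_add' hK0.le (by norm_num), ← Real.rpow_mul hK0.le]
            norm_num
    have h2 : Real.log X ≤ 2 * Real.log K := hlXL.trans hL2
    have h3 : (K:ℝ) ^ (3/4 : ℝ) * (2 * Real.log K) ^ 3 ≤ K / Real.log K ^ A := by
      rw [le_div_iff₀ (by positivity)]
      calc (K:ℝ) ^ (3/4 : ℝ) * (2 * Real.log K) ^ 3 * Real.log K ^ A = (K:ℝ) ^ (3/4 : ℝ) * (8 * Real.log K ^ (A + 3)) := by ring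
        _ ≤ (K:ℝ) ^ (3/4 : ℝ) * (K:ℝ) ^ (1/4 : ℝ) := by gcongr
        _ = K := by rw [← Real.rpow_add hK0]; norm_num
    calc T.card * (√(X : ℝ) * Real.log X ^ 3) ≤ n * ((K:ℝ) ^ (3/4 : ℝ) * (2 * Real.log K) ^ 3) := by
          gcongr
      _ ≤ _ := by gcongr
  have hE3 : T.card * (5 * l.S * (n:ℝ)) ≤ n * (K / Real.log K ^ A) := by
    have h1 : 5 * l.S * (n:ℝ) ≤ K / Real.log K ^ A := by
      rw [le_div_iff₀ (by positivity)]
      calc 5 * l.S * (n:ℝ) * Real.log K ^ A ≤ 5 * l.S * (2 * (K:ℝ) ^ (1/2 : ℝ)) * Real.log K ^ A := by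
            gcongr
            exact hn2g.trans (by gcongr)
        _ = 10 * l.S * Real.log K ^ A * (K:ℝ) ^ (1/2 : ℝ) := by ring
        _ ≤ K := hl2
    have h2 : (0:ℝ) ≤ 5 * l.S * (n:ℝ) := by positivity
    exact mul_le_mul hTcard h1 h2 hn0'
  have e1 : (3 * C + 2) * (n * (K / Real.log K ^ A)) =
      3 * C * (n * (K / Real.log K ^ A)) + n * (K / Real.log K ^ A) + n * (K / Real.log K ^ A) := by ring
  rw [e1]
  linarith

end Ln

end Pool.Agent.Helper24K9.EM
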