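import Mathlib
import Pool.Agent.Helper24K9.EL.Tc
import Pool.Agent.W468.CFProd
import Pool.Agent.Helper24K9.EL.Mo

set_option autoImplicit false

/-! The constant of the prime values of a quadratic polynomial at primes. -/

namespace Pool.Agent.Helper24K9.EP
open Finset Filter Topology
open Pool.Agent.W468.ConjF
open Pool.Agent.Helper24K9.EL

/-- the number of the non-zero roots of `a t² + b t + c` modulo `p` -/
noncomputable def nu (a b c : ℤ) (p : ℕ) : ℕ :=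
  #((Ico 1 p).filter (fun r : ℕ => (p : ℤ) ∣ a * (r : ℤ) ^ 2 + b * r + c))

/-- the Euler factor -/
noncomputable def fac (a b c : ℤ) (p : ℕ) : ℝ := (1 - (nu a b c p : ℝ) / (p - 1)) / (1 - 1 / (p : ℝ))

/-- the Euler product -/
noncomputable def PC (a b c : ℤ) (z : ℕ) : ℝ := ∏ p ∈ (Icc 1 z).filter Nat.Prime, fac a b c p

lemma nu_eq (a b c : ℤ) (p : ℕ) (hp : p.Prime) (hc : ¬ (p : ℤ) ∣ c) : nu a b c p = nr a b c p := by
  unfold nu nr
  congr 1
  ext r
  simp only [mem_filter, mem_Ico, mem_range]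
  constructor
  · rintro ⟨⟨h1, h2⟩, h3⟩; exact ⟨h2, h3⟩
  · rintro ⟨h1, h2⟩
    refine ⟨⟨?_, h1⟩, h2⟩
    by_contra h3
    have h4 : r = 0 := by omega
    rw [h4] at h2
    apply hc
    simpa using h2

lemma nu_le_two (a b c : ℤ) (p : ℕ) (hp : p.Prime) (h : ¬ ((p : ℤ) ∣ a ∧ (p : ℤ) ∣ b ∧ (p : ℤ) ∣ c)) :
    nu a b c p ≤ 2 := by
  refine le_trans (card_le_card ?_) (two_roots hp a b c h)
  intro r hr
  rw [mem_filter, mem_Ico] at hr
  rw [mem_filter, mem_range]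
  exact ⟨hr.1.2, hr.2⟩

lemma fac_pos5 (a b c : ℤ) (p : ℕ) (hp : p.Prime) (hp5 : 5 ≤ p) (h : ¬ ((p : ℤ) ∣ a ∧ (p : ℤ) ∣ b ∧ (p : ℤ) ∣ c)) :
    0 < fac a b c p := by
  have h1 := nu_le_two a b c p hp h
  have h2 : (nu a b c p : ℝ) ≤ 2 := by exact_mod_cast h1
  have h5 : (5:ℝ) ≤ p := by exact_mod_cast hp5
  unfold fac
  apply div_pos
  · have : (nu a b c p : ℝ) / (p - 1) ≤ 1 / 2 := by
      rw [div_le_div_iff₀ (by linarith) (by norm_num)]
      linarith
    linarith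
  · have : 1 / (p : ℝ) ≤ 1 / 5 := one_div_le_one_div_of_le (by norm_num) h5
    linarith

lemma log_one_sub (u : ℝ) (hu : 0 ≤ u) (hu2 : u ≤ 1 / 2) : |Real.log (1 - u) + u| ≤ 2 * u ^ 2 := by
  have h3 := Real.abs_log_sub_add_sum_range_le (show |u| < 1 by rw [abs_of_nonneg hu]; linarith) 1
  simp only [range_one, sum_singleton, zero_add, pow_one, Nat.cast_zero, div_one] at h3
  rw [abs_of_nonneg hu] at h3
  rw [add_comm]
  refine h3.trans ?_
  rw [div_le_iff₀ (by linarith)]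
  have h4 := mul_nonneg (sq_nonneg u) (show 0 ≤ 1 - 2 * u by linarith)
  have e : u ^ (1 + 1) = u ^ 2 := by norm_num
  rw [e]
  nlinarith

lemma log_fac (a b c : ℤ) (p : ℕ) (hp : p.Prime) (hp5 : 5 ≤ p) (h : ¬ ((p : ℤ) ∣ a ∧ (p : ℤ) ∣ b ∧ (p : ℤ) ∣ c)) :
    |Real.log (fac a b c p) + (jacobiSym (b ^ 2 - 4 * a * c) p : ℝ) / p| ≤
      40 * (1 / (p : ℝ) ^ 2) + (if (p : ℤ) ∣ a then 2 * (1 / (p : ℝ)) else 0) + (if (p : ℤ) ∣ c then 2 * (1 / (p : ℝ)) else 0) := by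
  set n : ℝ := (nu a b c p : ℝ) with hn
  have hn0 : 0 ≤ n := Nat.cast_nonneg _
  have hn2 : n ≤ 2 := by
    rw [hn]
    exact_mod_cast nu_le_two a b c p hp h
  have h5 : (5:ℝ) ≤ p := by exact_mod_cast hp5
  have hp0 : (0:ℝ) < p := by linarith
  set j : ℝ := (jacobiSym (b ^ 2 - 4 * a * c) p : ℝ) with hj
  have hj1 : |j| ≤ 1 := js_abs _ p
  set u : ℝ := n / (p - 1) with hu
  have hu0 : 0 ≤ u := div_nonneg hn0 (by linarith)
  have hu2 : u ≤ 1 / 2 := by
    rw [hu, div_le_div_iff₀ (by linarith) (by norm_num)]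
    linarith
  have hv2 : 1 / (p:ℝ) ≤ 1 / 2 := one_div_le_one_div_of_le (by norm_num) (by linarith)
  have e1 := log_one_sub u hu0 hu2
  have e2 := log_one_sub (1 / (p:ℝ)) (by positivity) hv2
  have hu3 : u ≤ 5 / 2 * (1 / p) := by
    rw [hu, div_le_iff₀ (by linarith)]
    have : 5 / 2 * (1 / (p:ℝ)) * (p - 1) = 5 / 2 * (1 - 1 / p) := by field_simp
    rw [this]
    have h6 : 1 / (p:ℝ) ≤ 1 / 5 := one_div_le_one_div_of_le (by norm_num) h5
    linarith
  have hu4 : 2 * u ^ 2 ≤ 25 / 2 * (1 / (p:ℝ) ^ 2) := by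
    calc 2 * u ^ 2 ≤ 2 * (5 / 2 * (1 / (p:ℝ))) ^ 2 := by gcongr
      _ = _ := by ring
  have hu5 : |u - n / p| ≤ 5 / 2 * (1 / (p:ℝ) ^ 2) := by
    have e : u - n / p = u * (1 / p) := by
      rw [hu]
      have : (p:ℝ) - 1 ≠ 0 := by linarith
      field_simp
      ring
    rw [e, abs_of_nonneg (by positivity)]
    calc u * (1 / (p:ℝ)) ≤ (5 / 2 * (1 / (p:ℝ))) * (1 / p) := by gcongr
      _ = _ := by ring
  have hlog : Real.log (fac a b c p) = Real.log (1 - u) - Real.log (1 - 1 / (p:ℝ)) := by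
    unfold fac
    rw [Real.log_div]
    · linarith
    · linarith
  have hmain : |Real.log (fac a b c p) - (1 - n) / p| ≤ 40 * (1 / (p : ℝ) ^ 2) := by
    rw [hlog]
    have e : Real.log (1 - u) - Real.log (1 - 1 / (p:ℝ)) - (1 - n) / p =
        (Real.log (1 - u) + u) - (Real.log (1 - 1 / (p:ℝ)) + 1 / p) - (u - n / p) := by ring
    rw [e]
    have h6 : 2 * (1 / (p:ℝ)) ^ 2 = 2 * (1 / (p:ℝ) ^ 2) := by ring
    rw [h6] at e2
    have hp2 : 0 ≤ 1 / (p:ℝ) ^ 2 := by positivity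
    have a1 := abs_le.1 e1
    have a2 := abs_le.1 e2
    have a3 := abs_le.1 hu5
    rw [abs_le]
    constructor <;> linarith
  have hsplit : Real.log (fac a b c p) + j / p = (Real.log (fac a b c p) - (1 - n) / p) + (1 - n + j) / p := by ring
  rw [hsplit]
  refine (abs_add_le _ _).trans ?_
  rw [add_assoc]
  apply add_le_add hmain
  have h1p : 0 ≤ 2 * (1 / (p:ℝ)) := by positivity
  have hbig : |(1 - n + j) / p| ≤ 2 * (1 / (p:ℝ)) := by
    rw [abs_div, abs_of_pos hp0, mul_one_div]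
    apply div_le_div_of_nonneg_right _ hp0.le
    have := abs_le.1 hj1
    rw [abs_le]
    constructor <;> linarith
  by_cases ha : (p : ℤ) ∣ a
  · rw [if_pos ha]
    split_ifs <;> linarith
  · by_cases hc : (p : ℤ) ∣ c
    · rw [if_pos hc]
      split_ifs
      linarith
    · rw [if_neg ha, if_neg hc]
      have h1 := nr_odd a b c p hp (by omega) ha
      have h2 : n = j + 1 := by
        rw [hn, nu_eq a b c p hp hc, hj]
        exact_mod_cast h1
      rw [h2]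
      simp

lemma filter_Ioc_union (z N : ℕ) (hzN : z ≤ N) : (Icc 1 N).filter Nat.Prime =
    (Icc 1 z).filter Nat.Prime ∪ (Ioc z N).filter Nat.Prime := by
  ext p
  simp only [mem_filter, mem_union, mem_Icc, mem_Ioc]
  constructor
  · rintro ⟨⟨h1, h2⟩, h3⟩
    by_cases h4 : p ≤ z
    · exact Or.inl ⟨⟨h1, h4⟩, h3⟩
    · exact Or.inr ⟨⟨by omega, h2⟩, h3⟩
  · rintro (⟨⟨h1, h2⟩, h3⟩ | ⟨⟨h1, h2⟩, h3⟩)
    · exact ⟨⟨h1, by omega⟩, h3⟩
    · exact ⟨⟨by omega, h2⟩, h3⟩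

lemma log_PC (a b c : ℤ) (z N : ℕ) (hz : 4 ≤ z) (hzN : z ≤ N)
    (hg : ∀ p : ℕ, p.Prime → ¬ ((p : ℤ) ∣ a ∧ (p : ℤ) ∣ b ∧ (p : ℤ) ∣ c)) (h0 : 0 < PC a b c z) :
    0 < PC a b c N ∧ Real.log (PC a b c N) = Real.log (PC a b c z) +
      ∑ p ∈ (Ioc z N).filter Nat.Prime, Real.log (fac a b c p) := by
  have hpos : ∀ p ∈ (Ioc z N).filter Nat.Prime, 0 < fac a b c p := by
    intro p hp
    rw [mem_filter, mem_Ioc] at hp
    exact fac_pos5 a b c p hp.2 (by omega) (hg p hp.2)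
  have h1 : PC a b c N = PC a b c z * ∏ p ∈ (Ioc z N).filter Nat.Prime, fac a b c p := by
    unfold PC
    rw [filter_Ioc_union z N hzN, prod_union]
    rw [Finset.disjoint_left]
    intro p h1 h2
    simp only [mem_filter, mem_Icc, mem_Ioc] at h1 h2
    omega
  have h2 : 0 < ∏ p ∈ (Ioc z N).filter Nat.Prime, fac a b c p := prod_pos hpos
  rw [h1]
  refine ⟨mul_pos h0 h2, ?_⟩
  rw [Real.log_mul h0.ne' h2.ne', Real.log_prod]
  intro p hp
  exact (hpos p hp).ne'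

/-- comparison of the cut products -/
theorem PC_cmp (a b c : ℤ) (z N : ℕ) (hz : 4 ≤ z) (hzN : z ≤ N)
    (hg : ∀ p : ℕ, p.Prime → ¬ ((p : ℤ) ∣ a ∧ (p : ℤ) ∣ b ∧ (p : ℤ) ∣ c)) (h0 : 0 < PC a b c z) :
    |Real.log (PC a b c N) - Real.log (PC a b c z)| ≤
      |SJ (b ^ 2 - 4 * a * c) z N| + 40 / z + 2 * DS a z N + 2 * DS c z N := by
  classical
  rw [(log_PC a b c z N hz hzN hg h0).2, add_sub_cancel_left]
  have hz0 : (0:ℝ) < z := by exact_mod_cast (by omega : 0 < z)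
  have hpt : ∀ p ∈ (Ioc z N).filter Nat.Prime,
      |Real.log (fac a b c p) + (jacobiSym (b ^ 2 - 4 * a * c) p : ℝ) / p| ≤
      40 * (1 / (p : ℝ) ^ 2) + (if (p : ℤ) ∣ a then 2 * (1 / (p : ℝ)) else 0) + (if (p : ℤ) ∣ c then 2 * (1 / (p : ℝ)) else 0) := by
    intro p hp
    rw [mem_filter, mem_Ioc] at hp
    exact log_fac a b c p hp.2 (by omega) (hg p hp.2)
  have hS1 : |∑ p ∈ (Ioc z N).filter Nat.Prime, (Real.log (fac a b c p) + (jacobiSym (b ^ 2 - 4 * a * c) p : ℝ) / p)| ≤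
      40 / z + 2 * DS a z N + 2 * DS c z N := by
    refine (abs_sum_le_sum_abs _ _).trans ((sum_le_sum hpt).trans ?_)
    rw [sum_add_distrib, sum_add_distrib, ← mul_sum, ← sum_filter, ← sum_filter, filter_filter, filter_filter]
    have h1 := sum_inv_sq z N (by omega) hzN
    have h2 : (0:ℝ) ≤ 1 / (N:ℝ) := by positivity
    have h3 : ∑ p ∈ (Ioc z N).filter Nat.Prime, 1 / (p : ℝ) ^ 2 ≤ ∑ p ∈ Ioc z N, 1 / (p : ℝ) ^ 2 :=
      sum_le_sum_of_subset_of_nonneg (filter_subset _ _) fun _ _ _ => by positivity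
    have h4 : 40 * (∑ p ∈ (Ioc z N).filter Nat.Prime, 1 / (p : ℝ) ^ 2) ≤ 40 / (z : ℝ) := by
      calc 40 * (∑ p ∈ (Ioc z N).filter Nat.Prime, 1 / (p : ℝ) ^ 2) ≤ 40 * (1 / (z : ℝ)) := by linarith
        _ = 40 / (z : ℝ) := by ring
    have h5 : ∀ d : ℤ, ∑ p ∈ (Ioc z N).filter (fun p : ℕ => p.Prime ∧ (p : ℤ) ∣ d), 2 * (1 / (p : ℝ)) = 2 * DS d z N := by
      intro d
      unfold DS
      rw [mul_sum]
    rw [h5, h5]
    linarith
  rw [sum_add_distrib] at hS1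
  have hS2 : ∑ p ∈ (Ioc z N).filter Nat.Prime, (jacobiSym (b ^ 2 - 4 * a * c) p : ℝ) / p = SJ (b ^ 2 - 4 * a * c) z N := rfl
  rw [hS2] at hS1
  set X := ∑ p ∈ (Ioc z N).filter Nat.Prime, Real.log (fac a b c p) with hX
  have e : X = (X + SJ (b ^ 2 - 4 * a * c) z N) - SJ (b ^ 2 - 4 * a * c) z N := by ring
  rw [e]
  refine (abs_sub _ _).trans ?_
  linarith

/-- the products converge to a positive number -/
theorem PC_tendsto (a b c : ℤ) (ha : a ≠ 0) (hc : c ≠ 0) (hD : ¬ IsSquare (b ^ 2 - 4 * a * c))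
    (hg : ∀ p : ℕ, p.Prime → ¬ ((p : ℤ) ∣ a ∧ (p : ℤ) ∣ b ∧ (p : ℤ) ∣ c)) (z : ℕ) (hz : 4 ≤ z) (h0 : 0 < PC a b c z) :
    ∃ S : ℝ, 0 < S ∧ Tendsto (PC a b c) atTop (𝓝 S) := by
  classical
  set D := b ^ 2 - 4 * a * c with hDd
  obtain ⟨L, hL⟩ := SJ_cauchy D hD z
  set g : ℕ → ℝ := fun n => if n.Prime ∧ z < n then Real.log (fac a b c n) + (jacobiSym D n : ℝ) / n else 0 with hgd
  set M : ℕ := a.natAbs + c.natAbs with hM
  set e : ℕ → ℝ := fun n => if n ∈ range (M + 1) then 4 * (1 / (n:ℝ)) else 0 with he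
  have he0 : ∀ n, 0 ≤ e n := by
    intro n
    rw [he]
    simp only
    split_ifs
    · positivity
    · exact le_rfl
  have hgb : ∀ n, ‖g n‖ ≤ 40 / (n : ℝ) ^ 2 + e n := by
    intro n
    rw [hgd]
    simp only
    split_ifs with h
    · obtain ⟨h1, h2⟩ := h
      have h3 := log_fac a b c n h1 (by omega) (hg n h1)
      rw [Real.norm_eq_abs]
      refine h3.trans ?_
      have hle : ∀ d : ℤ, d ≠ 0 → (n : ℤ) ∣ d → n ≤ d.natAbs := by
        intro d hd hnd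
        exact Nat.le_of_dvd (Int.natAbs_pos.2 hd) (Int.natCast_dvd.1 hnd)
      have h1n : 0 ≤ 1 / (n:ℝ) := by positivity
      have h4 : (if (n : ℤ) ∣ a then 2 * (1 / (n : ℝ)) else 0) + (if (n : ℤ) ∣ c then 2 * (1 / (n : ℝ)) else 0) ≤ e n := by
        by_cases hna : (n : ℤ) ∣ a
        · have h5 := hle a ha hna
          have h6 : e n = 4 * (1 / (n:ℝ)) := by
            rw [he]; simp only; rw [if_pos (by rw [mem_range]; omega)]
          rw [h6, if_pos hna]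
          split_ifs <;> linarith
        · by_cases hnc : (n : ℤ) ∣ c
          · have h5 := hle c hc hnc
            have h6 : e n = 4 * (1 / (n:ℝ)) := by
              rw [he]; simp only; rw [if_pos (by rw [mem_range]; omega)]
            rw [h6, if_neg hna, if_pos hnc]
            linarith
          · rw [if_neg hna, if_neg hnc, add_zero]
            exact he0 n
      have h5 : 40 * (1 / (n:ℝ) ^ 2) = 40 / (n:ℝ) ^ 2 := by ring
      linarith
    · rw [norm_zero]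
      have := he0 n
      positivity
  have hsum : Summable g := by
    apply Summable.of_norm_bounded _ hgb
    apply Summable.add
    · have := (Real.summable_one_div_nat_pow (p := 2)).2 (by norm_num)
      simpa [div_eq_mul_inv] using this.mul_left 40
    · apply summable_of_ne_finset_zero (s := range (M + 1))
      intro n hn
      rw [he]; simp only; rw [if_neg hn]
  obtain ⟨G, hG⟩ := hsum
  have hG' : Tendsto (fun N => ∑ n ∈ range (N + 1), g n) atTop (𝓝 G) := hG.tendsto_sum_nat.comp (tendsto_add_atTop_nat 1)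
  have hlogP : ∀ N, z ≤ N → Real.log (PC a b c N) = Real.log (PC a b c z) + (∑ n ∈ range (N + 1), g n - SJ D z N) := by
    intro N hzN
    rw [(log_PC a b c z N hz hzN hg h0).2]
    congr 1
    unfold SJ
    rw [eq_sub_iff_add_eq, ← sum_add_distrib]
    rw [hgd]
    simp only
    rw [← sum_filter]
    apply sum_congr _ (fun _ _ => rfl)
    ext p
    simp only [mem_filter, mem_Ioc, mem_range]
    constructor
    · rintro ⟨h1, h2⟩; exact ⟨by omega, h2, h1.1⟩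
    · rintro ⟨h1, h2, h3⟩; exact ⟨⟨h3, by omega⟩, h2⟩
  refine ⟨PC a b c z * Real.exp (G - L), mul_pos h0 (Real.exp_pos _), ?_⟩
  have h1 : Tendsto (fun N => PC a b c z * Real.exp (∑ n ∈ range (N + 1), g n - SJ D z N)) atTop
      (𝓝 (PC a b c z * Real.exp (G - L))) :=
    ((Real.continuous_exp.tendsto _).comp (hG'.sub hL)).const_mul _
  refine h1.congr' ?_
  filter_upwards [eventually_ge_atTop z] with N hN
  have h2 := hlogP N hN
  have h3 := (log_PC a b c z N hz hN hg h0).1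
  calc PC a b c z * Real.exp (∑ n ∈ range (N + 1), g n - SJ D z N) =
      Real.exp (Real.log (PC a b c z)) * Real.exp (∑ n ∈ range (N + 1), g n - SJ D z N) := by
        rw [Real.exp_log h0]
    _ = Real.exp (Real.log (PC a b c N)) := by rw [← Real.exp_add, ← h2]
    _ = _ := Real.exp_log h3

end Pool.Agent.Helper24K9.EP
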