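import Mathlib
import Pool.Agent.Helper24K9.EP.Pc
import Pool.Agent.Helper24K9.EP.PL
import Pool.Agent.W218.HF.QRough

set_option autoImplicit false

/-! Primes at which a quadratic polynomial has no small prime factor. -/

namespace Pool.Agent.Helper24K9.EP
open Finset Filter Topology
open Pool.Agent.W468.ConjF H343E Pool.Agent.Erdos456 Pool.Agent.W218.HF
open Pool.Agent.Helper24K9.EL

/-- the prime number theorem for a fixed modulus -/
theorem pnt_ap (P : ℕ) (hP : 1 ≤ P) (ρ : ℝ) (hρ : 0 < ρ) : ∃ x₀ : ℕ, ∀ x : ℕ, x₀ ≤ x → ∀ r : ℕ, r.Coprime P →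
    (1 - ρ) * (x / Real.log x) * (1 / (Nat.totient P : ℝ)) ≤ piAP x P r := by
  obtain ⟨B, X0, h⟩ := Pool.Agent.Helper24K9.EM.bv_lin2 2
  obtain ⟨x₁, hpnt⟩ := Pool.Agent.H373R2.SH.pnt_windowB 4 (by norm_num) (ρ / 2) (by positivity)
  have hφ : (0:ℝ) < Nat.totient P := by exact_mod_cast Nat.totient_pos.2 hP
  have hP1 : (1:ℝ) ≤ P := by exact_mod_cast hP
  have hev : ∀ᶠ x : ℕ in atTop, 2 * (Nat.totient P : ℝ) / ρ ≤ Real.log x ∧ 1 ≤ Real.log x ∧
      (P:ℝ) ^ 2 * Real.log x ^ B ≤ x := by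
    have h1 : Tendsto (fun n : ℕ => Real.log n) atTop atTop := Real.tendsto_log_atTop.comp tendsto_natCast_atTop_atTop
    have h2 := (Real.isLittleO_pow_log_id_atTop (n := B)).bound (show (0:ℝ) < 1 / (P:ℝ) ^ 2 by positivity)
    filter_upwards [h1.eventually_ge_atTop (2 * (Nat.totient P : ℝ) / ρ), h1.eventually_ge_atTop 1,
      tendsto_natCast_atTop_atTop.eventually h2, eventually_ge_atTop 1] with x h3 h4 h5 h6
    refine ⟨h3, h4, ?_⟩
    have hx0 : (0:ℝ) ≤ x := Nat.cast_nonneg _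
    simp only [id_eq] at h5
    rw [Real.norm_of_nonneg (by positivity), Real.norm_of_nonneg hx0] at h5
    rw [div_mul_eq_mul_div, one_mul, le_div_iff₀ (by positivity)] at h5
    linarith
  obtain ⟨x₂, hx₂⟩ := eventually_atTop.1 hev
  refine ⟨max X0 (max x₁ x₂), fun x hx r hr => ?_⟩
  obtain ⟨h1, h2, h3⟩ := hx₂ x (((le_max_right _ _).trans (le_max_right _ _)).trans hx)
  have hlx : 0 < Real.log x := by linarith
  have hx0 : (0:ℝ) ≤ x := Nat.cast_nonneg _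
  have hd2 : (P:ℝ) ^ 2 ≤ x / Real.log x ^ B := by
    rw [le_div_iff₀ (by positivity)]; exact h3
  have hd1 : (P:ℝ) ≤ x / Real.log x ^ B := by
    refine le_trans ?_ hd2
    nlinarith
  have h4 := h x ((le_max_left _ _).trans hx) P hd1 hd2 {0} (fun _ => P) (fun _ => r) (by
    intro t _
    exact ⟨hP, le_rfl, hr⟩) (by
    intro s hs t ht _
    rw [coe_singleton, Set.mem_singleton_iff] at hs ht
    rw [hs, ht])
  rw [sum_singleton] at h4
  have h5 := hpnt x (((le_max_left _ _).trans (le_max_right _ _)).trans hx) 0 (Nat.zero_le _)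
  rw [Nat.add_zero, ← pi1_eq, ← pi1_eq] at h5
  have h6 : pi1 0 = 0 := by unfold pi1; simp
  rw [h6, sub_zero] at h5
  have h7 := (abs_le.1 h4).1
  have h8 : (1 - ρ / 2) * (x / Real.log x) * (1 / (Nat.totient P : ℝ)) ≤ pi1 x / (Nat.totient P : ℝ) := by
    rw [mul_one_div]
    exact div_le_div_of_nonneg_right h5 hφ.le
  have h9 : (x:ℝ) / Real.log x ^ 2 ≤ ρ / 2 * (x / Real.log x) * (1 / (Nat.totient P : ℝ)) := by
    rw [div_le_iff₀ hρ] at h1
    have e : (x:ℝ) / Real.log x ^ 2 = (x / Real.log x) * (1 / Real.log x) := by field_simp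
    rw [e]
    have h10 : 1 / Real.log x ≤ ρ / 2 * (1 / (Nat.totient P : ℝ)) := by
      rw [mul_one_div, div_le_div_iff₀ hlx hφ]
      linarith
    calc (x:ℝ) / Real.log x * (1 / Real.log x) ≤ (x / Real.log x) * (ρ / 2 * (1 / (Nat.totient P : ℝ))) := by gcongr
      _ = _ := by ring
  linarith

/-- the number of primes at which the polynomial has no small prime factor -/
theorem rough_primes (z : ℕ) (ρ : ℝ) (hρ : 0 < ρ) : ∃ x₀ : ℕ, ∀ x : ℕ, x₀ ≤ x → ∀ a b c : ℤ,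
    (1 - ρ) * (x / Real.log x) * ∏ q ∈ (Icc 1 z).filter Nat.Prime, (1 - (nu a b c q : ℝ) / (q - 1)) ≤
      (#((Icc 1 x).filter (fun p : ℕ => p.Prime ∧ z < p ∧ ∀ q ≤ z, q.Prime →
        ¬ ((q : ℤ) ∣ a * (p : ℤ) ^ 2 + b * p + c))) : ℝ) := by
  classical
  set Q := (Icc 1 z).filter Nat.Prime with hQ
  have hQp : ∀ q ∈ Q, q.Prime := fun q hq => (mem_filter.1 hq).2
  set P := ∏ q ∈ Q, q with hP
  have hP0 : 0 < P := prod_pos fun q hq => (hQp q hq).pos
  obtain ⟨x₀, hx₀⟩ := pnt_ap P hP0 ρ hρ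
  refine ⟨x₀, fun x hx a b c => ?_⟩
  set R := (range P).filter (fun r => ∀ q ∈ Q, ¬ (r % q = 0) ∧ ¬ (q : ℤ) ∣ a * ((r % q : ℕ) : ℤ) ^ 2 + b * ((r % q : ℕ) : ℤ) + c) with hR
  have hRc : (#R : ℝ) = ∏ q ∈ Q, ((q : ℝ) - 1 - nu a b c q) := by
    have h1 := Pool.Agent.H373R2.BH.crt_count Q hQp (fun q r => ¬ (r = 0) ∧ ¬ (q : ℤ) ∣ a * (r : ℤ) ^ 2 + b * (r : ℤ) + c)
    rw [← hP] at h1
    have h2 : #R = ∏ q ∈ Q, #((range q).filter (fun r : ℕ => ¬ (r = 0) ∧ ¬ (q : ℤ) ∣ a * (r : ℤ) ^ 2 + b * (r : ℤ) + c)) := by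
      rw [← h1, hR]
    rw [h2]
    push_cast
    apply prod_congr rfl
    intro q hq
    have hq1 := (hQp q hq).one_lt
    have h3 : (range q).filter (fun r : ℕ => ¬ (r = 0) ∧ ¬ (q : ℤ) ∣ a * (r : ℤ) ^ 2 + b * (r : ℤ) + c) =
        (Ico 1 q).filter (fun r : ℕ => ¬ (q : ℤ) ∣ a * (r : ℤ) ^ 2 + b * (r : ℤ) + c) := by
      ext r
      simp only [mem_filter, mem_range, mem_Ico]
      constructor
      · rintro ⟨h4, h5, h6⟩; exact ⟨⟨by omega, h4⟩, h6⟩
      · rintro ⟨⟨h4, h5⟩, h6⟩; exact ⟨h5, by omega, h6⟩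
    rw [h3]
    have h4 := card_filter_add_card_filter_not (s := Ico 1 q) (fun r : ℕ => (q : ℤ) ∣ a * (r : ℤ) ^ 2 + b * (r : ℤ) + c)
    rw [Nat.card_Ico] at h4
    have h5 : (((Ico 1 q).filter (fun r : ℕ => (q : ℤ) ∣ a * (r : ℤ) ^ 2 + b * (r : ℤ) + c)).card : ℝ) +
        (((Ico 1 q).filter (fun r : ℕ => ¬ (q : ℤ) ∣ a * (r : ℤ) ^ 2 + b * (r : ℤ) + c)).card : ℝ) = (q : ℝ) - 1 := by
      have h6 : ((q - 1 : ℕ) : ℝ) = (q:ℝ) - 1 := by rw [Nat.cast_sub hq1.le]; simp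
      rw [← h6]
      exact_mod_cast h4
    unfold nu
    linarith
  have hφ : (Nat.totient P : ℝ) = ∏ q ∈ Q, ((q : ℝ) - 1) := by
    have h1 : (Nat.totient P : ℚ) = P * ∏ q ∈ P.primeFactors, (1 - (q:ℚ)⁻¹) := Nat.totient_eq_mul_prod_factors P
    have h2 : P.primeFactors = Q := Nat.primeFactors_prod hQp
    rw [h2] at h1
    have h3 : (Nat.totient P : ℝ) = P * ∏ q ∈ Q, (1 - (q:ℝ)⁻¹) := by
      have := congrArg (fun t : ℚ => (t : ℝ)) h1
      push_cast at this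
      exact this
    rw [h3, hP]
    push_cast
    rw [← prod_mul_distrib]
    apply prod_congr rfl
    intro q hq
    have : (q:ℝ) ≠ 0 := by exact_mod_cast (hQp q hq).ne_zero
    field_simp
  have hmod : ∀ (p t : ℕ), (p : ℤ) ∣ (a * (t : ℤ) ^ 2 + b * t + c) →
      (p : ℤ) ∣ a * ((t % p : ℕ) : ℤ) ^ 2 + b * ((t % p : ℕ) : ℤ) + c := by
    intro p t h
    exact (dvd_mod_iff a b c p t).2 h
  set A := (Icc 1 x).filter (fun p : ℕ => p.Prime ∧ z < p ∧ ∀ q ≤ z, q.Prime →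
        ¬ ((q : ℤ) ∣ a * (p : ℤ) ^ 2 + b * p + c)) with hA
  have hsum : ∑ r ∈ R, piAP x P r ≤ (#A : ℝ) := by
    have h1 : (R.biUnion (fun r => (Icc 1 x).filter (fun p => p.Prime ∧ p ≡ r [MOD P]))) ⊆ A := by
      intro p hp
      rw [mem_biUnion] at hp
      obtain ⟨r, hr, hp⟩ := hp
      rw [hR, mem_filter, mem_range] at hr
      rw [mem_filter] at hp
      have hmq : ∀ q ∈ Q, p % q = r % q := by
        intro q hq
        exact (hp.2.2.of_dvd (dvd_prod_of_mem (fun q => q) hq))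
      rw [hA, mem_filter]
      refine ⟨hp.1, hp.2.1, ?_, ?_⟩
      · by_contra hcon
        push Not at hcon
        have hpQ : p ∈ Q := by rw [hQ, mem_filter, mem_Icc]; exact ⟨⟨hp.2.1.one_le, hcon⟩, hp.2.1⟩
        have h2 := (hr.2 p hpQ).1
        rw [← hmq p hpQ, Nat.mod_self] at h2
        exact h2 rfl
      · intro q hqz hqp hd
        have hqQ : q ∈ Q := by rw [hQ, mem_filter, mem_Icc]; exact ⟨⟨hqp.one_le, hqz⟩, hqp⟩
        have h2 := (hr.2 q hqQ).2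
        rw [← hmq q hqQ] at h2
        exact h2 (hmod q p hd)
    have h2 := card_le_card h1
    rw [card_biUnion] at h2
    · unfold piAP
      exact_mod_cast h2
    · intro r hr s hs hrs
      show Disjoint _ _
      rw [Finset.disjoint_left]
      intro p hp1 hp2
      rw [mem_filter] at hp1 hp2
      rw [mem_coe, hR, mem_filter, mem_range] at hr hs
      apply hrs
      exact Nat.ModEq.eq_of_lt_of_lt (hp1.2.2.symm.trans hp2.2.2) hr.1 hs.1
  have hcop : ∀ r ∈ R, r.Coprime P := by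
    intro r hr
    rw [hR, mem_filter] at hr
    rw [hP]
    apply Nat.Coprime.prod_right
    intro q hq
    apply Nat.Coprime.symm
    rw [(hQp q hq).coprime_iff_not_dvd]
    intro hd
    exact (hr.2 q hq).1 (Nat.mod_eq_zero_of_dvd hd)
  have h1 : (#R : ℝ) * ((1 - ρ) * (x / Real.log x) * (1 / (Nat.totient P : ℝ))) ≤ ∑ r ∈ R, piAP x P r := by
    rw [← nsmul_eq_mul, ← sum_const]
    exact sum_le_sum fun r hr => hx₀ x hx r (hcop r hr)
  refine le_trans (le_of_eq ?_) (h1.trans hsum)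
  rw [hRc, hφ]
  have e : ∏ q ∈ Q, (1 - (nu a b c q : ℝ) / (q - 1)) = (∏ q ∈ Q, ((q : ℝ) - 1 - nu a b c q)) * (1 / ∏ q ∈ Q, ((q : ℝ) - 1)) := by
    rw [mul_one_div, ← prod_div_distrib]
    apply prod_congr rfl
    intro q hq
    have h3 : (1:ℝ) < q := by exact_mod_cast (hQp q hq).one_lt
    have h4 : (q:ℝ) - 1 ≠ 0 := by linarith
    field_simp
  rw [e]
  ring

end Pool.Agent.Helper24K9.EP
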