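import Mathlib
import Pool.Agent.Helper24K9.EM.De
import Pool.Agent.Helper24K9.EP.Rc

set_option autoImplicit false

/-! The density of the primes `p` with `g(p)`, `h(p)` coprime. -/

open Finset Filter Topology

namespace Pool.Agent.Helper24K9.EM

open Pool.Agent.Erdos456 H343E Pool.Agent.W218.HF Pool.Agent.W468.ConjF Pool.Agent.Helper24K9.EL Pool.Agent.Helper24K9.EP

namespace Ln

variable (l : Ln)

/-- no prime `p` divides all values at the arguments prime to `p` -/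
def AdmP : Prop := ∀ p : ℕ, p.Prime → ∃ k t : ℤ, ¬ (p : ℤ) ∣ t ∧
  ¬ (p : ℤ) ∣ k * (l.α * t ^ 2 + l.β * t + l.γ) + (l.a * t ^ 2 + l.b * t + l.c)

open Classical in
/-- the primes in `(y, x]` with `g`, `h` coprime -/
noncomputable def TP (y x : ℕ) : Finset ℕ := (Ioc y x).filter (fun t => t.Prime ∧ IsCoprime (l.G t) (l.H t))

lemma densP (hadm : l.AdmP) : ∃ δ : ℝ, 0 < δ ∧ ∀ y : ℕ, ∃ x₀ : ℕ, ∀ x : ℕ, x₀ ≤ x →
    δ * (x / Real.log x) ≤ (l.TP y x).card := by
  classical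
  set P := l.R.natAbs.primeFactors with hP
  have hPp : ∀ p ∈ P, p.Prime := fun p hp => Nat.prime_of_mem_primeFactors hp
  set M := ∏ p ∈ P, p with hM
  have hM0 : 0 < M := prod_pos fun p hp => (hPp p hp).pos
  have hmodG : ∀ p t : ℕ, (p : ℤ) ∣ l.G (t % p) ↔ (p : ℤ) ∣ l.G t := fun p t => dvd_mod_iff l.α l.β l.γ p t
  have hmodH : ∀ p t : ℕ, (p : ℤ) ∣ l.H (t % p) ↔ (p : ℤ) ∣ l.H t := fun p t => dvd_mod_iff l.a l.b l.c p t
  -- a good class
  obtain ⟨r, hrM, hr⟩ : ∃ r < M, ∀ p ∈ P, r % p ≠ 0 ∧ ¬ ((p : ℤ) ∣ l.G (r % p) ∧ (p : ℤ) ∣ l.H (r % p)) := by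
    have h2 := Pool.Agent.H373R2.BH.crt_count P hPp (fun p r => r ≠ 0 ∧ ¬ ((p : ℤ) ∣ l.G r ∧ (p : ℤ) ∣ l.H r))
    have h3 : 0 < ∏ p ∈ P, #((range p).filter (fun r => r ≠ 0 ∧ ¬ ((p : ℤ) ∣ l.G r ∧ (p : ℤ) ∣ l.H r))) := by
      apply prod_pos
      intro p hp
      rw [card_pos]
      obtain ⟨k, t, hpt, hkt⟩ := hadm p (hPp p hp)
      have hp0 : (0:ℤ) < p := by exact_mod_cast (hPp p hp).pos
      have hr0 := Int.emod_nonneg t hp0.ne'
      have hr1 := Int.emod_lt_of_pos t hp0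
      set r := (t % (p:ℤ)).toNat with hr
      have hrc : (r : ℤ) = t % p := Int.toNat_of_nonneg hr0
      refine ⟨r, ?_⟩
      rw [mem_filter, mem_range]
      refine ⟨by omega, ?_, ?_⟩
      · intro h0
        rw [h0] at hrc
        exact hpt (Int.dvd_of_emod_eq_zero hrc.symm)
      rintro ⟨h4, h5⟩
      apply hkt
      have e : t = p * (t / p) + r := by
        rw [hrc]; exact (Int.mul_ediv_add_emod t p).symm
      set q := t / (p : ℤ) with hq
      have e1 : l.α * t ^ 2 + l.β * t + l.γ = p * (l.α * (p * q ^ 2 + 2 * q * r) + l.β * q) + l.G r := by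
        rw [e]; unfold G; ring
      have e2 : l.a * t ^ 2 + l.b * t + l.c = p * (l.a * (p * q ^ 2 + 2 * q * r) + l.b * q) + l.H r := by
        rw [e]; unfold H; ring
      rw [e1, e2]
      exact dvd_add (Dvd.dvd.mul_left (dvd_add (dvd_mul_right _ _) h4) _) (dvd_add (dvd_mul_right _ _) h5)
    rw [← h2, card_pos] at h3
    obtain ⟨r, hr⟩ := h3
    rw [mem_filter, mem_range] at hr
    exact ⟨r, hr.1, hr.2⟩
  have hcop : r.Coprime M := by
    rw [hM]
    apply Nat.Coprime.prod_right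
    intro q hq
    apply Nat.Coprime.symm
    rw [(hPp q hq).coprime_iff_not_dvd]
    intro hd
    exact (hr q hq).1 (Nat.mod_eq_zero_of_dvd hd)
  obtain ⟨x₀, hx₀⟩ := pnt_ap M hM0 (1 / 2) (by norm_num)
  have hφ : (0:ℝ) < Nat.totient M := by exact_mod_cast Nat.totient_pos.2 hM0
  refine ⟨1 / (4 * Nat.totient M), by positivity, fun y => ?_⟩
  have hev : ∀ᶠ x : ℕ in atTop, (4 * Nat.totient M : ℝ) * y * Real.log x ≤ x ∧ 3 ≤ x := by
    have h2 := (Real.isLittleO_pow_log_id_atTop (n := 1)).bound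
      (show (0:ℝ) < 1 / ((4 * Nat.totient M : ℝ) * y + 1) by positivity)
    filter_upwards [tendsto_natCast_atTop_atTop.eventually h2, eventually_ge_atTop 3] with x h5 h6
    refine ⟨?_, h6⟩
    have hx3 : (3:ℝ) ≤ x := by exact_mod_cast h6
    have hl : 0 ≤ Real.log x := Real.log_nonneg (by linarith)
    simp only [id_eq, pow_one] at h5
    rw [Real.norm_of_nonneg hl, Real.norm_of_nonneg (by linarith)] at h5
    rw [div_mul_eq_mul_div, one_mul, le_div_iff₀ (by positivity)] at h5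
    linarith
  obtain ⟨x₁, hx₁⟩ := eventually_atTop.1 hev
  refine ⟨max x₀ x₁, fun x hx => ?_⟩
  obtain ⟨h1, h3⟩ := hx₁ x ((le_max_right _ _).trans hx)
  have hx3 : (3:ℝ) ≤ x := by exact_mod_cast h3
  have hlx : 0 < Real.log x := Real.log_pos (by linarith)
  have h2 := hx₀ x ((le_max_left _ _).trans hx) r hcop
  have hsub : (Icc 1 x).filter (fun p => p.Prime ∧ p ≡ r [MOD M]) ⊆ (Icc 1 y) ∪ l.TP y x := by
    intro p hp
    rw [mem_filter, mem_Icc] at hp
    rw [mem_union, mem_Icc, TP, mem_filter, mem_Ioc]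
    by_cases hpy : p ≤ y
    · exact Or.inl ⟨hp.1.1, hpy⟩
    · right
      refine ⟨⟨by omega, hp.1.2⟩, hp.2.1, ?_⟩
      apply l.coprime_of
      intro q hq hqR
      have hqP : q ∈ P := by
        rw [hP, Nat.mem_primeFactors]
        exact ⟨hq, Int.natCast_dvd.1 hqR, (Int.natAbs_pos.2 l.R_ne).ne'⟩
      have h4 : p % q = r % q := hp.2.2.of_dvd (dvd_prod_of_mem (fun q => q) hqP)
      rw [← hmodG, ← hmodH, h4]
      exact (hr q hqP).2
  have h4 : piAP x M r ≤ y + (l.TP y x).card := by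
    unfold piAP
    have := (card_le_card hsub).trans (card_union_le _ _)
    rw [Nat.card_Icc, Nat.add_sub_cancel] at this
    exact_mod_cast this
  have h5 : (y:ℝ) ≤ 1 / (4 * Nat.totient M) * (x / Real.log x) := by
    rw [div_mul_div_comm, one_mul, le_div_iff₀ (by positivity)]
    linarith
  have h6 : (1 - 1 / 2) * ((x:ℝ) / Real.log x) * (1 / (Nat.totient M : ℝ)) =
      1 / (4 * Nat.totient M) * (x / Real.log x) + 1 / (4 * Nat.totient M) * (x / Real.log x) := by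
    field_simp
    ring
  linarith

end Ln

end Pool.Agent.Helper24K9.EM
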