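import Mathlib
import Pool.Agent.Helper24K9.EP.Ma

set_option autoImplicit false

/-! The moments for sets of primes of positive relative density. -/

open Finset Filter Topology

namespace Pool.Agent.Helper24K9.EM

open Pool.Agent.Erdos456 H343E Pool.Agent.W218.HF Pool.Agent.Helper24K9.EL Pool.Agent.Helper24K9.EP

namespace Ln

variable (l : Ln)

lemma t0_pos : 1 ≤ l.t0 := by have := l.S_pos'; unfold t0; omega

/-- the sixth moment of `g t / φ(g t)` over primes -/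
theorem momGP : ∃ C : ℝ, 0 < C ∧ ∀ (X : ℕ) (T : Finset ℕ), 60 + l.S ≤ X → T ⊆ Icc l.t0 X → (∀ t ∈ T, t.Prime) →
    ∑ t ∈ T, (GG (l.g t)) ^ 6 ≤ C * (X / Real.log X) := by
  obtain ⟨C, hC, h⟩ := momP
  have hg0 : 0 < Int.gcd l.α (Int.gcd l.β l.γ) := by
    rw [Int.gcd_pos_iff]
    rcases l.coef_ne with h | h | h
    · exact Or.inl h
    · right
      have := Int.gcd_pos_iff.2 (Or.inl h : l.β ≠ 0 ∨ l.γ ≠ 0)
      exact_mod_cast this.ne'
    · right
      have := Int.gcd_pos_iff.2 (Or.inr h : l.β ≠ 0 ∨ l.γ ≠ 0)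
      exact_mod_cast this.ne'
  have hG0 := GG_pos hg0
  refine ⟨C * (GG (Int.gcd l.α (Int.gcd l.β l.γ))) ^ 6, by positivity, fun X T hX hT hTp => ?_⟩
  have h0 := l.t0_pos
  have h1 : ∑ t ∈ T, (GG (l.g t)) ^ 6 = ∑ t ∈ T, (GG (l.α * (t : ℤ) ^ 2 + l.β * t + l.γ).natAbs) ^ 6 := by
    apply sum_congr rfl
    intro t ht
    rw [l.g_eq (mem_Icc.1 (hT ht)).1]; rfl
  rw [h1]
  refine le_trans ?_ (h X l.α l.β l.γ (by omega) l.coef_ne ?_)
  · apply sum_le_sum_of_subset_of_nonneg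
    · intro t ht
      have := mem_Icc.1 (hT ht)
      rw [mem_filter, mem_Icc]
      exact ⟨⟨by omega, this.2⟩, hTp t ht⟩
    · intro t _ _
      have := GG_nonneg (l.α * (t : ℤ) ^ 2 + l.β * t + l.γ).natAbs
      positivity
  · intro t ht
    rw [mem_Icc] at ht
    have hX1 : 1 ≤ X := by omega
    have h2 : (l.α * (t : ℤ) ^ 2 + l.β * t + l.γ).natAbs ≤ l.S * X ^ 2 := by
      calc (l.α * (t : ℤ) ^ 2 + l.β * t + l.γ).natAbs ≤ (l.α * (t : ℤ) ^ 2).natAbs + (l.β * t).natAbs + l.γ.natAbs :=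
            (Int.natAbs_add_le _ _).trans (Nat.add_le_add_right (Int.natAbs_add_le _ _) _)
        _ = l.α.natAbs * t ^ 2 + l.β.natAbs * t + l.γ.natAbs := by
            rw [Int.natAbs_mul, Int.natAbs_mul, Int.natAbs_pow, Int.natAbs_natCast]
        _ ≤ l.α.natAbs * X ^ 2 + l.β.natAbs * X ^ 2 + l.γ.natAbs * X ^ 2 := by
            have h2 : t ^ 2 ≤ X ^ 2 := Nat.pow_le_pow_left ht.2 2
            have h3 : t ≤ X ^ 2 := by nlinarith [ht.2]
            have h4 : 1 ≤ X ^ 2 := Nat.one_le_pow _ _ (by omega)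
            have h5 : l.γ.natAbs ≤ l.γ.natAbs * X ^ 2 := Nat.le_mul_of_pos_right _ (by omega)
            gcongr
        _ = (l.α.natAbs + l.β.natAbs + l.γ.natAbs) * X ^ 2 := by ring
        _ ≤ l.S * X ^ 2 := by
            apply Nat.mul_le_mul_right
            unfold S
            omega
    have h3 : l.S * X ^ 2 ≤ X ^ 4 := by
      have h4 : l.S ≤ X ^ 2 := by nlinarith
      calc l.S * X ^ 2 ≤ X ^ 2 * X ^ 2 := Nat.mul_le_mul_right _ h4
        _ = X ^ 4 := by ring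
    exact_mod_cast h2.trans h3

/-- the moments for a set of primes of relative density `δ` -/
theorem mom_primes (δ : ℝ) (hδ : 0 < δ) : ∃ (Λ : ℝ) (x₀ : ℕ), 1 ≤ Λ ∧ ∀ (x : ℕ) (T : Finset ℕ), x₀ ≤ x →
    T ⊆ Icc l.t0 x → (∀ t ∈ T, t.Prime) → δ * (x / Real.log x) ≤ T.card → l.Mom T Λ := by
  obtain ⟨C₁, hC₁, h6⟩ := l.momGP
  obtain ⟨C₂, hC₂, hmom⟩ := momP
  set ρ : ℝ := GG l.R.natAbs with hρ
  have hR0 : 0 < l.R.natAbs := Int.natAbs_pos.2 l.R_ne
  have hρ1 : 1 ≤ ρ := one_le_GG hR0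
  set SQ : ℕ := l.A.natAbs + 2 * l.B.natAbs + l.C.natAbs + 1 with hSQ
  set Λ : ℝ := max 1 ((C₁ + C₂ + C₂ * ρ ^ 6) / δ) with hΛ
  refine ⟨Λ, 60 + l.S + SQ, le_max_left _ _, fun x T hx hT hTp hc => ?_⟩
  have hx60 : 60 ≤ x := by omega
  have hxr : (60:ℝ) ≤ x := by exact_mod_cast hx60
  have hlx : 0 < Real.log x := Real.log_pos (by linarith)
  have hxl : 0 < (x:ℝ) / Real.log x := by positivity
  have key : ∀ D : ℝ, 0 ≤ D → D ≤ C₁ + C₂ + C₂ * ρ ^ 6 → D * (x / Real.log x) ≤ Λ * T.card := by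
    intro D hD0 hD
    have h1 : (x:ℝ) / Real.log x ≤ T.card / δ := by
      rw [le_div_iff₀ hδ]; linarith
    calc D * (x / Real.log x) ≤ (C₁ + C₂ + C₂ * ρ ^ 6) * (T.card / δ) := by
          apply mul_le_mul hD h1 hxl.le (by positivity)
      _ = ((C₁ + C₂ + C₂ * ρ ^ 6) / δ) * T.card := by ring
      _ ≤ Λ * T.card := by
          apply mul_le_mul_of_nonneg_right (le_max_right _ _) (Nat.cast_nonneg _)
  have h0 := l.t0_pos
  have hTI : T ⊆ (Icc 1 x).filter Nat.Prime := by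
    intro t ht
    have h1 := mem_Icc.1 (hT ht)
    rw [mem_filter, mem_Icc]
    exact ⟨⟨by omega, h1.2⟩, hTp t ht⟩
  constructor
  · exact le_max_left _ _
  · refine (h6 x T (by omega) hT hTp).trans (key C₁ hC₁.le ?_)
    have : 0 ≤ C₂ * ρ ^ 6 := by positivity
    linarith
  · intro s hs
    have hsx := (mem_Icc.1 (hT hs)).2
    have h := hmom x 0 1 (-(s : ℤ)) hx60 (Or.inr (Or.inl one_ne_zero)) (by
      intro t ht
      rw [mem_Icc] at ht
      have h2 : (0 * (t : ℤ) ^ 2 + 1 * (t : ℤ) + -(s : ℤ)).natAbs ≤ x := by omega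
      have h3 : (((0 * (t : ℤ) ^ 2 + 1 * (t : ℤ) + -(s : ℤ)).natAbs : ℕ) : ℝ) ≤ x := by exact_mod_cast h2
      refine h3.trans ?_
      calc (x:ℝ) = x ^ 1 := (pow_one _).symm
        _ ≤ (x:ℝ) ^ 4 := pow_le_pow_right₀ (by linarith) (by norm_num))
    have e1 : Int.gcd 0 ((Int.gcd 1 (-(s : ℤ)) : ℕ) : ℤ) = 1 := by
      rw [Int.one_gcd]; rfl
    have e2 : GG 1 = 1 := by simp [GG]
    rw [e1, e2, one_pow, mul_one] at h
    refine le_trans ?_ (key C₂ hC₂.le (by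
      have : 0 ≤ C₂ * ρ ^ 6 := by positivity
      linarith))
    refine le_trans ?_ h
    refine le_trans (le_of_eq ?_) (sum_le_sum_of_subset_of_nonneg hTI fun t _ _ => by
      have := GG_nonneg (0 * (t : ℤ) ^ 2 + 1 * (t : ℤ) + -(s : ℤ)).natAbs
      positivity)
    apply sum_congr rfl
    intro t _
    have e3 : 0 * (t : ℤ) ^ 2 + 1 * (t : ℤ) + -(s : ℤ) = 1 * (t : ℤ) - (s : ℤ) := by ring
    rw [e3]
  · intro s hs
    have hsx := (mem_Icc.1 (hT hs)).2
    have h := hmom x 0 (l.A * s + l.B) (l.B * s + l.C) hx60 (Or.inr (l.uv_ne s)) (by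
      intro t ht
      rw [mem_Icc] at ht
      have h2 : (0 * (t : ℤ) ^ 2 + (l.A * s + l.B) * t + (l.B * s + l.C)).natAbs ≤ SQ * x ^ 2 := by
        have h3 : (0 * (t : ℤ) ^ 2 + (l.A * s + l.B) * t + (l.B * s + l.C)).natAbs ≤
            (l.A.natAbs * s + l.B.natAbs) * t + (l.B.natAbs * s + l.C.natAbs) := by
          rw [zero_mul, zero_add]
          calc ((l.A * s + l.B) * t + (l.B * s + l.C)).natAbs
              ≤ ((l.A * s + l.B) * t).natAbs + (l.B * s + l.C).natAbs := Int.natAbs_add_le _ _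
            _ = (l.A * s + l.B).natAbs * t + (l.B * s + l.C).natAbs := by
                rw [Int.natAbs_mul, Int.natAbs_natCast]
            _ ≤ ((l.A * s).natAbs + l.B.natAbs) * t + ((l.B * s).natAbs + l.C.natAbs) := by
                apply Nat.add_le_add
                · exact Nat.mul_le_mul_right _ (Int.natAbs_add_le _ _)
                · exact Int.natAbs_add_le _ _
            _ = _ := by rw [Int.natAbs_mul, Int.natAbs_mul, Int.natAbs_natCast]
        refine h3.trans ?_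
        have h4 : s * t ≤ x ^ 2 := by
          rw [sq]; exact Nat.mul_le_mul hsx ht.2
        have h5 : t ≤ x ^ 2 := by nlinarith [ht.2]
        have h6 : s ≤ x ^ 2 := by nlinarith
        have h7 : 1 ≤ x ^ 2 := Nat.one_le_pow _ _ (by omega)
        calc (l.A.natAbs * s + l.B.natAbs) * t + (l.B.natAbs * s + l.C.natAbs)
            = l.A.natAbs * (s * t) + l.B.natAbs * t + l.B.natAbs * s + l.C.natAbs * 1 := by ring
          _ ≤ l.A.natAbs * x ^ 2 + l.B.natAbs * x ^ 2 + l.B.natAbs * x ^ 2 + l.C.natAbs * x ^ 2 := by gcongr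
          _ ≤ SQ * x ^ 2 := by rw [hSQ]; nlinarith
      have h3 : SQ * x ^ 2 ≤ x ^ 4 := by
        have h4 : SQ ≤ x ^ 2 := by nlinarith
        calc SQ * x ^ 2 ≤ x ^ 2 * x ^ 2 := Nat.mul_le_mul_right _ h4
          _ = x ^ 4 := by ring
      exact_mod_cast h2.trans h3)
    have e1 : Int.gcd 0 ((Int.gcd (l.A * s + l.B) (l.B * s + l.C) : ℕ) : ℤ) = Int.gcd (l.A * s + l.B) (l.B * s + l.C) := by
      rw [Int.gcd_zero_left, Int.natAbs_natCast]
    rw [e1] at h
    have h1 : GG (Int.gcd (l.A * s + l.B) (l.B * s + l.C)) ≤ ρ := GG_mono_dvd hR0 (l.gcd_uv_dvd s)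
    have h2 := GG_nonneg (Int.gcd (l.A * s + l.B) (l.B * s + l.C))
    refine le_trans ?_ (key (C₂ * ρ ^ 6) (by positivity) (by linarith))
    have h3 : C₂ * GG (Int.gcd (l.A * s + l.B) (l.B * s + l.C)) ^ 6 * (x / Real.log x) ≤
        C₂ * ρ ^ 6 * (x / Real.log x) := by gcongr
    refine le_trans ?_ (h.trans h3)
    refine le_trans (le_of_eq ?_) (sum_le_sum_of_subset_of_nonneg hTI fun t _ _ => by
      have := GG_nonneg (0 * (t : ℤ) ^ 2 + (l.A * s + l.B) * t + (l.B * s + l.C)).natAbs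
      positivity)
    apply sum_congr rfl
    intro t _
    have e3 : 0 * (t : ℤ) ^ 2 + (l.A * s + l.B) * t + (l.B * s + l.C) = (l.A * s + l.B) * t + (l.B * s + l.C) := by ring
    rw [e3]

end Ln

end Pool.Agent.Helper24K9.EM
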