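import Mathlib
import Pool.Agent.Helper24K9.EP.Ft

set_option autoImplicit false

/-! Prime arguments: the final theorem. -/

open Finset Filter Topology

namespace Pool.Agent.Helper24K9.EM

open Pool.Agent.Erdos456 H343E Pool.Agent.W218.HF Pool.Agent.Helper24K9.EL

namespace Ln

variable (l : Ln)

/-- the range of `x` for general `g` -/
theorem rng_quad2 (ε : ℝ) (hε : 0 < ε) : l.Rng2 (fun K x => (l.g x : ℝ) ≤ (K:ℝ) ^ (1 / 2 - ε)) where
  block := l.block2 4 ε hε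
  mono := (l.rng_quad ε hε).mono
  le := (l.rng_quad ε hε).le

/-- the range of `x` for linear `g` -/
theorem rng_lin2 (hα : l.α = 0) : ∃ B : ℕ, l.Rng2 (fun K x => (l.g x : ℝ) * Real.log K ^ B ≤ K) := by
  obtain ⟨B, C₀, hC₀, hB⟩ := l.block_lin2 4 hα
  have hl1 : ∀ K : ℕ, 3 ≤ K → 1 ≤ Real.log K := by
    intro K hK
    have hK3 : (3:ℝ) ≤ K := by exact_mod_cast hK
    rw [Real.le_log_iff_exp_le (by linarith)]
    have := Real.exp_one_lt_d9
    linarith
  refine ⟨B + 2, ⟨C₀, hC₀, fun η hη hη2 => ?_⟩, ?_, ?_⟩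
  · obtain ⟨K₁, n₁, hn₁, h⟩ := hB η hη hη2
    refine ⟨max K₁ 3, n₁, hn₁, fun K hK n' n T h1 h2 h3 h4 h5 h6 => ?_⟩
    refine h K ((le_max_left _ _).trans hK) n' n T h1 h2 h3 (le_trans ?_ h4) h5 h6
    have h7 := hl1 K ((le_max_right _ _).trans hK)
    apply mul_le_mul_of_nonneg_left _ (Nat.cast_nonneg _)
    exact pow_le_pow_right₀ h7 (by omega)
  · intro K n x hn hnx h
    have : (l.g n : ℝ) ≤ l.g x := by exact_mod_cast l.g_le hn hnx
    refine le_trans ?_ h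
    apply mul_le_mul_of_nonneg_right this
    have : 0 ≤ Real.log K := by
      rcases Nat.eq_zero_or_pos K with hK | hK
      · rw [hK]; simp
      · exact Real.log_nonneg (by exact_mod_cast hK)
    positivity
  · intro M
    have h1 : Tendsto (fun n : ℕ => Real.log n) atTop atTop := Real.tendsto_log_atTop.comp tendsto_natCast_atTop_atTop
    obtain ⟨K₀, hK₀⟩ := eventually_atTop.1 ((h1.eventually_ge_atTop M).and (eventually_ge_atTop 3))
    refine ⟨K₀, fun K hK x h => le_trans ?_ h⟩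
    obtain ⟨h2, h3⟩ := hK₀ K hK
    have h4 := hl1 K h3
    have h5 : (0:ℝ) ≤ l.g x := Nat.cast_nonneg _
    calc (l.g x : ℝ) * Real.log K * M ≤ (l.g x : ℝ) * Real.log K * Real.log K := by
          apply mul_le_mul_of_nonneg_left h2
          positivity
      _ = l.g x * Real.log K ^ 2 := by ring
      _ ≤ l.g x * Real.log K ^ (B + 2) := by
          apply mul_le_mul_of_nonneg_left _ h5
          exact pow_le_pow_right₀ h4 (by omega)

lemma x_log : ∃ K₀ : ℕ, ∀ K : ℕ, K₀ ≤ K → ∀ x : ℕ, Real.log K * Real.log (Real.log K) ≤ x →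
    Real.log K ≤ x ∧ Real.log K ≤ 2 * (x / Real.log x) := by
  refine ⟨⌈Real.exp (Real.exp (Real.exp 1))⌉₊, fun K hK x hx => ?_⟩
  have h1 : Real.exp (Real.exp (Real.exp 1)) ≤ K := (Nat.le_ceil _).trans (by exact_mod_cast hK)
  have hK0 : (0:ℝ) < K := lt_of_lt_of_le (Real.exp_pos _) h1
  set L := Real.log K with hL
  have h2 : Real.exp (Real.exp 1) ≤ L := by
    rw [hL, Real.le_log_iff_exp_le hK0]; exact h1
  have hL0 : 0 < L := lt_of_lt_of_le (Real.exp_pos _) h2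
  set M := Real.log L with hM
  have h3 : Real.exp 1 ≤ M := by
    rw [hM, Real.le_log_iff_exp_le hL0]; exact h2
  have he : (1:ℝ) ≤ Real.exp 1 := Real.one_le_exp (by norm_num)
  have hM1 : 1 ≤ M := he.trans h3
  have hee : Real.exp 1 ≤ Real.exp (Real.exp 1) := Real.exp_le_exp.2 he
  have hLe : Real.exp 1 ≤ L := hee.trans h2
  have hLM : L ≤ L * M := le_mul_of_one_le_right hL0.le hM1
  have hu : Real.exp 1 ≤ L * M := hLe.trans hLM
  have hxe : Real.exp 1 ≤ (x:ℝ) := hu.trans hx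
  have hx0 : (0:ℝ) < x := lt_of_lt_of_le (Real.exp_pos _) hxe
  refine ⟨hLM.trans hx, ?_⟩
  have h4 := Real.log_div_self_antitoneOn (Set.mem_setOf.2 hu) (Set.mem_setOf.2 hxe) hx
  have hM0 : 0 < M := by linarith
  have h5 : Real.log (L * M) ≤ 2 * M := by
    rw [Real.log_mul hL0.ne' hM0.ne', ← hM]
    have h6 := Real.log_le_sub_one_of_pos hM0
    linarith
  have h6 : Real.log (L * M) / (L * M) ≤ 2 / L := by
    rw [div_le_div_iff₀ (by positivity) hL0]
    calc Real.log (L * M) * L ≤ (2 * M) * L := by gcongr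
      _ = _ := by ring
  have h7 : Real.log x / x ≤ 2 / L := h4.trans h6
  rw [div_le_div_iff₀ hx0 hL0] at h7
  have hlx : 0 < Real.log x := by
    apply Real.log_pos
    have := Real.add_one_lt_exp (show (1:ℝ) ≠ 0 by norm_num)
    linarith
  rw [← mul_div_assoc, le_div_iff₀ hlx]
  linarith

/-- sets of primes of positive relative density -/
theorem prime_args (Rg : ℕ → ℕ → Prop) (hR : l.Rng2 Rg) (δ κ : ℝ) (hδ : 0 < δ) (hκ : 0 < κ) (hκ1 : κ ≤ 1) :
    ∃ η : ℝ, 0 < η ∧ ∀ z : ℕ, ∃ K₀ : ℕ, ∀ K x : ℕ, K₀ ≤ K → Real.log K * Real.log (Real.log K) ≤ x → Rg K x →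
    ∀ T : Finset ℕ, T ⊆ Icc l.t0 x →
    (∀ t ∈ T, t.Prime ∧ IsCoprime (l.G t) (l.H t)) → δ * (x / Real.log x) ≤ T.card →
    η * K ≤ ((((Icc 1 K).filter (fun k : ℕ =>
      (1 - κ) * (l.unsieved z k T / Wz z) / Real.log (K * l.g x) ≤ l.numP k T ∧
      κ / 8 * T.card / Real.log K ≤ l.numP k T)).card : ℕ) : ℝ) := by
  obtain ⟨C₂, hC₂, hmain⟩ := l.main2
  obtain ⟨Λ₀, x₀, hΛ₀, hmom⟩ := l.mom_primes δ hδ
  set Λ : ℝ := max Λ₀ (2 / δ) with hΛd
  have hΛ : 1 ≤ Λ := hΛ₀.trans (le_max_left _ _)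
  obtain ⟨K₅, hK₅⟩ := x_log
  refine ⟨κ ^ 2 / (C₂ * Λ ^ 2), by positivity, fun z => ?_⟩
  obtain ⟨K₁, hK₁⟩ := hmain κ hκ hκ1 z
  obtain ⟨K₂, hK₂⟩ := l.first_total2 Rg hR (κ / 44) (by positivity) (by linarith) δ hδ
  have hSpos : (1:ℝ) ≤ l.S := by exact_mod_cast l.S_pos'
  obtain ⟨K₄, -, hK₄⟩ := hR.le1 (64 * l.S / κ)
  refine ⟨max (max K₁ K₂) (max (max K₄ K₅) ⌈Real.exp ((max x₀ l.t0 : ℕ) + 1)⌉₊), fun K x hK hxlog hRg T hT hTp hc2 => ?_⟩
  have h1 : K₁ ≤ K := ((le_max_left _ _).trans (le_max_left _ _)).trans hK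
  have h2 : K₂ ≤ K := ((le_max_right _ _).trans (le_max_left _ _)).trans hK
  have h4 : K₄ ≤ K := (((le_max_left _ _).trans (le_max_left _ _)).trans (le_max_right _ _)).trans hK
  have h4' : K₅ ≤ K := (((le_max_right _ _).trans (le_max_left _ _)).trans (le_max_right _ _)).trans hK
  have h5 : Real.exp ((max x₀ l.t0 : ℕ) + 1) ≤ K :=
    (Nat.le_ceil _).trans (by exact_mod_cast ((le_max_right _ _).trans (le_max_right _ _)).trans hK)
  have hK0 : (0:ℝ) < K := lt_of_lt_of_le (Real.exp_pos _) h5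
  have h6 : ((max x₀ l.t0 : ℕ) : ℝ) + 1 ≤ Real.log K := by
    rw [Real.le_log_iff_exp_le hK0]
    exact h5
  obtain ⟨hlx, hlx2⟩ := hK₅ K h4' x hxlog
  have hx : max x₀ l.t0 ≤ x := by
    have : ((max x₀ l.t0 : ℕ) : ℝ) ≤ x := by linarith
    exact_mod_cast this
  have hMo := hmom x T ((le_max_left _ _).trans hx) hT (fun t ht => (hTp t ht).1) hc2
  have hMo' : l.Mom T Λ := by
    have h7 : Λ₀ * T.card ≤ Λ * T.card := mul_le_mul_of_nonneg_right (le_max_left _ _) (Nat.cast_nonneg _)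
    exact ⟨hΛ, hMo.g.trans h7, fun s hs => (hMo.u s hs).trans h7, fun s hs => (hMo.v s hs).trans h7⟩
  have hlog : Real.log K ≤ Λ * T.card := by
    calc Real.log K ≤ 2 * (x / Real.log x) := hlx2
      _ = (2 / δ) * (δ * (x / Real.log x)) := by field_simp
      _ ≤ (2 / δ) * T.card := by gcongr
      _ ≤ Λ * T.card := mul_le_mul_of_nonneg_right (le_max_right _ _) (Nat.cast_nonneg _)
  have hF := hK₂ K h2 x T hlx hRg hT (fun t ht => (hTp t ht).2) (fun t ht => (hTp t ht).1) hc2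
  refine hK₁ K h1 x T Λ ((le_max_right _ _).trans hx) hlog hT (fun t ht => (hTp t ht).2) hMo' ?_ ?_
  · have h7 := (hK₄ K h4 x hRg).2
    have h8 : (l.g x : ℝ) * Real.log K * (64 * l.S / κ) = (64 * l.S * ((l.g x : ℝ) * Real.log K)) / κ := by ring
    rw [h8, div_le_iff₀ hκ] at h7
    linarith
  · have e : 1 - 11 * (κ / 44) = 1 - κ / 4 := by ring
    rw [e] at hF
    exact hF

end Ln

end Pool.Agent.Helper24K9.EM
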