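import Mathlib
import Pool.Agent.Helper24K9.EM.De
import Pool.Agent.Helper507.PNT
import Pool.Agent.W218.HF.First

set_option autoImplicit false

/-! Sums of `1/log` over primes. -/

open Finset Filter Topology

namespace Pool.Agent.Helper24K9.EM

open Pool.Agent.Erdos456 H343E Pool.Agent.W218.HF Pool.Agent.Helper24K9.EL

theorem pi_upper (ρ : ℝ) (hρ : 0 < ρ) : ∃ u₀ : ℝ, 2 ≤ u₀ ∧ ∀ u : ℝ, u₀ ≤ u →
    (((Icc 1 ⌊u⌋₊).filter Nat.Prime).card : ℝ) ≤ (1 + ρ) * (u / Real.log u) := by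
  have h := Helper507.PNT.pi_tendsto.eventually (Iic_mem_nhds (show (1:ℝ) < 1 + ρ by linarith))
  obtain ⟨x₀, hx₀⟩ := eventually_atTop.1 h
  refine ⟨max x₀ 2, le_max_right _ _, fun u hu => ?_⟩
  have h1 := hx₀ u ((le_max_left _ _).trans hu)
  have hu2 : 2 ≤ u := (le_max_right _ _).trans hu
  have hl : 0 < Real.log u := Real.log_pos (by linarith)
  replace h1 : (Nat.primeCounting ⌊u⌋₊ : ℝ) * Real.log u / u ≤ 1 + ρ := h1
  rw [div_le_iff₀ (by linarith)] at h1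
  have h2 := pi1_eq ⌊u⌋₊
  unfold pi1 at h2
  have h3 : (((Icc 1 ⌊u⌋₊).filter Nat.Prime).card : ℝ) = (Nat.primeCounting ⌊u⌋₊ : ℝ) := h2
  rw [h3, ← mul_div_assoc, le_div_iff₀ hl]
  exact h1

namespace Ln

variable (l : Ln)

/-- the sum of `1 / log` over primes -/
noncomputable def LSP (y k x : ℕ) : ℝ :=
  ∑ t ∈ (Ioc y x).filter (fun t : ℕ => t.Prime ∧ 2 ≤ (k : ℤ) * l.G t + l.H t),
    1 / Real.log (((k : ℤ) * l.G t + l.H t : ℤ) : ℝ)

lemma LSP_le (y : ℕ) (hy : l.t0 ≤ y) (ε : ℝ) (hε : 0 < ε) (hε1 : ε ≤ 1) (κ : ℝ) (hκ : 0 < κ) (hκ1 : κ ≤ ε / 64) :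
    ∃ K₀ : ℕ, ∀ K : ℕ, K₀ ≤ K → ∀ x k : ℕ, Real.log K ≤ x → l.t0 ≤ x → (l.g x : ℝ) ≤ K → 4 * l.S * x ≤ k →
    κ * K ≤ k → l.LSP y k x ≤ (1 + ε) * (x / Real.log x) / Real.log (K * l.g x) := by
  classical
  have hS0 : (0:ℝ) < l.S := by exact_mod_cast l.S_pos'
  set c : ℝ := κ / 2 * (κ ^ 2 / (2 * l.S)) with hc
  have hc0 : 0 < c := by rw [hc]; positivity
  obtain ⟨u₀, hu₀2, hu₀⟩ := pi_upper (ε / 8) (by positivity)
  have hlogt : Tendsto (fun n : ℕ => Real.log n) atTop atTop := Real.tendsto_log_atTop.comp tendsto_natCast_atTop_atTop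
  have hev : ∀ᶠ K : ℕ in atTop, 4 * |Real.log c| / ε ≤ Real.log K ∧ 4 * |Real.log (κ / 2)| ≤ Real.log K ∧
      1 ≤ Real.log K ∧ 1 ≤ K ∧ u₀ / κ ≤ Real.log K ∧ 1 / κ ^ 2 ≤ Real.log K ∧ 3 ≤ Real.log K := by
    filter_upwards [hlogt.eventually_ge_atTop _, hlogt.eventually_ge_atTop _, hlogt.eventually_ge_atTop 1,
      eventually_ge_atTop 1, hlogt.eventually_ge_atTop _, hlogt.eventually_ge_atTop _,
      hlogt.eventually_ge_atTop 3] with K h1 h2 h3 h4 h5 h6 h7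
    exact ⟨h1, h2, h3, h4, h5, h6, h7⟩
  obtain ⟨K₀, hK₀⟩ := eventually_atTop.1 hev
  refine ⟨K₀, fun K hK x k hxK hx hgx hk hkK => ?_⟩
  obtain ⟨e1, e2, e3, e4, e5, e6, e7⟩ := hK₀ K hK
  have hK0 : (0:ℝ) < K := by exact_mod_cast e4
  have hgx1 : (1:ℝ) ≤ l.g x := by exact_mod_cast l.g_pos hx
  have hgx0 : (0:ℝ) < l.g x := by linarith
  have hgG : ((l.g x : ℕ) : ℝ) = (l.G x : ℝ) := by
    have := l.g_cast hx
    exact_mod_cast congrArg (fun z : ℤ => (z : ℝ)) this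
  set L : ℝ := Real.log (K * l.g x) with hL
  have hL1 : Real.log K ≤ L := by
    apply Real.log_le_log hK0
    have := mul_le_mul_of_nonneg_left hgx1 hK0.le
    linarith
  have hL2 : L ≤ 2 * Real.log K := by
    rw [hL, Real.log_mul hK0.ne' hgx0.ne']
    have := Real.log_le_log hgx0 hgx
    linarith
  have hL0 : 0 < L := by linarith
  have hx3 : (3:ℝ) ≤ x := e7.trans hxK
  have hx0 : (0:ℝ) < x := by linarith
  have hlx : 0 < Real.log x := Real.log_pos (by linarith)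
  have hval : ∀ t ∈ Ioc y x, (κ / 2 * K) * (l.G t : ℝ) ≤ (((k : ℤ) * l.G t + l.H t : ℤ) : ℝ) := by
    intro t ht
    have ht0 : l.t0 ≤ t := hy.trans (mem_Ioc.1 ht).1.le
    have h1 := l.val_ge ht0 ((Nat.mul_le_mul_left _ (mem_Ioc.1 ht).2).trans hk)
    have h1r : (k : ℝ) * l.G t ≤ 2 * (((k : ℤ) * l.G t + l.H t : ℤ) : ℝ) := by exact_mod_cast h1
    have hG1 : (1:ℝ) ≤ l.G t := by exact_mod_cast l.G_pos ht0
    have h2 : (κ * K) * (l.G t : ℝ) ≤ k * l.G t := by gcongr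
    linarith
  have hbig : ∀ t ∈ Ioc y x, κ * x ≤ t → 1 / Real.log (((k : ℤ) * l.G t + l.H t : ℤ) : ℝ) ≤ (1 + ε / 2) / L := by
    intro t ht htx
    have ht0 : l.t0 ≤ t := hy.trans (mem_Ioc.1 ht).1.le
    have h1 := l.G_comp ht0 (mem_Ioc.1 ht).2 κ hκ (by linarith) htx
    have h2 : c * (K * l.g x) ≤ (((k : ℤ) * l.G t + l.H t : ℤ) : ℝ) := by
      refine le_trans ?_ (hval t ht)
      rw [hgG, hc]
      calc κ / 2 * (κ ^ 2 / (2 * l.S)) * (K * (l.G x : ℝ)) = (κ / 2 * K) * (κ ^ 2 / (2 * l.S) * (l.G x : ℝ)) := by ring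
        _ ≤ _ := by gcongr
    have h3 : Real.log c + L ≤ Real.log (((k : ℤ) * l.G t + l.H t : ℤ) : ℝ) := by
      rw [hL, ← Real.log_mul hc0.ne' (by positivity)]
      exact Real.log_le_log (by positivity) h2
    have h4 : -(ε / 4 * L) ≤ Real.log c := by
      have h5 := neg_abs_le (Real.log c)
      rw [div_le_iff₀ hε] at e1
      nlinarith
    have h5 : (1 - ε / 4) * L ≤ Real.log (((k : ℤ) * l.G t + l.H t : ℤ) : ℝ) := by linarith
    have h6 : 0 < (1 - ε / 4) * L := mul_pos (by linarith) hL0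
    calc 1 / Real.log (((k : ℤ) * l.G t + l.H t : ℤ) : ℝ) ≤ 1 / ((1 - ε / 4) * L) :=
          one_div_le_one_div_of_le h6 h5
      _ ≤ (1 + ε / 2) / L := by
          rw [div_le_div_iff₀ h6 hL0, one_mul]
          have h7 : 1 ≤ (1 + ε / 2) * (1 - ε / 4) := by nlinarith
          calc L = 1 * L := (one_mul L).symm
            _ ≤ ((1 + ε / 2) * (1 - ε / 4)) * L := mul_le_mul_of_nonneg_right h7 hL0.le
            _ = _ := by ring
  have hsmall : ∀ t ∈ Ioc y x, 1 / Real.log (((k : ℤ) * l.G t + l.H t : ℤ) : ℝ) ≤ 4 / L := by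
    intro t ht
    have ht0 : l.t0 ≤ t := hy.trans (mem_Ioc.1 ht).1.le
    have hG1 : (1:ℝ) ≤ l.G t := by exact_mod_cast l.G_pos ht0
    have h2 : (κ / 2) * K ≤ (((k : ℤ) * l.G t + l.H t : ℤ) : ℝ) := by
      refine le_trans ?_ (hval t ht)
      exact le_mul_of_one_le_right (by positivity) hG1
    have h3 : Real.log (κ / 2) + Real.log K ≤ Real.log (((k : ℤ) * l.G t + l.H t : ℤ) : ℝ) := by
      rw [← Real.log_mul (by positivity) (by positivity)]
      exact Real.log_le_log (by positivity) h2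
    have h4 := neg_abs_le (Real.log (κ / 2))
    have h5 : L / 4 ≤ Real.log (((k : ℤ) * l.G t + l.H t : ℤ) : ℝ) := by linarith
    calc 1 / Real.log (((k : ℤ) * l.G t + l.H t : ℤ) : ℝ) ≤ 1 / (L / 4) :=
          one_div_le_one_div_of_le (by positivity) h5
      _ = 4 / L := by field_simp
  have hpt : ∀ t ∈ (Ioc y x).filter (fun t : ℕ => t.Prime ∧ 2 ≤ (k : ℤ) * l.G t + l.H t),
      1 / Real.log (((k : ℤ) * l.G t + l.H t : ℤ) : ℝ) ≤
      (1 + ε / 2) / L + (if (t:ℝ) < κ * x then 4 / L else 0) := by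
    intro t ht
    rw [mem_filter] at ht
    split_ifs with h
    · have h1 := hsmall t ht.1
      have h2 : 0 ≤ (1 + ε / 2) / L := by positivity
      linarith
    · rw [add_zero]
      exact hbig t ht.1 (not_lt.1 h)
  unfold LSP
  refine (sum_le_sum hpt).trans ?_
  rw [sum_add_distrib, sum_const, nsmul_eq_mul, ← sum_filter, sum_const, nsmul_eq_mul]
  set F := (Ioc y x).filter (fun t : ℕ => t.Prime ∧ 2 ≤ (k : ℤ) * l.G t + l.H t) with hF
  have hκ1' : κ ≤ 1 := by linarith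
  have e5' : u₀ ≤ κ * x := by
    rw [div_le_iff₀ hκ] at e5
    calc u₀ ≤ Real.log K * κ := e5
      _ ≤ x * κ := by gcongr
      _ = _ := by ring
  have hc1 : (#F : ℝ) ≤ (1 + ε / 8) * (x / Real.log x) := by
    have h1 := hu₀ x (by nlinarith)
    rw [Nat.floor_natCast] at h1
    refine le_trans ?_ h1
    have : F ⊆ (Icc 1 x).filter Nat.Prime := by
      intro t ht
      rw [hF, mem_filter, mem_Ioc] at ht
      rw [mem_filter, mem_Icc]
      exact ⟨⟨ht.2.1.one_le, ht.1.2⟩, ht.2.1⟩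
    exact_mod_cast card_le_card this
  have hc2 : (#(F.filter (fun t : ℕ => (t:ℝ) < κ * x)) : ℝ) ≤ 4 * κ * (x / Real.log x) := by
    have h1 := hu₀ (κ * x) e5'
    have h2 : F.filter (fun t : ℕ => (t:ℝ) < κ * x) ⊆ (Icc 1 ⌊κ * (x:ℝ)⌋₊).filter Nat.Prime := by
      intro t ht
      rw [mem_filter, hF, mem_filter] at ht
      rw [mem_filter, mem_Icc]
      exact ⟨⟨ht.1.2.1.one_le, Nat.le_floor ht.2.le⟩, ht.1.2.1⟩
    have h3 : (#(F.filter (fun t : ℕ => (t:ℝ) < κ * x)) : ℝ) ≤ (((Icc 1 ⌊κ * (x:ℝ)⌋₊).filter Nat.Prime).card : ℝ) := by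
      exact_mod_cast card_le_card h2
    have h4 : Real.log x / 2 ≤ Real.log (κ * x) := by
      have h5 : (x:ℝ) ≤ (κ * x) ^ 2 := by
        have h6 : 1 ≤ κ ^ 2 * x := by
          rw [div_le_iff₀ (by positivity)] at e6
          calc (1:ℝ) ≤ Real.log K * κ ^ 2 := e6
            _ ≤ x * κ ^ 2 := by gcongr
            _ = _ := by ring
        calc (x:ℝ) = 1 * x := (one_mul _).symm
          _ ≤ (κ ^ 2 * x) * x := by gcongr
          _ = _ := by ring
      have h7 := Real.log_le_log hx0 h5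
      rw [Real.log_pow] at h7
      push_cast at h7
      linarith
    calc _ ≤ (1 + ε / 8) * (κ * x / Real.log (κ * x)) := h3.trans h1
      _ ≤ 2 * (κ * x / (Real.log x / 2)) := by
          apply mul_le_mul (by linarith) _ (by
            apply div_nonneg (by positivity)
            linarith) (by norm_num)
          apply div_le_div_of_nonneg_left (by positivity) (by positivity) h4
      _ = _ := by field_simp; ring
  have hD0 : 0 ≤ (x:ℝ) / Real.log x / L := by positivity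
  calc (#F : ℝ) * ((1 + ε / 2) / L) + (#(F.filter (fun t : ℕ => (t:ℝ) < κ * x)) : ℝ) * (4 / L)
      ≤ ((1 + ε / 8) * (x / Real.log x)) * ((1 + ε / 2) / L) + (4 * κ * (x / Real.log x)) * (4 / L) := by gcongr
    _ = ((1 + ε / 8) * (1 + ε / 2) + 16 * κ) * (x / Real.log x / L) := by ring
    _ ≤ (1 + ε) * (x / Real.log x / L) := by
        apply mul_le_mul_of_nonneg_right _ hD0
        nlinarith
    _ = _ := by ring

end Ln

end Pool.Agent.Helper24K9.EM
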