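import Mathlib
import Pool.Agent.Helper24K9.EP.Dp
import Pool.Agent.Helper24K9.EP.LS
import Pool.Agent.Helper24K9.EP.Fin
import Pool.Agent.Helper24K9.EL.Tc

set_option autoImplicit false

/-! Prime values at primes, on average along a line of coefficients, with the full constant. -/

open Finset Filter Topology

namespace Pool.Agent.Helper24K9.EM

open Pool.Agent.Erdos456 H343E Pool.Agent.W218.HF Pool.Agent.W468.ConjF Pool.Agent.Helper24K9.EL Pool.Agent.Helper24K9.EP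

namespace Ln

variable (l : Ln)

/-- the number of the primes `t ∈ (t₀, x]` with `k g(t) + h(t)` prime -/
noncomputable def NPP (k x : ℕ) : ℕ :=
  #((Ioc l.t0 x).filter (fun t : ℕ => t.Prime ∧ ((k : ℤ) * l.G t + l.H t).toNat.Prime))

/-- no prime divides all three coefficients -/
def Prim (a b c : ℤ) : Prop := ∀ p : ℕ, p.Prime → ¬ ((p : ℤ) ∣ a ∧ (p : ℤ) ∣ b ∧ (p : ℤ) ∣ c)

lemma DS_sign (s c : ℤ) (hs : s * s = 1) (z N : ℕ) : DS (s * c) z N = DS c z N := by
  unfold DS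
  congr 1
  apply filter_congr
  intro p _
  constructor
  · rintro ⟨h1, h2⟩
    refine ⟨h1, ?_⟩
    have h3 := Dvd.dvd.mul_left h2 s
    rwa [← mul_assoc, hs, one_mul] at h3
  · rintro ⟨h1, h2⟩
    exact ⟨h1, Dvd.dvd.mul_left h2 s⟩

open Classical in
theorem fullP (hadm : l.AdmP) (Rg : ℕ → ℕ → Prop) (hRg : l.Rng2 Rg) (θ : ℝ) (hθ : θ < 1) : ∃ κ : ℝ, 0 < κ ∧ ∃ K₀ : ℕ,
    ∀ K : ℕ, K₀ ≤ K → ∀ x : ℕ, Real.log K * Real.log (Real.log K) ≤ x → Rg K x →
    κ * K ≤ (#((Icc 1 K).filter (fun k : ℕ =>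
      κ * K ≤ k ∧ Prim (l.a + l.α * k) (l.b + l.β * k) (l.c + l.γ * k) ∧
      ¬ IsSquare ((l.b + l.β * k) ^ 2 - 4 * (l.a + l.α * k) * (l.c + l.γ * k)) ∧ ∃ S : ℝ, 0 < S ∧
      Tendsto (PC (l.a + l.α * k) (l.b + l.β * k) (l.c + l.γ * k)) atTop (𝓝 S) ∧
      θ * S * l.LSP l.t0 k x ≤ l.NPP k x ∧
      κ * (x / Real.log x) / Real.log K ≤ l.NPP k x)) : ℝ) := by
  obtain ⟨δ, hδ, hdens⟩ := l.densP hadm
  -- the constants
  set θ₀ : ℝ := max θ (1 / 2) with hθ₀
  have hθ0 : 1 / 2 ≤ θ₀ := le_max_right _ _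
  have hθ1 : θ₀ < 1 := max_lt hθ (by norm_num)
  have hθθ : θ ≤ θ₀ := le_max_left _ _
  set θ₁ : ℝ := (1 + θ₀) / 2 with hθ₁
  have hθ₁1 : θ₁ < 1 := by rw [hθ₁]; linarith
  have hθ₀₁ : θ₀ < θ₁ := by rw [hθ₁]; linarith
  set r : ℝ := θ₁ / θ₀ with hr
  have hr1 : 1 < r := by rw [hr, one_lt_div (by linarith)]; exact hθ₀₁
  have hlr : 0 < Real.log r := Real.log_pos hr1
  have hr2 : r ≤ 2 := by
    rw [hr, div_le_iff₀ (by linarith)]; linarith
  set ρ : ℝ := Real.log r / 10 with hρ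
  have hρ0 : 0 < ρ := by rw [hρ]; positivity
  have hρ1 : ρ ≤ 1 / 10 := by
    have h1 : Real.log r ≤ Real.log 2 := Real.log_le_log (by linarith) hr2
    have := Real.log_two_lt_d9
    rw [hρ]; linarith
  have hexp : Real.exp (6 * ρ) * (1 + ρ) ≤ r * (1 - ρ) := by
    have h1 : 1 + ρ ≤ Real.exp ρ := by have := Real.add_one_le_exp ρ; linarith
    have h2 : Real.exp (-(2 * ρ)) ≤ 1 - ρ := by
      have h3 : 1 + 2 * ρ ≤ Real.exp (2 * ρ) := by have := Real.add_one_le_exp (2 * ρ); linarith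
      rw [Real.exp_neg, inv_le_comm₀ (Real.exp_pos _) (by linarith)]
      refine le_trans ?_ h3
      rw [inv_le_iff_one_le_mul₀ (by linarith)]
      nlinarith
    calc Real.exp (6 * ρ) * (1 + ρ) ≤ Real.exp (6 * ρ) * Real.exp ρ := by gcongr
      _ = Real.exp (7 * ρ) := by rw [← Real.exp_add]; congr 1; ring
      _ ≤ Real.exp (10 * ρ + -(2 * ρ)) := Real.exp_le_exp.2 (by linarith)
      _ = r * Real.exp (-(2 * ρ)) := by
          rw [Real.exp_add]
          have : 10 * ρ = Real.log r := by rw [hρ]; ring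
          rw [this, Real.exp_log (by linarith)]
      _ ≤ r * (1 - ρ) := by gcongr
  obtain ⟨η, hη, hmain⟩ := l.prime_args Rg hRg δ (1 - θ₁) hδ (by linarith) (by linarith)
  -- the discriminant
  set U : ℤ := l.β ^ 2 - 4 * l.α * l.γ with hU
  set V : ℤ := 2 * l.b * l.β - 4 * (l.a * l.γ + l.α * l.c) with hV
  set W : ℤ := l.b ^ 2 - 4 * l.a * l.c with hW
  have hUVW : V ^ 2 - 4 * U * W ≠ 0 := by
    have : V ^ 2 - 4 * U * W = 16 * l.R := by rw [hU, hV, hW]; unfold R A B C; ring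
    rw [this]
    exact mul_ne_zero (by norm_num) l.R_ne
  have hdisc : ∀ k : ℕ, (l.b + l.β * k) ^ 2 - 4 * (l.a + l.α * k) * (l.c + l.γ * k) = QD U V W k := by
    intro k; rw [hU, hV, hW]; unfold QD; ring
  obtain ⟨z₁, hz₁⟩ := good_mostD U V W hUVW ρ (η / 8) hρ0 (by positivity)
  have hss := l.sg_sq
  have hsα := l.sg_α
  obtain ⟨z₂, hz₂⟩ := DS_most (l.sg * l.a) l.α (by
    rcases l.hg with h | ⟨h1, _, h3⟩
    · exact Or.inl h
    · refine Or.inr ⟨h1, ?_⟩
      unfold sg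
      split_ifs with h
      · linarith [h.2]
      · rw [one_mul]
        rcases lt_or_gt_of_ne h3 with h4 | h4
        · exact absurd ⟨h1, h4⟩ h
        · exact h4) ρ (η / 8) hρ0 (by positivity)
  -- the sign of the constant coefficients
  obtain ⟨s, hs, hsc⟩ : ∃ s : ℤ, s * s = 1 ∧ (0 < s * l.γ ∨ (s * l.γ = 0 ∧ 0 < s * l.c)) := by
    rcases lt_trichotomy l.γ 0 with h | h | h
    · exact ⟨-1, by norm_num, Or.inl (by linarith)⟩
    · have hc : l.c ≠ 0 := by
        intro hc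
        apply l.R_ne
        unfold R A B C
        rw [h, hc]; ring
      rcases lt_or_gt_of_ne hc with h2 | h2
      · exact ⟨-1, by norm_num, Or.inr ⟨by rw [h]; norm_num, by linarith⟩⟩
      · exact ⟨1, by norm_num, Or.inr ⟨by rw [h]; norm_num, by linarith⟩⟩
    · exact ⟨1, by norm_num, Or.inl (by linarith)⟩
  obtain ⟨z₃, hz₃⟩ := DS_most (s * l.c) (s * l.γ) hsc ρ (η / 8) hρ0 (by positivity)
  -- the sieving limit
  set z : ℕ := max (max (max z₁ z₂) (max z₃ l.t0)) (max (max 4 l.R.natAbs) ⌈40 / ρ⌉₊) with hz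
  have hzz₁ : z₁ ≤ z := ((le_max_left _ _).trans (le_max_left _ _)).trans (le_max_left _ _)
  have hzz₂ : z₂ ≤ z := ((le_max_right _ _).trans (le_max_left _ _)).trans (le_max_left _ _)
  have hzz₃ : z₃ ≤ z := ((le_max_left _ _).trans (le_max_right _ _)).trans (le_max_left _ _)
  have hzt0 : l.t0 ≤ z := ((le_max_right _ _).trans (le_max_right _ _)).trans (le_max_left _ _)
  have hz4 : 4 ≤ z := ((le_max_left _ _).trans (le_max_left _ _)).trans (le_max_right _ _)
  have hzR : l.R.natAbs ≤ z := ((le_max_right _ _).trans (le_max_left _ _)).trans (le_max_right _ _)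
  have hzρ : 40 / ρ ≤ z := (Nat.le_ceil _).trans (by exact_mod_cast (le_max_right _ _).trans (le_max_right _ _))
  have hz0 : (0 : ℝ) < z := by exact_mod_cast (by omega : 0 < z)
  have hzρ' : 40 / (z : ℝ) ≤ ρ := by
    rw [div_le_iff₀ hz0]
    rw [div_le_iff₀ hρ0] at hzρ
    linarith
  obtain ⟨K₁, hK₁⟩ := hmain z
  obtain ⟨H₁, hH₁⟩ := hz₁ z hzz₁
  obtain ⟨H₂, hH₂⟩ := hz₂ z hzz₂
  obtain ⟨H₃, hH₃⟩ := hz₃ z hzz₃
  obtain ⟨x₁, hx₁⟩ := hdens z
  obtain ⟨x₂, hx₂⟩ := rough_primes z ρ hρ0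
  obtain ⟨K₅, hK₅⟩ := x_log
  set κ₁ : ℝ := min (ρ / 64) (η / 8) with hκ₁
  have hκ₁0 : 0 < κ₁ := by rw [hκ₁]; positivity
  obtain ⟨K₂, hK₂⟩ := l.LSP_le l.t0 le_rfl ρ hρ0 (by linarith) κ₁ hκ₁0 (min_le_left _ _)
  obtain ⟨K₄, hK₄3, hK₄⟩ := hRg.le1 (8 * l.S / κ₁)
  obtain ⟨K₃, hK₃⟩ : ∃ K₃ : ℕ, ∀ K : ℕ, K₃ ≤ K → ((max (max x₁ x₂) (max z 3) : ℕ) : ℝ) ≤ Real.log K ∧ 1 ≤ K := by
    have h1 : Tendsto (fun n : ℕ => Real.log n) atTop atTop := Real.tendsto_log_atTop.comp tendsto_natCast_atTop_atTop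
    exact eventually_atTop.1 ((h1.eventually_ge_atTop _).and (eventually_ge_atTop 1))
  set κ₂ : ℝ := (1 - θ₁) / 8 * δ with hκ₂
  have hκ₂0 : 0 < κ₂ := by rw [hκ₂]; apply mul_pos _ hδ; linarith
  refine ⟨min (min (η / 2) κ₁) κ₂, by positivity, max (max (max K₁ K₂) (max H₁ H₂)) (max (max K₃ K₄) (max H₃ K₅)),
    fun K hK x hx1 hx2 => ?_⟩
  have hKK₁ : K₁ ≤ K := (((le_max_left _ _).trans (le_max_left _ _)).trans (le_max_left _ _)).trans hK
  have hKK₂ : K₂ ≤ K := (((le_max_right _ _).trans (le_max_left _ _)).trans (le_max_left _ _)).trans hK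
  have hKH₁ : H₁ ≤ K := (((le_max_left _ _).trans (le_max_right _ _)).trans (le_max_left _ _)).trans hK
  have hKH₂ : H₂ ≤ K := (((le_max_right _ _).trans (le_max_right _ _)).trans (le_max_left _ _)).trans hK
  have hKK₃ : K₃ ≤ K := (((le_max_left _ _).trans (le_max_left _ _)).trans (le_max_right _ _)).trans hK
  have hKK₄ : K₄ ≤ K := (((le_max_right _ _).trans (le_max_left _ _)).trans (le_max_right _ _)).trans hK
  have hKH₃ : H₃ ≤ K := (((le_max_left _ _).trans (le_max_right _ _)).trans (le_max_right _ _)).trans hK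
  have hKK₅ : K₅ ≤ K := (((le_max_right _ _).trans (le_max_right _ _)).trans (le_max_right _ _)).trans hK
  obtain ⟨hlX, hK1⟩ := hK₃ K hKK₃
  obtain ⟨hxK, -⟩ := hK₅ K hKK₅ x hx1
  have hK1r : (1:ℝ) ≤ K := by exact_mod_cast hK1
  have hK0 : (0:ℝ) < K := by linarith
  have hxbig : max (max x₁ x₂) (max z 3) ≤ x := by
    have : ((max (max x₁ x₂) (max z 3) : ℕ) : ℝ) ≤ x := hlX.trans hxK
    exact_mod_cast this
  have hxx₁ : x₁ ≤ x := ((le_max_left _ _).trans (le_max_left _ _)).trans hxbig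
  have hxx₂ : x₂ ≤ x := ((le_max_right _ _).trans (le_max_left _ _)).trans hxbig
  have hxz : z ≤ x := ((le_max_left _ _).trans (le_max_right _ _)).trans hxbig
  have hx3 : 3 ≤ x := ((le_max_right _ _).trans (le_max_right _ _)).trans hxbig
  have hx3r : (3:ℝ) ≤ x := by exact_mod_cast hx3
  have hlK1 : 3 ≤ Real.log K := by
    refine le_trans ?_ hlX
    have : 3 ≤ max (max x₁ x₂) (max z 3) := (le_max_right _ _).trans (le_max_right _ _)
    exact_mod_cast this
  have hlK0 : 0 < Real.log K := by linarith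
  have hlx0 : 0 < Real.log x := Real.log_pos (by linarith)
  set D : ℝ := x / Real.log x with hD
  have hD0 : 0 < D := by rw [hD]; positivity
  have ht0x : l.t0 ≤ x := hzt0.trans hxz
  set T : Finset ℕ := l.TP z x with hT
  have hTcard : δ * D ≤ T.card := hx₁ x hxx₁
  have hTI : T ⊆ Icc l.t0 x := fun t ht => by
    rw [hT, TP, mem_filter, mem_Ioc] at ht
    exact mem_Icc.2 ⟨by omega, ht.1.2⟩
  have hTp : ∀ t ∈ T, t.Prime ∧ IsCoprime (l.G t) (l.H t) := fun t ht => by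
    rw [hT, TP, mem_filter] at ht
    exact ht.2
  have hA := hK₁ K x hKK₁ hx1 hx2 T hTI hTp hTcard
  rw [show (1:ℝ) - (1 - θ₁) = θ₁ by ring] at hA
  have hgx1 : (1:ℝ) ≤ l.g x := by exact_mod_cast l.g_pos ht0x
  have hgx0 : (0:ℝ) < l.g x := by linarith
  obtain ⟨hgxK, hgxM⟩ := hK₄ K hKK₄ x hx2
  have hSx : (4 * l.S * x : ℝ) ≤ κ₁ * K := by
    have hx2g : (x : ℝ) ≤ 2 * l.g x := by
      have h1 := l.two_G_ge ht0x
      rw [← l.g_cast ht0x] at h1
      exact_mod_cast h1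
    have h1 : (l.g x : ℝ) * Real.log K * (8 * l.S / κ₁) = (8 * l.S * ((l.g x : ℝ) * Real.log K)) / κ₁ := by ring
    rw [h1, div_le_iff₀ hκ₁0] at hgxM
    have hSpos : (1:ℝ) ≤ l.S := by exact_mod_cast l.S_pos'
    have hgl : (l.g x : ℝ) ≤ l.g x * Real.log K := le_mul_of_one_le_right hgx0.le (by linarith)
    have h3 : (l.S : ℝ) * (x:ℝ) ≤ l.S * (2 * l.g x) := mul_le_mul_of_nonneg_left hx2g (by linarith)
    have h4 : (l.S : ℝ) * (l.g x : ℝ) ≤ l.S * (l.g x * Real.log K) := mul_le_mul_of_nonneg_left hgl (by linarith)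
    linarith
  set L : ℝ := Real.log (K * l.g x) with hL
  have hL1 : Real.log K ≤ L := by
    apply Real.log_le_log hK0
    have := mul_le_mul_of_nonneg_left hgx1 hK0.le
    linarith
  have hL0 : 0 < L := by linarith
  obtain ⟨E1, hE1c, hE1⟩ := hH₁ K hKH₁
  obtain ⟨E2, hE2c, hE2⟩ := hH₂ K hKH₂
  obtain ⟨E3, hE3c, hE3⟩ := hH₃ K hKH₃
  set A := (Icc 1 K).filter (fun k : ℕ =>
      θ₁ * (l.unsieved z k T / Wz z) / L ≤ l.numP k T ∧
      (1 - θ₁) / 8 * T.card / Real.log K ≤ l.numP k T) with hAdef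
  set S₀ := (Icc 1 K).filter (fun k : ℕ => (k : ℝ) < κ₁ * K) with hS₀
  have hS₀c : (#S₀ : ℝ) ≤ η / 8 * K := by
    have h1 : S₀ ⊆ Icc 1 ⌊κ₁ * (K:ℝ)⌋₊ := by
      intro k hk
      rw [hS₀, mem_filter, mem_Icc] at hk
      exact mem_Icc.2 ⟨hk.1.1, Nat.le_floor hk.2.le⟩
    have h2 := card_le_card h1
    rw [Nat.card_Icc, Nat.add_sub_cancel] at h2
    have h3 : (#S₀ : ℝ) ≤ (⌊κ₁ * (K:ℝ)⌋₊ : ℝ) := by exact_mod_cast h2
    have h4 : (⌊κ₁ * (K:ℝ)⌋₊ : ℝ) ≤ κ₁ * K := Nat.floor_le (by positivity)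
    have h5 : κ₁ * (K:ℝ) ≤ η / 8 * K := by
      apply mul_le_mul_of_nonneg_right (min_le_right _ _) hK0.le
    linarith
  have hcount : η / 2 * K ≤ (#(A \ (((E1 ∪ E2) ∪ E3) ∪ S₀)) : ℝ) := by
    have h1 : #A ≤ #(A \ (((E1 ∪ E2) ∪ E3) ∪ S₀)) + #(((E1 ∪ E2) ∪ E3) ∪ S₀) := card_le_card_sdiff_add_card
    have h2 : #(((E1 ∪ E2) ∪ E3) ∪ S₀) ≤ ((#E1 + #E2) + #E3) + #S₀ :=
      (card_union_le _ _).trans (Nat.add_le_add_right ((card_union_le _ _).trans
        (Nat.add_le_add_right (card_union_le _ _) _)) _)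
    have h3 : (#A : ℝ) ≤ #(A \ (((E1 ∪ E2) ∪ E3) ∪ S₀)) + (((#E1 + #E2) + #E3) + #S₀) := by
      exact_mod_cast h1.trans (Nat.add_le_add_left h2 _)
    linarith
  have hκη : min (min (η / 2) κ₁) κ₂ ≤ η / 2 := (min_le_left _ _).trans (min_le_left _ _)
  have hκκ₁ : min (min (η / 2) κ₁) κ₂ ≤ κ₁ := (min_le_left _ _).trans (min_le_right _ _)
  have hκκ₂ : min (min (η / 2) κ₁) κ₂ ≤ κ₂ := min_le_right _ _
  refine ((mul_le_mul_of_nonneg_right hκη hK0.le).trans hcount).trans ?_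
  apply Nat.cast_le.2
  apply card_le_card
  intro k hk
  rw [Finset.mem_sdiff, mem_union, mem_union, mem_union, not_or, not_or, not_or] at hk
  obtain ⟨hkA, ⟨⟨hkE1, hkE2⟩, hkE3⟩, hkS⟩ := hk
  rw [hAdef, mem_filter] at hkA
  obtain ⟨hkI, hmain1, hmain2⟩ := hkA
  obtain ⟨hsq, hSJ⟩ := hE1 k hkI hkE1
  obtain ⟨hpos, hDS⟩ := hE2 k hkI hkE2
  obtain ⟨hposc, hDSc⟩ := hE3 k hkI hkE3
  have hk1 : κ₁ * K ≤ k := by
    by_contra hcon
    apply hkS
    rw [hS₀, mem_filter]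
    exact ⟨hkI, not_le.1 hcon⟩
  have hk4 : 4 * l.S * x ≤ k := by
    have : (4 * l.S * x : ℝ) ≤ k := hSx.trans hk1
    exact_mod_cast this
  -- a prime value
  have hTc0 : (0:ℝ) < T.card := lt_of_lt_of_le (by positivity) hTcard
  have hposn : 0 < l.numP k T := by
    have h1 : 0 < (1 - θ₁) / 8 * T.card / Real.log K := by
      apply div_pos _ hlK0
      apply mul_pos _ hTc0
      linarith
    have h2 : (0 : ℝ) < l.numP k T := lt_of_lt_of_le h1 hmain2
    exact_mod_cast h2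
  unfold numP at hposn
  obtain ⟨t, ht⟩ := card_pos.1 hposn
  rw [mem_filter] at ht
  have htt0 : l.t0 ≤ t := (mem_Icc.1 (hTI ht.1)).1
  have htz : z < t := by
    have h1 := ht.1
    rw [hT, TP, mem_filter, mem_Ioc] at h1
    exact h1.1.1
  have htp : t.Prime := (hTp t ht.1).1
  have hsq' : ¬ IsSquare ((l.b + l.β * k) ^ 2 - 4 * (l.a + l.α * k) * (l.c + l.γ * k)) := by
    rw [hdisc]; exact hsq
  have htx : t ≤ x := (mem_Icc.1 (hTI ht.1)).2
  have esa : l.sg * l.a + l.α * k = l.sg * (l.a + l.α * k) := by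
    rw [mul_add, ← mul_assoc, hsα]
  rw [esa] at hpos hDS
  have esc : s * l.c + s * l.γ * k = s * (l.c + l.γ * k) := by ring
  rw [esc] at hposc hDSc
  have hadmk := l.adm_of ((Nat.mul_le_mul_left _ htx).trans hk4) htt0 ht.2 hpos hsq'
  set a' : ℤ := l.a + l.α * k with ha'
  set b' : ℤ := l.b + l.β * k with hb'
  set c' : ℤ := l.c + l.γ * k with hc'
  have hprim : Prim a' b' c' := by
    rintro p hp ⟨h1, h2, h3⟩
    have h4 := hadmk.2.1 (p : ℤ) (Dvd.dvd.mul_left h1 _) (Dvd.dvd.mul_left h2 _) (Dvd.dvd.mul_left h3 _)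
    rw [Int.isUnit_iff] at h4
    have := hp.two_le
    omega
  have ha0 : a' ≠ 0 := by
    intro h
    rw [h, mul_zero] at hpos
    exact lt_irrefl _ hpos
  have hc0 : c' ≠ 0 := by
    intro h
    rw [h, mul_zero] at hposc
    exact lt_irrefl _ hposc
  have hpoly : ∀ t : ℕ, a' * (t : ℤ) ^ 2 + b' * t + c' = (k : ℤ) * l.G t + l.H t := by
    intro t; rw [ha', hb', hc']; unfold G H; ring
  -- the cut product is positive
  have hPCz : 0 < PC a' b' c' z := by
    unfold PC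
    apply prod_pos
    intro q hq
    rw [mem_filter, mem_Icc] at hq
    have hq1 : (1:ℝ) < q := by exact_mod_cast hq.2.one_lt
    unfold fac
    apply div_pos
    · have hnu : nu a' b' c' q + 1 ≤ q - 1 := by
        -- the class of `t`
        have hqt : ¬ q ∣ t := by
          intro h
          have := (Nat.prime_dvd_prime_iff_eq hq.2 htp).1 h
          omega
        have hv : ¬ (q : ℤ) ∣ a' * ((t % q : ℕ) : ℤ) ^ 2 + b' * ((t % q : ℕ) : ℤ) + c' := by
          intro h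
          have h1 := (dvd_mod_iff a' b' c' q t).1 h
          rw [hpoly] at h1
          have hvpos : 0 ≤ (k : ℤ) * l.G t + l.H t := by
            have h2 := l.val_ge htt0 ((Nat.mul_le_mul_left _ htx).trans hk4)
            have h3 := l.G_pos htt0
            have h4 : (0:ℤ) ≤ (k : ℤ) * l.G t := by positivity
            linarith
          have h2 : q ∣ ((k : ℤ) * l.G t + l.H t).toNat := by
            have h3 : ((((k : ℤ) * l.G t + l.H t).toNat : ℕ) : ℤ) = (k : ℤ) * l.G t + l.H t := Int.toNat_of_nonneg hvpos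
            rw [← h3] at h1
            exact_mod_cast h1
          have h3 := (Nat.prime_dvd_prime_iff_eq hq.2 ht.2).1 h2
          have h4 : ((q : ℕ) : ℤ) = (k : ℤ) * l.G t + l.H t := by
            rw [h3]; exact Int.toNat_of_nonneg hvpos
          have h5 := l.val_ge htt0 ((Nat.mul_le_mul_left _ htx).trans hk4)
          rw [← h4] at h5
          have h6 := l.G_pos htt0
          have h7 : (4 * l.S * x : ℤ) ≤ k := by exact_mod_cast hk4
          have h8 := l.S_pos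
          have h9 : (q : ℤ) ≤ x := by exact_mod_cast hq.1.2.trans hxz
          have h10 : (k : ℤ) ≤ k * l.G t := by nlinarith [Int.natCast_nonneg k]
          have h11 : (3 : ℤ) ≤ x := by exact_mod_cast hx3
          nlinarith
        have hmem : t % q ∈ Ico 1 q := by
          rw [mem_Ico]
          refine ⟨?_, Nat.mod_lt _ hq.2.pos⟩
          rw [Nat.one_le_iff_ne_zero]
          intro h
          exact hqt (Nat.dvd_of_mod_eq_zero h)
        have h1 : (Ico 1 q).filter (fun r : ℕ => (q : ℤ) ∣ a' * (r : ℤ) ^ 2 + b' * r + c') ⊂ Ico 1 q := by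
          rw [Finset.ssubset_iff_of_subset (filter_subset _ _)]
          exact ⟨t % q, hmem, fun h => hv (mem_filter.1 h).2⟩
        have h2 := card_lt_card h1
        rw [Nat.card_Ico] at h2
        unfold nu
        omega
      have h1 : (nu a' b' c' q : ℝ) + 1 ≤ (q:ℝ) - 1 := by
        have h2 : (1:ℕ) ≤ q := hq.2.one_lt.le
        have h3 : ((q - 1 : ℕ) : ℝ) = (q:ℝ) - 1 := by rw [Nat.cast_sub h2]; simp
        rw [← h3]
        exact_mod_cast hnu
      have h2 : (nu a' b' c' q : ℝ) / (q - 1) < 1 := by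
        rw [div_lt_one (by linarith)]
        linarith
      linarith
    · have : 1 / (q : ℝ) < 1 := by
        rw [div_lt_one (by linarith)]; exact hq1
      linarith
  obtain ⟨C, hC0, hC⟩ := PC_tendsto a' b' c' ha0 hc0 hsq' hprim z hz4 hPCz
  have hCle : C ≤ PC a' b' c' z * Real.exp (6 * ρ) := by
    have h1 : ∀ᶠ N in atTop, Real.log (PC a' b' c' N) ≤ Real.log (PC a' b' c' z) + 6 * ρ := by
      filter_upwards [hSJ, eventually_ge_atTop z] with N h2 h3
      have h4 := PC_cmp a' b' c' z N hz4 h3 hprim hPCz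
      rw [hdisc] at h4
      have h5 := hDS N
      rw [DS_sign _ _ hss] at h5
      have h7 := hDSc N
      rw [DS_sign _ _ hs] at h7
      have h6 := le_abs_self (Real.log (PC a' b' c' N) - Real.log (PC a' b' c' z))
      linarith
    have h2 : Tendsto (fun N => Real.log (PC a' b' c' N)) atTop (𝓝 (Real.log C)) := hC.log hC0.ne'
    have h3 : Real.log C ≤ Real.log (PC a' b' c' z) + 6 * ρ := le_of_tendsto h2 h1
    have h4 := Real.exp_le_exp.2 h3
    rw [Real.exp_log hC0, Real.exp_add, Real.exp_log hPCz] at h4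
    exact h4
  rw [mem_filter]
  refine ⟨hkI, (mul_le_mul_of_nonneg_right hκκ₁ hK0.le).trans hk1, hprim, hsq', C, hC0, hC, ?_⟩
  -- comparison of counts
  have hpi : (l.numP k T : ℝ) ≤ l.NPP k x := by
    have : l.numP k T ≤ l.NPP k x := by
      unfold numP NPP
      apply card_le_card
      intro u hu
      rw [mem_filter] at hu
      rw [mem_filter, mem_Ioc]
      have h1 := hu.1
      rw [hT, TP, mem_filter, mem_Ioc] at h1
      exact ⟨⟨by omega, h1.1.2⟩, h1.2.1, hu.2⟩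
    exact_mod_cast this
  have hWz := Wz_pos z
  have hun : (1 - ρ) * D * PC a' b' c' z ≤ l.unsieved z k T / Wz z := by
    rw [le_div_iff₀ hWz]
    have h1 := hx₂ x hxx₂ a' b' c'
    have h2 : (#((Icc 1 x).filter (fun p : ℕ => p.Prime ∧ z < p ∧ ∀ q ≤ z, q.Prime →
        ¬ ((q : ℤ) ∣ a' * (p : ℤ) ^ 2 + b' * p + c'))) : ℝ) ≤ l.unsieved z k T := by
      unfold unsieved
      apply Nat.cast_le.2
      apply card_le_card
      intro p hp
      rw [mem_filter, mem_Icc] at hp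
      obtain ⟨⟨h3, h4⟩, h5, h6, h7⟩ := hp
      have hall : ∀ q ≤ z, q.Prime → ¬ ((q : ℤ) ∣ (k : ℤ) * l.G p + l.H p) := by
        intro q hq1 hq2
        rw [← hpoly]
        exact h7 q hq1 hq2
      rw [mem_filter, hT, TP, mem_filter, mem_Ioc]
      refine ⟨⟨⟨h6, h4⟩, h5, ?_⟩, hall⟩
      apply l.coprime_of
      rintro q hq hqR ⟨h8, h9⟩
      have hqz : q ≤ z := (Nat.le_of_dvd (Int.natAbs_pos.2 l.R_ne) (Int.natCast_dvd.1 hqR)).trans hzR
      exact hall q hqz hq (dvd_add (h8.mul_left _) h9)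
    refine le_trans (le_of_eq ?_) (h1.trans h2)
    have h3 : PC a' b' c' z * Wz z = ∏ q ∈ (Icc 1 z).filter Nat.Prime, (1 - (nu a' b' c' q : ℝ) / (q - 1)) := by
      unfold PC Wz
      rw [← prod_mul_distrib]
      apply prod_congr rfl
      intro q hq
      have hq1 : (1:ℝ) < q := by exact_mod_cast (mem_filter.1 hq).2.one_lt
      unfold fac
      rw [div_mul_cancel₀]
      have : 1 / (q : ℝ) < 1 := by
        rw [div_lt_one (by linarith)]; exact hq1
      linarith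
    rw [← h3]
    ring
  have hLS := hK₂ K hKK₂ x k hxK ht0x hgxK hk4 hk1
  have hLS0 : 0 ≤ l.LSP l.t0 k x := by
    unfold LSP
    apply sum_nonneg
    intro t ht
    rw [mem_filter] at ht
    apply one_div_nonneg.2
    apply Real.log_nonneg
    have : (2:ℝ) ≤ (((k : ℤ) * l.G t + l.H t : ℤ) : ℝ) := by exact_mod_cast ht.2.2
    linarith
  constructor
  · refine le_trans ?_ (hmain1.trans hpi)
    have hθ₀0 : 0 < θ₀ := by linarith
    have hρ1' : 0 ≤ 1 - ρ := by linarith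
    calc θ * C * l.LSP l.t0 k x ≤ θ₀ * C * l.LSP l.t0 k x := by
          apply mul_le_mul_of_nonneg_right _ hLS0
          exact mul_le_mul_of_nonneg_right hθθ hC0.le
      _ ≤ θ₀ * (PC a' b' c' z * Real.exp (6 * ρ)) * ((1 + ρ) * D / L) := by
          apply mul_le_mul _ hLS hLS0 (by positivity)
          exact mul_le_mul_of_nonneg_left hCle hθ₀0.le
      _ = θ₀ * (Real.exp (6 * ρ) * (1 + ρ)) * (D * PC a' b' c' z) / L := by ring
      _ ≤ θ₀ * (r * (1 - ρ)) * (D * PC a' b' c' z) / L := by gcongr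
      _ = θ₁ * ((1 - ρ) * D * PC a' b' c' z) / L := by
          rw [hr]
          field_simp
      _ ≤ θ₁ * (l.unsieved z k T / Wz z) / L := by
          apply div_le_div_of_nonneg_right _ hL0.le
          exact mul_le_mul_of_nonneg_left hun (by linarith)
  · refine le_trans ?_ (hmain2.trans hpi)
    apply div_le_div_of_nonneg_right _ hlK0.le
    calc min (min (η / 2) κ₁) κ₂ * D ≤ κ₂ * D := mul_le_mul_of_nonneg_right hκκ₂ hD0.le
      _ = (1 - θ₁) / 8 * (δ * D) := by rw [hκ₂]; ring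
      _ ≤ (1 - θ₁) / 8 * T.card := by
          apply mul_le_mul_of_nonneg_left hTcard
          linarith

end Ln

end Pool.Agent.Helper24K9.EM
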